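import Mathlib

set_option autoImplicit false

open MeasureTheory Set Filter Topology Metric
open scoped ENNReal ContDiff

namespace Pool.Agent.Q171.SUC

/-- `ℂⁿ` with its Euclidean norm -/
abbrev Cn (n : ℕ) := EuclideanSpace ℂ (Fin n)

/-- `f ∈ L^s_loc(Ω)` -/
def LpLoc {n : ℕ} {G : Type*} [NormedAddCommGroup G] (s : ℝ) (Ω : Set (Cn n))
    (f : Cn n → G) : Prop :=
  ∀ K : Set (Cn n), K ⊆ Ω → IsCompact K → MemLp f (ENNReal.ofReal s) (volume.restrict K)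

/-- `g` is the distributional derivative on `Ω` of `u` in the real direction `v` -/
def HasWeakDeriv {n m : ℕ} (Ω : Set (Cn n)) (u g : Cn n → Cn m) (v : Cn n) : Prop :=
  ∀ φ : Cn n → ℝ, ContDiff ℝ ∞ φ → HasCompactSupport φ → tsupport φ ⊆ Ω →
    ∫ z, fderiv ℝ φ z v • u z = - ∫ z, φ z • g z

/-- `u ∈ W^{1,p}_loc(Ω; ℂᵐ)` with distributional derivatives `∂u/∂x_j = gx j`, `∂u/∂y_j = gy j` -/
structure W1Loc {n m : ℕ} (p : ℝ) (Ω : Set (Cn n)) (u : Cn n → Cn m)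
    (gx gy : Fin n → Cn n → Cn m) : Prop where
  memU : LpLoc p Ω u
  memX : ∀ j, LpLoc p Ω (gx j)
  memY : ∀ j, LpLoc p Ω (gy j)
  derivX : ∀ j, HasWeakDeriv Ω u (gx j) (EuclideanSpace.single j 1)
  derivY : ∀ j, HasWeakDeriv Ω u (gy j) (Complex.I • EuclideanSpace.single j 1)

/-- `∂u/∂z̄_j = (∂u/∂x_j + i ∂u/∂y_j)/2` -/
noncomputable def dzbar {n m : ℕ} (gx gy : Fin n → Cn n → Cn m) (j : Fin n) (z : Cn n) : Cn m :=
  (1 / 2 : ℂ) • (gx j z + Complex.I • gy j z)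

/-- the pointwise Euclidean norm of `∂̄u` -/
noncomputable def dbarNorm {n m : ℕ} (gx gy : Fin n → Cn n → Cn m) (z : Cn n) : ℝ :=
  Real.sqrt (∑ j, ‖dzbar gx gy j z‖ ^ 2)

/-- `u` vanishes to infinite order in the `L^s` sense at `z0` -/
def VanishesInf {n m : ℕ} (s : ℝ) (u : Cn n → Cn m) (z0 : Cn n) : Prop :=
  ∀ N : ℕ, Tendsto (fun r : ℝ => ENNReal.ofReal ((r ^ N)⁻¹) * ∫⁻ z in ball z0 r, ‖u z‖ₑ ^ s)
    (𝓝[>] 0) (𝓝 0)

end Pool.Agent.Q171.SUC
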