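import Pool.Agent.Q171.SUC.Core
import Pool.Agent.Q171.SUC.Defs

set_option autoImplicit false

open MeasureTheory Set Filter Topology Metric
open scoped ENNReal ContDiff ComplexConjugate

namespace Pool.Agent.Q171.SUC



theorem single_sum {n : ℕ} (z : Cn n) : z = ∑ j, z j • EuclideanSpace.single j (1 : ℂ) := by
  ext i
  simp [Pi.single_apply]

theorem finrank_Cn (n : ℕ) : Module.finrank ℝ (Cn n) = 2 * n := by
  rw [finrank_real_of_complex, finrank_euclideanSpace, Fintype.card_fin]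

/-- the radial `∂̄` derivative built from the partial derivatives -/
noncomputable def rad {n m : ℕ} (gx gy : Fin n → Cn n → Cn m) (z : Cn n) : Cn m :=
  ∑ j, conj (z j) • ((1 / 2 : ℂ) • (gx j z + Complex.I • gy j z))

theorem measurable_rad {n m : ℕ} {gx gy : Fin n → Cn n → Cn m} (hx : ∀ j, Measurable (gx j))
    (hy : ∀ j, Measurable (gy j)) : Measurable (rad gx gy) := by
  unfold rad
  apply Finset.measurable_fun_sum
  intro j _
  have h1 : Measurable (fun z : Cn n => conj (z j)) :=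
    (Complex.continuous_conj.comp (EuclideanSpace.proj (𝕜 := ℂ) j).continuous).measurable
  have h2 : Measurable (fun z : Cn n => (1 / 2 : ℂ) • (gx j z + Complex.I • gy j z)) :=
    ((hx j).add ((hy j).const_smul Complex.I)).const_smul (1 / 2 : ℂ)
  exact h1.smul h2

/-- the total error -/
noncomputable def tot {n m : ℕ} (U V : Cn n → Cn m) (gx gy hx hy : Fin n → Cn n → Cn m)
    (z : Cn n) : ℝ≥0∞ :=
  ‖U z - V z‖ₑ + ∑ j, (‖gx j z - hx j z‖ₑ + ‖gy j z - hy j z‖ₑ)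

theorem rad_sub_le {n m : ℕ} (gx gy hx hy : Fin n → Cn n → Cn m) (z : Cn n) :
    ‖rad gx gy z - rad hx hy z‖ₑ ≤ ‖z‖ₑ * ∑ j, (‖gx j z - hx j z‖ₑ + ‖gy j z - hy j z‖ₑ) := by
  unfold rad
  rw [← Finset.sum_sub_distrib, Finset.mul_sum]
  refine (enorm_sum_le _ _).trans ?_
  apply Finset.sum_le_sum
  intro j _
  rw [← smul_sub, ← smul_sub, enorm_smul, enorm_smul]
  have h1 : ‖conj (z j)‖ₑ ≤ ‖z‖ₑ := by
    rw [← ofReal_norm, ← ofReal_norm, RCLike.norm_conj]
    exact ENNReal.ofReal_le_ofReal (PiLp.norm_apply_le z j)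
  have h2 : ‖(1 / 2 : ℂ)‖ₑ ≤ 1 := by
    rw [← ofReal_norm, ← ENNReal.ofReal_one]
    apply ENNReal.ofReal_le_ofReal
    norm_num
  have h3 : ‖gx j z + Complex.I • gy j z - (hx j z + Complex.I • hy j z)‖ₑ ≤
      ‖gx j z - hx j z‖ₑ + ‖gy j z - hy j z‖ₑ := by
    have : gx j z + Complex.I • gy j z - (hx j z + Complex.I • hy j z) =
        (gx j z - hx j z) + Complex.I • (gy j z - hy j z) := by
      rw [smul_sub]; abel
    rw [this]
    refine (enorm_add_le _ _).trans ?_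
    rw [enorm_smul]
    have : ‖Complex.I‖ₑ = 1 := by rw [← ofReal_norm, Complex.norm_I, ENNReal.ofReal_one]
    rw [this, one_mul]
  calc ‖conj (z j)‖ₑ * (‖(1 / 2 : ℂ)‖ₑ *
        ‖gx j z + Complex.I • gy j z - (hx j z + Complex.I • hy j z)‖ₑ)
      ≤ ‖z‖ₑ * (1 * (‖gx j z - hx j z‖ₑ + ‖gy j z - hy j z‖ₑ)) := by gcongr
    _ = _ := by rw [one_mul]

/-- data in a ball centered at the origin -/
structure BallHyp (n m : ℕ) (R0 : ℝ) (p r : ℝ) (U : Cn n → Cn m) (gx gy : Fin n → Cn n → Cn m)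
    (V : Cn n → ℝ≥0∞) : Prop where
  mU : Measurable U
  mx : ∀ j, Measurable (gx j)
  my : ∀ j, Measurable (gy j)
  mV : Measurable V
  iU : Integrable U
  ix : ∀ j, Integrable (gx j)
  iy : ∀ j, Integrable (gy j)
  wx : ∀ j, WD volume U (gx j) (EuclideanSpace.single j 1)
  wy : ∀ j, WD volume U (gy j) (Complex.I • EuclideanSpace.single j 1)
  ineq : ∀ᵐ z, ‖z‖ < R0 → ‖rad gx gy z‖ₑ ≤ ‖z‖ₑ * V z * ‖U z‖ₑ
  pU : ∫⁻ z in ball 0 R0, ‖U z‖ₑ ^ p < ⊤
  pG : ∫⁻ z in ball 0 R0, ‖rad gx gy z‖ₑ ^ p < ⊤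
  pV : ∫⁻ z in ball 0 R0, V z ^ r < ⊤
  van : ∀ M : ℕ, ∃ ρ > 0, ∫⁻ z in ball 0 ρ, ENNReal.ofReal ((‖z‖ ^ M)⁻¹) * ‖U z‖ₑ ^ p < ⊤

theorem ball_core {n m : ℕ} {R0 p q r c : ℝ} (hp : 1 ≤ p) (hp2 : p ≤ 2) (hpq : p < q)
    (hpr : p < r) (hc0 : 0 < c) (hc2 : c < 2) (hcpq : 1 / c = 1 / q + (1 - 1 / p))
    (hold : 1 / p = 1 / r + 1 / q) (hr : r = 2 * n) (hn : 1 ≤ n)
    {U : Cn n → Cn m} {gx gy : Fin n → Cn n → Cn m}
    {V : Cn n → ℝ≥0∞} (h : BallHyp n m R0 p r U gx gy V) (hR0 : 0 < R0) :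
    ∀ᵐ θ ∂((volume : Measure (Cn n)).restrict (shell (Cn n))),
      ∀ᵐ ζ : ℂ, ‖ζ‖ < R0 / 2 → U (ζ • θ) = 0 := by
  have : Nontrivial (Cn n) := by
    have : Nonempty (Fin n) := ⟨⟨0, hn⟩⟩
    infer_instance
  have hp0 : 0 < p := by linarith
  have hr0 : 0 < r := by linarith
  set μ : Measure (Cn n) := volume with hμ
  have hfr := finrank_Cn n
  -- mollifiers
  set ψ : ℕ → ContDiffBump (0 : Cn n) := fun k =>
    ⟨1 / ((k : ℝ) + 1) / 2, 1 / ((k : ℝ) + 1), by positivity, by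
      have : (0 : ℝ) < 1 / ((k : ℝ) + 1) := by positivity
      linarith⟩ with hψ
  have hψlim : Tendsto (fun k => (ψ k).rOut) atTop (𝓝 0) := tendsto_one_div_add_atTop_nhds_zero_nat
  have mrad := measurable_rad h.mx h.my
  -- error tends to zero
  set err : ℕ → Cn n → ℝ≥0∞ := fun k => tot (moll μ (ψ k) U) U
    (fun j => moll μ (ψ k) (gx j)) (fun j => moll μ (ψ k) (gy j)) gx gy with herr
  have errm : ∀ k, Measurable (err k) := by
    intro k
    simp only [herr]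
    unfold tot
    refine (((moll_continuous h.iU (ψ k)).measurable.sub h.mU).enorm).add ?_
    apply Finset.measurable_fun_sum
    intro j _
    exact (((moll_continuous (h.ix j) (ψ k)).measurable.sub (h.mx j)).enorm).add
        (((moll_continuous (h.iy j) (ψ k)).measurable.sub (h.my j)).enorm)
  have errlim : Tendsto (fun k => ∫⁻ z, err k z ∂μ) atTop (𝓝 0) := by
    have e : ∀ k, ∫⁻ z, err k z ∂μ = (∫⁻ z, ‖moll μ (ψ k) U z - U z‖ₑ ∂μ) +
        ∑ j, ((∫⁻ z, ‖moll μ (ψ k) (gx j) z - gx j z‖ₑ ∂μ) +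
          ∫⁻ z, ‖moll μ (ψ k) (gy j) z - gy j z‖ₑ ∂μ) := by
      intro k
      simp only [herr]
      unfold tot
      have m1 : Measurable (fun z => ‖moll μ (ψ k) U z - U z‖ₑ) :=
        ((moll_continuous h.iU (ψ k)).measurable.sub h.mU).enorm
      have m2 : ∀ j, Measurable (fun z => ‖moll μ (ψ k) (gx j) z - gx j z‖ₑ) := fun j =>
        ((moll_continuous (h.ix j) (ψ k)).measurable.sub (h.mx j)).enorm
      have m3 : ∀ j, Measurable (fun z => ‖moll μ (ψ k) (gy j) z - gy j z‖ₑ) := fun j =>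
        ((moll_continuous (h.iy j) (ψ k)).measurable.sub (h.my j)).enorm
      have m4 : ∀ j ∈ (Finset.univ : Finset (Fin n)), Measurable (fun z =>
          ‖moll μ (ψ k) (gx j) z - gx j z‖ₑ + ‖moll μ (ψ k) (gy j) z - gy j z‖ₑ) :=
        fun j _ => (m2 j).add (m3 j)
      rw [lintegral_add_left m1]
      congr 1
      simp only
      rw [lintegral_finsetSum _ m4]
      apply Finset.sum_congr rfl
      intro j _
      rw [lintegral_add_left (m2 j)]
    simp_rw [e]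
    have l1 := moll_l1 (μ := μ) h.iU ψ hψlim
    have l2 : Tendsto (fun k => ∑ j, ((∫⁻ z, ‖moll μ (ψ k) (gx j) z - gx j z‖ₑ ∂μ) +
          ∫⁻ z, ‖moll μ (ψ k) (gy j) z - gy j z‖ₑ ∂μ)) atTop (𝓝 (∑ j : Fin n, (0 + 0))) := by
      apply tendsto_finsetSum
      intro j _
      exact (moll_l1 (μ := μ) (h.ix j) ψ hψlim).add (moll_l1 (μ := μ) (h.iy j) ψ hψlim)
    have := l1.add l2
    simpa using this
  -- the almost everywhere statements
  have s1 := slice_lim μ errm errlim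
  have hmb : ∀ s : ℝ, MeasurableSet (ball (0 : Cn n) s) := fun s => measurableSet_ball
  have s2 := slice_fin μ (h := (ball (0 : Cn n) R0).indicator (fun z => ‖U z‖ₑ ^ p))
    ((h.mU.enorm.pow_const p).indicator (hmb _)) (by rw [lintegral_indicator (hmb _)]; exact h.pU)
  have s3 := slice_fin μ (h := (ball (0 : Cn n) R0).indicator (fun z => ‖rad gx gy z‖ₑ ^ p))
    ((mrad.enorm.pow_const p).indicator (hmb _)) (by rw [lintegral_indicator (hmb _)]; exact h.pG)
  have s4 := slice_fin μ (h := (ball (0 : Cn n) R0).indicator (fun z => V z ^ r))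
    ((h.mV.pow_const r).indicator (hmb _)) (by rw [lintegral_indicator (hmb _)]; exact h.pV)
  have s5 := slice_null μ h.ineq
  choose ρ hρ hρf using h.van
  have hmv : ∀ M : ℕ, Measurable (fun z : Cn n => ENNReal.ofReal ((‖z‖ ^ M)⁻¹) * ‖U z‖ₑ ^ p) :=
    fun M => (by fun_prop : Measurable (fun z : Cn n => ENNReal.ofReal ((‖z‖ ^ M)⁻¹))).mul
      (h.mU.enorm.pow_const p)
  have s6 : ∀ᵐ θ ∂(μ.restrict (shell (Cn n))), ∀ M : ℕ,
      ∫⁻ ζ, ENNReal.ofReal (‖ζ‖ ^ Module.finrank ℝ (Cn n)) *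
        (ball (0 : Cn n) (ρ M)).indicator (fun z => ENNReal.ofReal ((‖z‖ ^ M)⁻¹) * ‖U z‖ₑ ^ p)
          (ζ • θ) ∂mu < ⊤ := by
    rw [ae_all_iff]
    intro M
    exact slice_fin μ (h := (ball (0 : Cn n) (ρ M)).indicator
      (fun z => ENNReal.ofReal ((‖z‖ ^ M)⁻¹) * ‖U z‖ₑ ^ p)) ((hmv M).indicator (hmb _))
      (by rw [lintegral_indicator (hmb _)]; exact hρf M)
  have hne : ∀ᵐ ζ ∂mu, ζ ≠ 0 := ae_mu_of_ae (by rw [ae_iff]; simp)
  have s7 : ∀ᵐ θ ∂(μ.restrict (shell (Cn n))), θ ∈ shell (Cn n) :=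
    ae_restrict_mem measurableSet_shell
  filter_upwards [s1, s2, s3, s4, s5, s6, s7] with θ t1 t2 t3 t4 t5 t6 t7
  obtain ⟨hθ1, hθ2⟩ := t7
  rw [hfr] at t1 t2 t3 t4 t6
  have hθ0 : 0 < ‖θ‖ := by linarith
  have mline : Measurable (fun ζ : ℂ => ζ • θ) := (continuous_id.smul continuous_const).measurable
  set u : ℂ → Cn m := fun ζ => U (ζ • θ) with hu
  set v : ℂ → Cn m := fun ζ => (conj ζ)⁻¹ • rad gx gy (ζ • θ) with hv
  have mu' : Measurable u := h.mU.comp mline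
  have mv' : Measurable v := by
    have : Measurable (fun ζ : ℂ => (conj ζ)⁻¹) := Complex.continuous_conj.measurable.inv
    exact this.smul (mrad.comp mline)
  have hvn : ∀ ζ : ℂ, ‖v ζ‖ₑ = ENNReal.ofReal ‖ζ‖⁻¹ * ‖rad gx gy (ζ • θ)‖ₑ := by
    intro ζ
    simp only [hv]
    rw [enorm_smul, ← ofReal_norm (conj ζ)⁻¹, norm_inv, RCLike.norm_conj]
  have hball : ∀ ζ : ℂ, ‖ζ‖ < R0 / 2 → ζ • θ ∈ ball (0 : Cn n) R0 := by
    intro ζ hζ
    rw [mem_ball_zero_iff, norm_smul]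
    nlinarith [norm_nonneg ζ]
  have hR : 0 < R0 / 2 := by positivity
  -- the line hypothesis
  have hL : LineHyp (R0 / 2) p q r c (fun ζ => ‖u ζ‖ₑ) (fun ζ => ‖v ζ‖ₑ)
      (fun ζ => 2 * (ball (0 : Cn n) R0).indicator V (ζ • θ)) := by
    refine ⟨hp, hpq, hpr, hc0, hc2, hcpq, hold, mu'.enorm, mv'.enorm,
      ((h.mV.indicator (hmb _)).comp mline).const_mul 2, ?_, ?_, ?_, ?_, ?_, ?_⟩
    · -- rep
      intro η hη hηc hη0 N
      apply rep_limit (fk := fun k ζ => moll μ (ψ k) U (ζ • θ)) (R := R0 / 2) (e := 2 * n)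
        _ mu' mv' _ hη hηc hη0 N
      · intro k
        have := moll_contDiff h.iU (ψ k)
        exact this.comp (((ContinuousLinearMap.toSpanSingleton ℂ θ).restrictScalars ℝ).contDiff)
      · refine liminf_zero_of_le (C := 3) (by norm_num) ?_ t1
        intro k
        rw [← lintegral_indicator measurableSet_ball, ← lintegral_const_mul' _ _ (by norm_num)]
        apply lintegral_mono
        intro ζ
        simp only
        by_cases hζ : ζ ∈ ball (0 : ℂ) (R0 / 2)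
        · rw [indicator_of_mem hζ]
          have hdb : ‖db (fun ζ : ℂ => moll μ (ψ k) U (ζ • θ)) ζ - v ζ‖ₑ ≤ 2 * ∑ j,
              (‖moll μ (ψ k) (gx j) (ζ • θ) - gx j (ζ • θ)‖ₑ +
                ‖moll μ (ψ k) (gy j) (ζ • θ) - gy j (ζ • θ)‖ₑ) ∨ ζ = 0 := by
            by_cases hζ0 : ζ = 0
            · exact Or.inr hζ0
            left
            have hζn : 0 < ‖ζ‖ := norm_pos_iff.mpr hζ0
            have hcj : conj ζ ≠ 0 := by simpa using hζ0
            have hrad : rad (fun j => moll μ (ψ k) (gx j)) (fun j => moll μ (ψ k) (gy j)) (ζ • θ) =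
                abar (fderiv ℝ (moll μ (ψ k) U) (ζ • θ)) (ζ • θ) := by
              have hss : abar (fderiv ℝ (moll μ (ψ k) U) (ζ • θ)) (ζ • θ) =
                  abar (fderiv ℝ (moll μ (ψ k) U) (ζ • θ))
                    (∑ j, (ζ • θ) j • EuclideanSpace.single j (1 : ℂ)) := by
                rw [← single_sum (ζ • θ)]
              rw [hss, abar_sum]
              unfold rad
              apply Finset.sum_congr rfl
              intro j _
              rw [abar_smul]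
              congr 1
              unfold abar
              rw [moll_fderiv h.iU (h.wx j), moll_fderiv h.iU (h.wy j)]
            have e1 : db (fun ζ : ℂ => moll μ (ψ k) U (ζ • θ)) ζ = (conj ζ)⁻¹ •
                rad (fun j => moll μ (ψ k) (gx j)) (fun j => moll μ (ψ k) (gy j)) (ζ • θ) := by
              rw [db_line (moll_contDiff h.iU (ψ k)), hrad, abar_smul, smul_smul,
                inv_mul_cancel₀ hcj, one_smul]
            rw [e1]
            simp only [hv]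
            rw [← smul_sub, enorm_smul]
            have e2 := rad_sub_le (fun j => moll μ (ψ k) (gx j)) (fun j => moll μ (ψ k) (gy j))
              gx gy (ζ • θ)
            calc ‖(conj ζ)⁻¹‖ₑ * _ ≤ ‖(conj ζ)⁻¹‖ₑ * (‖ζ • θ‖ₑ * ∑ j,
              (‖moll μ (ψ k) (gx j) (ζ • θ) - gx j (ζ • θ)‖ₑ +
                ‖moll μ (ψ k) (gy j) (ζ • θ) - gy j (ζ • θ)‖ₑ)) := by gcongr
              _ = (‖(conj ζ)⁻¹‖ₑ * ‖ζ • θ‖ₑ) * ∑ j,
              (‖moll μ (ψ k) (gx j) (ζ • θ) - gx j (ζ • θ)‖ₑ +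
                ‖moll μ (ψ k) (gy j) (ζ • θ) - gy j (ζ • θ)‖ₑ) := by rw [mul_assoc]
              _ ≤ _ := by
                gcongr
                rw [← ofReal_norm, ← ofReal_norm, norm_smul, norm_inv, RCLike.norm_conj,
                  ← ENNReal.ofReal_mul (by positivity), ← mul_assoc, inv_mul_cancel₀ hζn.ne',
                  one_mul]
                calc ENNReal.ofReal ‖θ‖ ≤ ENNReal.ofReal 2 := ENNReal.ofReal_le_ofReal hθ2.le
                  _ = 2 := by simp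
          rcases hdb with hdb | hdb
          · calc ENNReal.ofReal (‖ζ‖ ^ (2 * n)) * (‖moll μ (ψ k) U (ζ • θ) - u ζ‖ₑ +
                ‖db (fun ζ : ℂ => moll μ (ψ k) U (ζ • θ)) ζ - v ζ‖ₑ)
                ≤ ENNReal.ofReal (‖ζ‖ ^ (2 * n)) * (‖moll μ (ψ k) U (ζ • θ) - u ζ‖ₑ +
                2 * ∑ j, (‖moll μ (ψ k) (gx j) (ζ • θ) - gx j (ζ • θ)‖ₑ +
                ‖moll μ (ψ k) (gy j) (ζ • θ) - gy j (ζ • θ)‖ₑ)) := by gcongr
              _ ≤ ENNReal.ofReal (‖ζ‖ ^ (2 * n)) * (3 * ‖moll μ (ψ k) U (ζ • θ) - u ζ‖ₑ +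
                3 * ∑ j, (‖moll μ (ψ k) (gx j) (ζ • θ) - gx j (ζ • θ)‖ₑ +
                ‖moll μ (ψ k) (gy j) (ζ • θ) - gy j (ζ • θ)‖ₑ)) := by
                  gcongr
                  · exact le_mul_of_one_le_left bot_le (by norm_num)
                  · norm_num
              _ = 3 * (ENNReal.ofReal (‖ζ‖ ^ (2 * n)) * err k (ζ • θ)) := by
                  simp only [herr, tot, hu]
                  ring
          · rw [hdb, norm_zero, zero_pow (by omega), ENNReal.ofReal_zero, zero_mul]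
            exact bot_le
        · rw [indicator_of_notMem hζ]; exact bot_le
    · -- inequality
      filter_upwards [t5] with ζ hζ hlt
      have hz := hball ζ hlt
      rw [indicator_of_mem hz]
      have h1 := hζ (mem_ball_zero_iff.mp hz)
      rw [hvn]
      by_cases hζ0 : ζ = 0
      · rw [hζ0, norm_zero, inv_zero, ENNReal.ofReal_zero, zero_mul]; exact bot_le
      have hζn : 0 < ‖ζ‖ := norm_pos_iff.mpr hζ0
      calc ENNReal.ofReal ‖ζ‖⁻¹ * ‖rad gx gy (ζ • θ)‖ₑ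
          ≤ ENNReal.ofReal ‖ζ‖⁻¹ * (‖ζ • θ‖ₑ * V (ζ • θ) * ‖U (ζ • θ)‖ₑ) := by gcongr
        _ = (ENNReal.ofReal ‖ζ‖⁻¹ * ‖ζ • θ‖ₑ) * (V (ζ • θ) * ‖U (ζ • θ)‖ₑ) := by ring
        _ ≤ 2 * (V (ζ • θ) * ‖U (ζ • θ)‖ₑ) := by
            gcongr
            rw [← ofReal_norm, norm_smul, ← ENNReal.ofReal_mul (by positivity), ← mul_assoc,
              inv_mul_cancel₀ hζn.ne', one_mul]
            calc ENNReal.ofReal ‖θ‖ ≤ ENNReal.ofReal 2 := ENNReal.ofReal_le_ofReal hθ2.le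
              _ = 2 := by simp
        _ = _ := by simp only [hu]; ring
    · -- integrability of the potential
      have h2 : (2 : ℝ≥0∞) ^ r ≠ ⊤ := by
        apply ENNReal.rpow_ne_top_of_nonneg hr0.le (by norm_num)
      refine lt_of_le_of_lt (setLIntegral_le_lintegral _ _) ?_
      refine lt_of_le_of_lt (b := (2 : ℝ≥0∞) ^ r * ∫⁻ ζ, ENNReal.ofReal (‖ζ‖ ^ (2 * n)) *
        (ball (0 : Cn n) R0).indicator (fun z => V z ^ r) (ζ • θ) ∂mu) ?_
        (ENNReal.mul_lt_top (lt_top_iff_ne_top.mpr h2) t4)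
      rw [← lintegral_const_mul' _ _ h2]
      apply lintegral_mono
      intro ζ
      simp only
      apply le_of_eq
      rw [ENNReal.mul_rpow_of_nonneg _ _ hr0.le, ENNReal.mul_rpow_of_nonneg _ _ hr0.le]
      have e1 : ‖ζ‖ₑ ^ r = ENNReal.ofReal (‖ζ‖ ^ (2 * n)) := by
        rw [← ofReal_norm, ENNReal.ofReal_rpow_of_nonneg (norm_nonneg _) hr0.le, hr,
          ← Real.rpow_natCast]
        push_cast
        rfl
      have e2 : (ball (0 : Cn n) R0).indicator V (ζ • θ) ^ r =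
          (ball (0 : Cn n) R0).indicator (fun z => V z ^ r) (ζ • θ) := by
        by_cases hz : ζ • θ ∈ ball (0 : Cn n) R0
        · rw [indicator_of_mem hz, indicator_of_mem hz]
        · rw [indicator_of_notMem hz, indicator_of_notMem hz, ENNReal.zero_rpow_of_pos hr0]
      rw [e1, e2]
      ring
    · -- vanishing
      intro N
      set M := 2 * n + 2 * N with hM
      refine ⟨min (ρ M / 2) 1, lt_min (by have := hρ M; positivity) one_pos, ?_⟩
      unfold Nm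
      apply ENNReal.rpow_lt_top_of_nonneg (by positivity)
      apply ne_of_lt
      have h2 : (2 : ℝ≥0∞) ^ M ≠ ⊤ := by
        apply ENNReal.pow_ne_top (by norm_num)
      refine lt_of_le_of_lt (b := (2 : ℝ≥0∞) ^ M * ∫⁻ ζ, ENNReal.ofReal (‖ζ‖ ^ (2 * n)) *
        (ball (0 : Cn n) (ρ M)).indicator (fun z => ENNReal.ofReal ((‖z‖ ^ M)⁻¹) * ‖U z‖ₑ ^ p)
          (ζ • θ) ∂mu) ?_ (ENNReal.mul_lt_top (lt_top_iff_ne_top.mpr h2) (t6 M))
      rw [← lintegral_const_mul' _ _ h2]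
      apply lintegral_mono_ae
      filter_upwards [hne] with ζ hζ0
      by_cases hζ : ζ ∈ ball (0 : ℂ) (min (ρ M / 2) 1)
      · rw [indicator_of_mem hζ]
        rw [mem_ball_zero_iff, lt_min_iff] at hζ
        have hz : ζ • θ ∈ ball (0 : Cn n) (ρ M) := by
          rw [mem_ball_zero_iff, norm_smul]
          nlinarith [norm_nonneg ζ]
        rw [indicator_of_mem hz]
        have hζn : 0 < ‖ζ‖ := norm_pos_iff.mpr hζ0
        rw [ENNReal.mul_rpow_of_nonneg _ _ hp0.le, ← mul_assoc, ← mul_assoc]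
        gcongr ?_ * _
        unfold wt
        rw [ENNReal.ofReal_rpow_of_nonneg (by positivity) hp0.le]
        have h2M : (2 : ℝ≥0∞) ^ M = ENNReal.ofReal (2 ^ M) := by
          rw [ENNReal.ofReal_pow (by norm_num)]; simp
        rw [h2M, ← ENNReal.ofReal_mul (by positivity), ← ENNReal.ofReal_mul (by positivity)]
        apply ENNReal.ofReal_le_ofReal
        rw [← Real.rpow_mul hζn.le, norm_smul, mul_pow, mul_inv]
        have a1 : ‖ζ‖ ^ (-(N : ℝ) * p) ≤ ‖ζ‖ ^ (-((2 * N : ℕ) : ℝ)) := by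
          apply Real.rpow_le_rpow_of_exponent_ge hζn hζ.2.le
          push_cast
          have : (0 : ℝ) ≤ N := by positivity
          nlinarith
        have a2 : ‖ζ‖ ^ (-((2 * N : ℕ) : ℝ)) = ‖ζ‖ ^ (2 * n) * (‖ζ‖ ^ M)⁻¹ := by
          rw [Real.rpow_neg hζn.le, Real.rpow_natCast, hM, pow_add]
          field_simp
        have a3 : (1 : ℝ) ≤ 2 ^ M * (‖θ‖ ^ M)⁻¹ := by
          rw [← div_eq_mul_inv, le_div_iff₀ (by positivity), one_mul]
          exact pow_le_pow_left₀ hθ0.le hθ2.le M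
        calc ‖ζ‖ ^ (-(N : ℝ) * p) ≤ ‖ζ‖ ^ (2 * n) * (‖ζ‖ ^ M)⁻¹ := a1.trans a2.le
          _ = 1 * (‖ζ‖ ^ (2 * n) * (‖ζ‖ ^ M)⁻¹) := (one_mul _).symm
          _ ≤ (2 ^ M * (‖θ‖ ^ M)⁻¹) * (‖ζ‖ ^ (2 * n) * (‖ζ‖ ^ M)⁻¹) := by gcongr
          _ = _ := by ring
      · rw [indicator_of_notMem hζ, ENNReal.zero_rpow_of_pos hp0]; exact bot_le
    · -- integrability of u on annuli
      intro ε hε R' hR'
      unfold Nm
      apply ENNReal.rpow_lt_top_of_nonneg (by positivity)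
      apply ne_of_lt
      refine lt_of_le_of_lt (b := ENNReal.ofReal ((ε ^ (2 * n))⁻¹) * ∫⁻ ζ, ENNReal.ofReal (‖ζ‖ ^ (2 * n)) *
        (ball (0 : Cn n) R0).indicator (fun z => ‖U z‖ₑ ^ p) (ζ • θ) ∂mu) ?_
          (ENNReal.mul_lt_top ENNReal.ofReal_lt_top t2)
      rw [← lintegral_const_mul' _ _ ENNReal.ofReal_ne_top]
      apply lintegral_mono
      intro ζ
      simp only
      by_cases hζ : ζ ∈ {ζ : ℂ | ε ≤ ‖ζ‖ ∧ ‖ζ‖ ≤ R'}
      · rw [indicator_of_mem hζ, indicator_of_mem (hball ζ (hζ.2.trans_lt hR')), ← mul_assoc,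
          ← ENNReal.ofReal_mul (by positivity)]
        calc ‖u ζ‖ₑ ^ p = 1 * ‖u ζ‖ₑ ^ p := (one_mul _).symm
          _ ≤ _ := by
            gcongr
            rw [← ENNReal.ofReal_one]
            apply ENNReal.ofReal_le_ofReal
            rw [mul_comm, ← div_eq_mul_inv, le_div_iff₀ (by positivity), one_mul]
            exact pow_le_pow_left₀ hε.le hζ.1 _
      · rw [indicator_of_notMem hζ, ENNReal.zero_rpow_of_pos hp0]; exact bot_le
    · -- integrability of the derivative on annuli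
      intro ε hε R' hR'
      unfold Nm
      apply ENNReal.rpow_lt_top_of_nonneg (by positivity)
      apply ne_of_lt
      have hK : ENNReal.ofReal ε⁻¹ ^ p * ENNReal.ofReal ((ε ^ (2 * n))⁻¹) ≠ ⊤ :=
        ENNReal.mul_ne_top (ENNReal.rpow_ne_top_of_nonneg hp0.le ENNReal.ofReal_ne_top)
          ENNReal.ofReal_ne_top
      refine lt_of_le_of_lt (b := (ENNReal.ofReal ε⁻¹ ^ p * ENNReal.ofReal ((ε ^ (2 * n))⁻¹)) *
        ∫⁻ ζ, ENNReal.ofReal (‖ζ‖ ^ (2 * n)) *
        (ball (0 : Cn n) R0).indicator (fun z => ‖rad gx gy z‖ₑ ^ p) (ζ • θ) ∂mu) ?_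
          (ENNReal.mul_lt_top (lt_top_iff_ne_top.mpr hK) t3)
      rw [← lintegral_const_mul' _ _ hK]
      apply lintegral_mono
      intro ζ
      simp only
      by_cases hζ : ζ ∈ {ζ : ℂ | ε ≤ ‖ζ‖ ∧ ‖ζ‖ ≤ R'}
      · rw [indicator_of_mem hζ, indicator_of_mem (hball ζ (hζ.2.trans_lt hR')), hvn,
          ENNReal.mul_rpow_of_nonneg _ _ hp0.le, ← mul_assoc, mul_assoc (ENNReal.ofReal ε⁻¹ ^ p),
          ← ENNReal.ofReal_mul (by positivity)]
        gcongr ?_ * _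
        calc ENNReal.ofReal ‖ζ‖⁻¹ ^ p = ENNReal.ofReal ‖ζ‖⁻¹ ^ p * 1 := (mul_one _).symm
          _ ≤ _ := by
            have hε' : ‖ζ‖⁻¹ ≤ ε⁻¹ := inv_anti₀ hε hζ.1
            gcongr
            rw [← ENNReal.ofReal_one]
            apply ENNReal.ofReal_le_ofReal
            rw [mul_comm, ← div_eq_mul_inv, le_div_iff₀ (by positivity), one_mul]
            exact pow_le_pow_left₀ hε.le hζ.1 _
      · rw [indicator_of_notMem hζ, ENNReal.zero_rpow_of_pos hp0]; exact bot_le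
  filter_upwards [line hL] with ζ hζ hlt
  have := hζ hlt
  rwa [enorm_eq_zero] at this

end Pool.Agent.Q171.SUC
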