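import Mathlib

set_option autoImplicit false

open MeasureTheory Set Filter Topology Metric
open scoped ENNReal

namespace Pool.Agent.Q171.SUC

section scale

variable {E : Type*} [NormedAddCommGroup E] [NormedSpace ℂ E] [NormedSpace ℝ E]
  [IsScalarTower ℝ ℂ E] [FiniteDimensional ℝ E] [Nontrivial E] [MeasurableSpace E] [BorelSpace E]
  (μ : Measure E) [μ.IsAddHaarMeasure]

/-- multiplication by a complex number as a real linear map -/
noncomputable def mulMap (E : Type*) [NormedAddCommGroup E] [NormedSpace ℂ E] [NormedSpace ℝ E]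
    [IsScalarTower ℝ ℂ E] (ζ : ℂ) : E →ₗ[ℝ] E where
  toFun x := ζ • x
  map_add' x y := smul_add _ _ _
  map_smul' r x := by
    simp only [RingHom.id_apply]
    rw [← smul_assoc r ζ x, ← algebraMap_smul ℂ r x, smul_smul, mul_comm, ← smul_smul]
    rw [smul_smul, Algebra.smul_def]

theorem abs_det_mulMap {ζ : ℂ} (hζ : ζ ≠ 0) :
    |LinearMap.det (mulMap E ζ)| = ‖ζ‖ ^ Module.finrank ℝ E := by
  let μ : Measure E := Measure.addHaar
  have hn : 0 < ‖ζ‖ := norm_pos_iff.mpr hζ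
  have himg : (mulMap E ζ) '' (ball 0 1) = ball 0 ‖ζ‖ := by
    ext x
    constructor
    · rintro ⟨y, hy, rfl⟩
      rw [mem_ball_zero_iff] at hy ⊢
      show ‖ζ • y‖ < ‖ζ‖
      rw [norm_smul]
      nlinarith
    · intro hx
      rw [mem_ball_zero_iff] at hx
      refine ⟨ζ⁻¹ • x, ?_, ?_⟩
      · rw [mem_ball_zero_iff, norm_smul, norm_inv, inv_mul_lt_iff₀ hn, mul_one]
        exact hx
      · show ζ • ζ⁻¹ • x = x
        rw [smul_smul, mul_inv_cancel₀ hζ, one_smul]
  have h1 := Measure.addHaar_image_linearMap μ (mulMap E ζ) (ball 0 1)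
  rw [himg, Measure.addHaar_ball μ 0 hn.le] at h1
  have h0 : μ (ball (0 : E) 1) ≠ 0 := (measure_ball_pos μ 0 one_pos).ne'
  have hT : μ (ball (0 : E) 1) ≠ ⊤ := measure_ball_lt_top.ne
  have h2 := (ENNReal.mul_left_inj h0 hT).mp h1
  have h3 := congrArg ENNReal.toReal h2
  rw [ENNReal.toReal_ofReal (by positivity), ENNReal.toReal_ofReal (abs_nonneg _)] at h3
  exact h3.symm

theorem map_mulMap {ζ : ℂ} (hζ : ζ ≠ 0) : Measure.map (fun x : E => ζ • x) μ =
    ENNReal.ofReal ((‖ζ‖ ^ Module.finrank ℝ E)⁻¹) • μ := by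
  have hd := abs_det_mulMap (E := E) hζ
  have hn : 0 < ‖ζ‖ := norm_pos_iff.mpr hζ
  have hne : LinearMap.det (mulMap E ζ) ≠ 0 := by
    intro h
    rw [h, abs_zero] at hd
    have : 0 < ‖ζ‖ ^ Module.finrank ℝ E := by positivity
    linarith
  have := Measure.map_linearMap_addHaar_eq_smul_addHaar μ hne
  rw [abs_inv, hd] at this
  exact this

theorem lintegral_csmul {ζ : ℂ} (hζ : ζ ≠ 0) {f : E → ℝ≥0∞} (hf : Measurable f) :
    ∫⁻ x, f (ζ • x) ∂μ = ENNReal.ofReal ((‖ζ‖ ^ Module.finrank ℝ E)⁻¹) * ∫⁻ x, f x ∂μ := by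
  have hm : Measurable (fun x : E => ζ • x) := (continuous_const_smul ζ).measurable
  have h1 : ∫⁻ x, f (ζ • x) ∂μ = ∫⁻ x, f x ∂(Measure.map (fun x : E => ζ • x) μ) :=
    (lintegral_map hf hm).symm
  rw [h1, map_mulMap μ hζ, lintegral_smul_measure, smul_eq_mul]

theorem lintegral_eq_csmul {ζ : ℂ} (hζ : ζ ≠ 0) {f : E → ℝ≥0∞} (hf : Measurable f) :
    ∫⁻ x, f x ∂μ = ENNReal.ofReal (‖ζ‖ ^ Module.finrank ℝ E) * ∫⁻ x, f (ζ • x) ∂μ := by
  have hn : 0 < ‖ζ‖ := norm_pos_iff.mpr hζ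
  rw [lintegral_csmul μ hζ hf, ← mul_assoc, ← ENNReal.ofReal_mul (by positivity),
    mul_inv_cancel₀ (by positivity), ENNReal.ofReal_one, one_mul]

end scale

/-- the invariant measure on the punctured plane -/
noncomputable def mu : Measure ℂ :=
  (volume : Measure ℂ).withDensity (fun ζ => ENNReal.ofReal ((‖ζ‖ ^ 2)⁻¹))

theorem measurable_dens : Measurable (fun ζ : ℂ => ENNReal.ofReal ((‖ζ‖ ^ 2)⁻¹)) := by fun_prop

theorem lintegral_mu {f : ℂ → ℝ≥0∞} (hf : Measurable f) :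
    ∫⁻ ζ, f ζ ∂mu = ∫⁻ ζ, ENNReal.ofReal ((‖ζ‖ ^ 2)⁻¹) * f ζ := by
  unfold mu
  rw [lintegral_withDensity_eq_lintegral_mul _ measurable_dens hf]
  rfl

/-- the kernel -/
noncomputable def ker (z ζ : ℂ) : ℝ≥0∞ := ENNReal.ofReal (Real.sqrt (‖z‖ * ‖ζ‖) / ‖z - ζ‖)

theorem measurable_ker : Measurable (Function.uncurry ker) := by
  unfold ker Function.uncurry
  fun_prop

theorem ker_symm (z ζ : ℂ) : ker z ζ = ker ζ z := by
  unfold ker
  rw [mul_comm, norm_sub_rev]

theorem ker_scale {z : ℂ} (hz : z ≠ 0) (t : ℂ) : ker z (z • t) = ker 1 t := by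
  unfold ker
  have hn : 0 < ‖z‖ := norm_pos_iff.mpr hz
  have h1 : z - z • t = z * (1 - t) := by rw [smul_eq_mul]; ring
  rw [h1, norm_mul, smul_eq_mul, norm_mul, norm_one, one_mul]
  have h2 : ‖z‖ * (‖z‖ * ‖t‖) = ‖z‖ ^ 2 * ‖t‖ := by ring
  rw [h2, Real.sqrt_mul (by positivity), Real.sqrt_sq hn.le, mul_div_mul_left _ _ hn.ne']

/-- the constant -/
noncomputable def kc (c : ℝ) : ℝ≥0∞ := ∫⁻ t, ker 1 t ^ c ∂mu

theorem ker_int {c : ℝ} (hc : 0 < c) (z : ℂ) : ∫⁻ ζ, ker z ζ ^ c ∂mu ≤ kc c := by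
  by_cases hz : z = 0
  · subst hz
    have : ∀ ζ : ℂ, ker 0 ζ ^ c = 0 := by
      intro ζ
      unfold ker
      simp [hc]
    simp [this]
  · have hn : 0 < ‖z‖ := norm_pos_iff.mpr hz
    have hm : ∀ z, Measurable (fun ζ => ker z ζ ^ c) := fun z =>
      (measurable_ker.of_uncurry_left).pow_const c
    unfold kc
    rw [lintegral_mu (hm z), lintegral_mu (hm 1),
      lintegral_eq_csmul volume hz (f := fun ζ => ENNReal.ofReal ((‖ζ‖ ^ 2)⁻¹) * ker z ζ ^ c)
        (measurable_dens.mul (hm z)), Complex.finrank_real_complex]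
    have hm2 : Measurable (fun t : ℂ => ENNReal.ofReal ((‖z • t‖ ^ 2)⁻¹) * ker z (z • t) ^ c) :=
      (measurable_dens.mul (hm z)).comp (measurable_const_smul z)
    rw [← lintegral_const_mul _ hm2]
    apply le_of_eq
    apply lintegral_congr
    intro t
    rw [ker_scale hz, ← mul_assoc, ← ENNReal.ofReal_mul (by positivity)]
    congr 2
    rw [smul_eq_mul, norm_mul, mul_pow, mul_inv, ← mul_assoc, mul_inv_cancel₀ (by positivity),
      one_mul]

/-- integrability of powers near the origin -/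
theorem pow_int {s : ℝ} (hs : -2 < s) (r : ℝ) :
    ∫⁻ t : ℂ in ball 0 r, ENNReal.ofReal (‖t‖ ^ s) < ⊤ := by
  have h : IntegrableOn (fun t : ℂ => ‖t‖ ^ s) (ball 0 r) := by
    rcases le_or_gt r 0 with hr | hr
    · rw [ball_eq_empty.mpr hr]; exact integrableOn_empty
    have := (integrableOn_fun_norm_addHaar (volume : Measure ℂ) (f := fun y : ℝ => y ^ s)
      (r := r)).mpr ?_
    · exact this
    · have h1 := (intervalIntegral.integrableOn_Ioo_rpow_iff (s := s + 1) hr).mpr (by linarith)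
      refine h1.congr_fun ?_ measurableSet_Ioo
      intro y hy
      have hy0 : 0 < y := hy.1
      simp only [Complex.finrank_real_complex, Nat.add_one_sub_one, pow_one, smul_eq_mul]
      rw [Real.rpow_add hy0, Real.rpow_one, mul_comm]
  have h2 := h.2
  rw [hasFiniteIntegral_iff_enorm] at h2
  refine lt_of_le_of_lt (lintegral_mono fun t => ?_) h2
  exact Real.ofReal_le_enorm _

theorem kc_lt_top {c : ℝ} (hc0 : 0 < c) (hc : c < 2) : kc c < ⊤ := by
  have hm : Measurable (fun ζ => ker 1 ζ ^ c) := (measurable_ker.of_uncurry_left).pow_const c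
  unfold kc
  rw [lintegral_mu hm]
  have hpt : ∀ t : ℂ, ENNReal.ofReal ((‖t‖ ^ 2)⁻¹) * ker 1 t ^ c ≤
      (ball (0 : ℂ) 1).indicator (fun t => ENNReal.ofReal (2 ^ c) * ENNReal.ofReal (‖t‖ ^ (c / 2 - 2))) t +
      ENNReal.ofReal (2 ^ c * 2 ^ (c / 2 + 2)) * ENNReal.ofReal ((1 + ‖t‖) ^ (-(c / 2 + 2))) +
      (ball (1 : ℂ) 4).indicator (fun t => ENNReal.ofReal (4 * 2 ^ c) * ENNReal.ofReal (‖t - 1‖ ^ (-c))) t := by
    intro t
    have e1 : ker 1 t ^ c = ENNReal.ofReal ((Real.sqrt ‖t‖ / ‖1 - t‖) ^ c) := by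
      unfold ker
      rw [norm_one, one_mul, ENNReal.ofReal_rpow_of_nonneg (by positivity) hc0.le]
    rw [e1, ← ENNReal.ofReal_mul (by positivity)]
    by_cases ht0 : t = 0
    · subst ht0
      simp [hc0.ne']
    have ha : 0 < ‖t‖ := norm_pos_iff.mpr ht0
    set a := ‖t‖ with had
    have hsq : Real.sqrt a ^ c = a ^ (c / 2) := by
      rw [Real.sqrt_eq_rpow, ← Real.rpow_mul ha.le]; congr 1; ring
    rcases le_or_gt a (1 / 2) with h | h
    · -- near zero
      have hmem : t ∈ ball (0 : ℂ) 1 := by rw [mem_ball_zero_iff]; linarith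
      rw [indicator_of_mem hmem]
      refine le_trans ?_ (le_add_right (le_add_right le_rfl))
      rw [← ENNReal.ofReal_mul (by positivity)]
      apply ENNReal.ofReal_le_ofReal
      have h1 : 1 / 2 ≤ ‖1 - t‖ := by
        have := norm_sub_norm_le (1 : ℂ) t
        rw [norm_one] at this; linarith
      have h2 : Real.sqrt a / ‖1 - t‖ ≤ 2 * Real.sqrt a := by
        rw [div_le_iff₀ (by linarith)]
        nlinarith [Real.sqrt_nonneg a]
      calc (a ^ 2)⁻¹ * (Real.sqrt a / ‖1 - t‖) ^ c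
          ≤ (a ^ 2)⁻¹ * (2 * Real.sqrt a) ^ c := by gcongr
        _ = 2 ^ c * a ^ (c / 2 - 2) := by
            rw [Real.mul_rpow (by norm_num) (Real.sqrt_nonneg _), hsq, Real.rpow_sub ha]
            have : a ^ (2 : ℝ) = a ^ 2 := by exact_mod_cast Real.rpow_natCast a 2
            rw [this]; field_simp
    rcases le_or_gt 2 a with h' | h'
    · refine le_trans ?_ (le_add_right (le_add_left le_rfl))
      rw [← ENNReal.ofReal_mul (by positivity)]
      apply ENNReal.ofReal_le_ofReal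
      have h1 : a / 2 ≤ ‖1 - t‖ := by
        have := norm_sub_norm_le t (1 : ℂ)
        rw [norm_one, norm_sub_rev] at this; linarith
      have h2 : Real.sqrt a / ‖1 - t‖ ≤ 2 * (Real.sqrt a)⁻¹ := by
        have hs : 0 < Real.sqrt a := Real.sqrt_pos.mpr ha
        rw [div_le_iff₀ (by linarith)]
        calc Real.sqrt a = 2 * (Real.sqrt a)⁻¹ * (a / 2) := by
              have := Real.mul_self_sqrt ha.le
              field_simp
              nlinarith
          _ ≤ 2 * (Real.sqrt a)⁻¹ * ‖1 - t‖ := by gcongr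
      calc (a ^ 2)⁻¹ * (Real.sqrt a / ‖1 - t‖) ^ c
          ≤ (a ^ 2)⁻¹ * (2 * (Real.sqrt a)⁻¹) ^ c := by gcongr
        _ = 2 ^ c * a ^ (-(c / 2 + 2)) := by
            rw [Real.mul_rpow (by norm_num) (by positivity), Real.inv_rpow (Real.sqrt_nonneg _),
              hsq, Real.rpow_neg ha.le, Real.rpow_add ha]
            have : a ^ (2 : ℝ) = a ^ 2 := by exact_mod_cast Real.rpow_natCast a 2
            rw [this]; field_simp
        _ ≤ 2 ^ c * (2 ^ (c / 2 + 2) * (1 + a) ^ (-(c / 2 + 2))) := by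
            gcongr
            have h3 : (1 + a) ≤ 2 * a := by linarith
            have h4 : (2 * a) ^ (-(c / 2 + 2)) ≤ (1 + a) ^ (-(c / 2 + 2)) :=
              Real.rpow_le_rpow_of_nonpos (by linarith) h3 (by linarith)
            calc a ^ (-(c / 2 + 2)) = 2 ^ (c / 2 + 2) * (2 * a) ^ (-(c / 2 + 2)) := by
                  rw [Real.mul_rpow (by norm_num) ha.le, ← mul_assoc, ← Real.rpow_add (by norm_num)]
                  simp
              _ ≤ _ := by gcongr
        _ = 2 ^ c * 2 ^ (c / 2 + 2) * (1 + a) ^ (-(c / 2 + 2)) := by ring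
    · have hmem : t ∈ ball (1 : ℂ) 4 := by
        rw [mem_ball, dist_eq_norm]
        have := norm_sub_le t (1 : ℂ)
        rw [norm_one] at this; linarith
      rw [indicator_of_mem hmem]
      refine le_trans ?_ (le_add_left le_rfl)
      rw [← ENNReal.ofReal_mul (by positivity)]
      apply ENNReal.ofReal_le_ofReal
      have h1 : (a ^ 2)⁻¹ ≤ 4 := by
        rw [inv_le_comm₀ (by positivity) (by norm_num)]
        nlinarith
      have h2 : Real.sqrt a ≤ 2 := by
        rw [Real.sqrt_le_left (by norm_num)]; linarith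
      rw [norm_sub_rev t 1]
      rcases eq_or_lt_of_le (norm_nonneg (1 - t)) with h0 | h0
      · rw [← h0, div_zero, Real.zero_rpow hc0.ne', mul_zero]
        positivity
      calc (a ^ 2)⁻¹ * (Real.sqrt a / ‖1 - t‖) ^ c ≤ 4 * (2 / ‖1 - t‖) ^ c := by gcongr
        _ = 4 * 2 ^ c * ‖1 - t‖ ^ (-c) := by
            rw [Real.div_rpow (by norm_num) h0.le, Real.rpow_neg h0.le]
            ring
  refine lt_of_le_of_lt (lintegral_mono hpt) ?_
  set fA : ℂ → ℝ≥0∞ := fun t => ENNReal.ofReal (2 ^ c) * ENNReal.ofReal (‖t‖ ^ (c / 2 - 2)) with hfA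
  set fB : ℂ → ℝ≥0∞ := fun t => ENNReal.ofReal (2 ^ c * 2 ^ (c / 2 + 2)) *
      ENNReal.ofReal ((1 + ‖t‖) ^ (-(c / 2 + 2))) with hfB
  set fC : ℂ → ℝ≥0∞ := fun t => ENNReal.ofReal (4 * 2 ^ c) * ENNReal.ofReal (‖t - 1‖ ^ (-c))
    with hfC
  have m1 : Measurable fA := by simp only [hfA]; fun_prop
  have m2 : Measurable fB := by simp only [hfB]; fun_prop
  have hadd : ∫⁻ t, ((ball (0 : ℂ) 1).indicator fA t + fB t + (ball (1 : ℂ) 4).indicator fC t) =
      ((∫⁻ t in ball (0 : ℂ) 1, fA t) + ∫⁻ t, fB t) + ∫⁻ t in ball (1 : ℂ) 4, fC t := by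
    rw [lintegral_add_left (f := fun t => (ball (0 : ℂ) 1).indicator fA t + fB t)
      ((m1.indicator measurableSet_ball).add m2),
      lintegral_add_left (m1.indicator measurableSet_ball), lintegral_indicator measurableSet_ball,
      lintegral_indicator measurableSet_ball]
  rw [hadd]
  simp only [hfA, hfB, hfC]
  rw [lintegral_const_mul _ (by fun_prop),
    lintegral_const_mul _ (by fun_prop), lintegral_const_mul _ (by fun_prop)]
  refine ENNReal.add_lt_top.mpr ⟨ENNReal.add_lt_top.mpr ⟨?_, ?_⟩, ?_⟩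
  · exact ENNReal.mul_lt_top ENNReal.ofReal_lt_top (pow_int (by linarith) 1)
  · apply ENNReal.mul_lt_top ENNReal.ofReal_lt_top
    apply finite_integral_one_add_norm
    rw [Complex.finrank_real_complex]
    push_cast; linarith
  · apply ENNReal.mul_lt_top ENNReal.ofReal_lt_top
    have h1 : ∫⁻ t : ℂ in ball 1 4, ENNReal.ofReal (‖t - 1‖ ^ (-c)) =
        ∫⁻ t : ℂ in ball 0 4, ENNReal.ofReal (‖t‖ ^ (-c)) := by
      have hmp : MeasurePreserving (fun t : ℂ => t - 1) volume volume :=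
        measurePreserving_sub_right volume 1
      have := hmp.setLIntegral_comp_preimage (s := ball (0 : ℂ) 4) measurableSet_ball
        (f := fun t : ℂ => ENNReal.ofReal (‖t‖ ^ (-c))) (by fun_prop)
      rw [← this]
      congr 2
      ext t
      simp [dist_eq_norm]
    rw [h1]
    exact pow_int (by linarith) 4

end Pool.Agent.Q171.SUC
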