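import Pool.Agent.Q171.SUC.Young
import Pool.Agent.Q171.SUC.Scale

set_option autoImplicit false

open MeasureTheory Set Filter Topology Metric
open scoped ENNReal

namespace Pool.Agent.Q171.SUC

/-- the weight -/
noncomputable def wt (κ : ℝ) (ζ : ℂ) : ℝ≥0∞ := ENNReal.ofReal (‖ζ‖ ^ (-κ))

theorem measurable_wt (κ : ℝ) : Measurable (wt κ) := by unfold wt; fun_prop

/-- the plane kernel -/
noncomputable def pk (N : ℕ) (z ζ : ℂ) : ℝ≥0∞ :=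
  ENNReal.ofReal (‖z‖ ^ N / (‖ζ‖ ^ N * ‖z - ζ‖))

theorem measurable_pk (N : ℕ) : Measurable (Function.uncurry (pk N)) := by
  unfold pk Function.uncurry
  fun_prop

theorem ae_mu_of_ae {P : ℂ → Prop} (h : ∀ᵐ z, P z) : ∀ᵐ z ∂mu, P z :=
  (withDensity_absolutelyContinuous _ _).ae_le h

instance : SFinite mu := by unfold mu; infer_instance

theorem kernel_conv (N : ℕ) {z : ℂ} (hz : z ≠ 0) {g : ℂ → ℝ≥0∞} (hg : Measurable g) :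
    wt (N - 1 / 2) z * ∫⁻ ζ, pk N z ζ * g ζ =
      ∫⁻ ζ, ker z ζ * (wt (N - 1 / 2) ζ * (‖ζ‖ₑ * g ζ)) ∂mu := by
  have hm : Measurable (fun ζ => ker z ζ * (wt (N - 1 / 2) ζ * (‖ζ‖ₑ * g ζ))) :=
    (measurable_ker.of_uncurry_left).mul ((measurable_wt _).mul (measurable_enorm.mul hg))
  have hm2 : Measurable (fun ζ => pk N z ζ * g ζ) := (measurable_pk N).of_uncurry_left.mul hg
  rw [lintegral_mu hm, ← lintegral_const_mul _ hm2]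
  apply lintegral_congr_ae
  have h0 : ∀ᵐ ζ : ℂ, ζ ≠ 0 := by
    rw [ae_iff]
    simp
  filter_upwards [h0] with ζ hζ
  have hzn : 0 < ‖z‖ := norm_pos_iff.mpr hz
  have hζn : 0 < ‖ζ‖ := norm_pos_iff.mpr hζ
  rw [← mul_assoc, ← mul_assoc, ← mul_assoc, ← mul_assoc]
  congr 1
  unfold wt pk ker
  rw [← ofReal_norm, ← ENNReal.ofReal_mul (by positivity), ← ENNReal.ofReal_mul (by positivity),
    ← ENNReal.ofReal_mul (by positivity), ← ENNReal.ofReal_mul (by positivity)]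
  congr 1
  have e1 : ‖z‖ ^ (-((N : ℝ) - 1 / 2)) * ‖z‖ ^ N = Real.sqrt ‖z‖ := by
    rw [← Real.rpow_natCast ‖z‖ N, ← Real.rpow_add hzn, Real.sqrt_eq_rpow]
    congr 1; ring
  have e2 : ‖ζ‖ ^ (-((N : ℝ) - 1 / 2)) * Real.sqrt ‖ζ‖ = ‖ζ‖ / ‖ζ‖ ^ N := by
    rw [← Real.rpow_natCast ‖ζ‖ N, Real.sqrt_eq_rpow, ← Real.rpow_add hζn, eq_div_iff
      (Real.rpow_pos_of_pos hζn _).ne', ← Real.rpow_add hζn]
    conv_rhs => rw [← Real.rpow_one ‖ζ‖]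
    congr 1; ring
  rw [Real.sqrt_mul hzn.le]
  calc ‖z‖ ^ (-((N : ℝ) - 1 / 2)) * (‖z‖ ^ N / (‖ζ‖ ^ N * ‖z - ζ‖))
      = (‖z‖ ^ (-((N : ℝ) - 1 / 2)) * ‖z‖ ^ N) / (‖ζ‖ ^ N * ‖z - ζ‖) := by ring
    _ = Real.sqrt ‖z‖ / (‖ζ‖ ^ N * ‖z - ζ‖) := by rw [e1]
    _ = (‖ζ‖ ^ 2)⁻¹ * (Real.sqrt ‖z‖ / ‖z - ζ‖) * (‖ζ‖ / ‖ζ‖ ^ N) * ‖ζ‖ := by
        rcases eq_or_ne (‖z - ζ‖) 0 with h | h
        · rw [h]; simp
        · field_simp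
    _ = (‖ζ‖ ^ 2)⁻¹ * (Real.sqrt ‖z‖ / ‖z - ζ‖) *
          (‖ζ‖ ^ (-((N : ℝ) - 1 / 2)) * Real.sqrt ‖ζ‖) * ‖ζ‖ := by rw [e2]
    _ = _ := by ring

/-- the Carleman inequality on the punctured plane -/
theorem carleman {p q c : ℝ} (hc : 0 < c) (hp : 1 ≤ p) (hpq : p < q)
    (hcpq : 1 / c = 1 / q + (1 - 1 / p)) {f g : ℂ → ℝ≥0∞} (hg : Measurable g) (N : ℕ)
    (h : ∀ᵐ z, f z ≤ ∫⁻ ζ, pk N z ζ * g ζ) :
    (∫⁻ z, (wt (N - 1 / 2) z * f z) ^ q ∂mu) ^ (1 / q) ≤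
      kc c ^ (1 / c) * (∫⁻ ζ, (wt (N - 1 / 2) ζ * (‖ζ‖ₑ * g ζ)) ^ p ∂mu) ^ (1 / p) := by
  have hq0 : 0 < q := by linarith
  have hk : Measurable (fun ζ => wt (N - 1 / 2) ζ * (‖ζ‖ₑ * g ζ)) :=
    (measurable_wt _).mul (measurable_enorm.mul hg)
  have hy := young (μ := mu) measurable_ker hc (ker_int hc)
    (fun ζ => by simp_rw [fun z => ker_symm z ζ]; exact ker_int hc ζ) hp hpq hcpq hk
  refine le_trans ?_ hy
  have h0 : ∀ᵐ ζ : ℂ, ζ ≠ 0 := by rw [ae_iff]; simp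
  gcongr ?_ ^ (1 / q)
  apply lintegral_mono_ae
  filter_upwards [ae_mu_of_ae h, ae_mu_of_ae h0] with z hz hz0
  rw [← kernel_conv N hz0 hg]
  gcongr

end Pool.Agent.Q171.SUC
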