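import Mathlib

set_option autoImplicit false

open MeasureTheory Set Filter Topology Metric
open scoped ENNReal NNReal ContDiff

namespace Pool.Agent.Q171.SUC

section moll

variable {E : Type*} [NormedAddCommGroup E] [NormedSpace ℝ E] [FiniteDimensional ℝ E]
  [MeasurableSpace E] [BorelSpace E] {μ : Measure E} [μ.IsAddHaarMeasure]
  {F : Type*} [NormedAddCommGroup F] [NormedSpace ℝ F] [FiniteDimensional ℝ F]
  [MeasurableSpace F] [BorelSpace F]

/-- mollification -/
noncomputable def moll (μ : Measure E) [μ.IsAddHaarMeasure] (ψ : ContDiffBump (0 : E))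
    (u : E → F) (x : E) : F := ∫ y, ψ.normed μ (x - y) • u y ∂μ

theorem moll_integrable {u : E → F} (hu : Integrable u μ) (ψ : ContDiffBump (0 : E))
    (x : E) : Integrable (fun y => ψ.normed μ (x - y) • u y) μ := by
  have hcont : Continuous fun y => ψ.normed μ (x - y) :=
    ψ.continuous_normed.comp (continuous_const.sub continuous_id)
  obtain ⟨C, hC⟩ := ψ.hasCompactSupport_normed (μ := μ) |>.exists_bound_of_continuous
    ψ.continuous_normed
  exact hu.bdd_smul C hcont.aestronglyMeasurable (Eventually.of_forall fun y => hC (x - y))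

theorem moll_contr {u : E → F} (hu : Integrable u μ) (ψ : ContDiffBump (0 : E)) :
    ∫⁻ x, ‖moll μ ψ u x‖ₑ ∂μ ≤ ∫⁻ y, ‖u y‖ₑ ∂μ := by
  unfold moll
  have hψ : ∫⁻ x, ‖ψ.normed μ x‖ₑ ∂μ = 1 := by
    have h1 : ∀ x, ‖ψ.normed μ x‖ₑ = ENNReal.ofReal (ψ.normed μ x) := by
      intro x
      rw [Real.enorm_of_nonneg (ψ.nonneg_normed x)]
    simp_rw [h1]
    rw [← ofReal_integral_eq_lintegral_ofReal ψ.integrable_normed
      (Eventually.of_forall ψ.nonneg_normed), ψ.integral_normed, ENNReal.ofReal_one]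
  calc ∫⁻ x, ‖∫ y, ψ.normed μ (x - y) • u y ∂μ‖ₑ ∂μ
      ≤ ∫⁻ x, ∫⁻ y, ‖ψ.normed μ (x - y) • u y‖ₑ ∂μ ∂μ :=
        lintegral_mono fun x => enorm_integral_le_lintegral_enorm _
    _ = ∫⁻ y, ∫⁻ x, ‖ψ.normed μ (x - y) • u y‖ₑ ∂μ ∂μ := by
        apply lintegral_lintegral_swap
        have h1 : AEStronglyMeasurable (fun p : E × E => u p.2) (μ.prod μ) :=
          hu.aestronglyMeasurable.comp_snd
        have h2 : AEStronglyMeasurable (fun p : E × E => ψ.normed μ (p.1 - p.2)) (μ.prod μ) :=
          (ψ.continuous_normed.comp (continuous_fst.sub continuous_snd)).aestronglyMeasurable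
        exact (h2.smul h1).enorm
    _ = ∫⁻ y, ‖u y‖ₑ ∂μ := by
        congr 1
        funext y
        have h1 : ∀ x, ‖ψ.normed μ (x - y) • u y‖ₑ = ‖ψ.normed μ (x - y)‖ₑ * ‖u y‖ₑ :=
          fun x => enorm_smul _ _
        simp_rw [h1]
        rw [lintegral_mul_const'' _ (by
          exact (ψ.continuous_normed.comp
            (continuous_id.sub continuous_const)).aestronglyMeasurable.enorm)]
        rw [lintegral_sub_right_eq_self (fun x => ‖ψ.normed μ x‖ₑ) y, hψ, one_mul]

theorem moll_conv (u : E → F) (ψ : ContDiffBump (0 : E)) (x : E) :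
    moll μ ψ u x = (MeasureTheory.convolution (ψ.normed μ) u (ContinuousLinearMap.lsmul ℝ ℝ) μ) x := by
  unfold moll
  rw [MeasureTheory.convolution_def]
  rw [← integral_sub_left_eq_self (fun t => ψ.normed μ (x - t) • u t) μ x]
  congr 1
  funext t
  simp

theorem moll_continuous {u : E → F} (hu : Integrable u μ) (ψ : ContDiffBump (0 : E)) :
    Continuous (moll μ ψ u) := by
  have : moll μ ψ u = (MeasureTheory.convolution (ψ.normed μ) u (ContinuousLinearMap.lsmul ℝ ℝ) μ) := by
    funext x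
    exact moll_conv u ψ x
  rw [this]
  exact ψ.hasCompactSupport_normed.continuous_convolution_left _ ψ.continuous_normed
    hu.locallyIntegrable

theorem moll_cc {v : E → F} (hv : Continuous v) (hvc : HasCompactSupport v)
    (φ : ℕ → ContDiffBump (0 : E)) (hφ : Tendsto (fun k => (φ k).rOut) atTop (𝓝 0)) :
    Tendsto (fun k => ∫⁻ x, ‖moll μ (φ k) v x - v x‖ₑ ∂μ) atTop (𝓝 0) := by
  rw [ENNReal.tendsto_nhds_zero]
  intro ε hε
  set K : Set E := cthickening 1 (tsupport v) with hK
  have hKc : IsCompact K := IsCompact.cthickening hvc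
  have hKm : μ K < ⊤ := hKc.measure_lt_top
  obtain ⟨δ', hδ', hδε⟩ : ∃ δ' : ℝ, 0 < δ' ∧ ENNReal.ofReal δ' * μ K ≤ ε := by
    rcases eq_or_ne ε ⊤ with h | h
    · exact ⟨1, one_pos, by rw [h]; exact le_top⟩
    · refine ⟨ε.toReal / ((μ K).toReal + 1), ?_, ?_⟩
      · apply div_pos (ENNReal.toReal_pos hε.ne' h)
        positivity
      · rw [← ENNReal.ofReal_toReal hKm.ne, ← ENNReal.ofReal_mul (by positivity)]
        conv_rhs => rw [← ENNReal.ofReal_toReal h]
        apply ENNReal.ofReal_le_ofReal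
        rw [ENNReal.toReal_ofReal ENNReal.toReal_nonneg]
        rw [div_mul_eq_mul_div, div_le_iff₀ (by positivity)]
        apply mul_le_mul_of_nonneg_left _ ENNReal.toReal_nonneg
        linarith
  have huc : UniformContinuous v := hvc.uniformContinuous_of_continuous hv
  obtain ⟨δ, hδ, hδv⟩ := Metric.uniformContinuous_iff.1 huc δ' hδ'
  have hev : ∀ᶠ k in atTop, (φ k).rOut < min δ 1 :=
    (tendsto_order.1 hφ).2 _ (lt_min hδ one_pos)
  filter_upwards [hev] with k hk
  have hpt : ∀ x, ‖moll μ (φ k) v x - v x‖ ≤ δ' := by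
    intro x
    rw [moll_conv, ← dist_eq_norm]
    apply ContDiffBump.dist_normed_convolution_le hv.aestronglyMeasurable
    intro y hy
    apply le_of_lt
    apply hδv
    rw [mem_ball] at hy
    exact hy.trans (hk.trans_le (min_le_left _ _))
  have hout : ∀ x, x ∉ K → moll μ (φ k) v x - v x = 0 := by
    intro x hx
    have hvx : v x = 0 := by
      by_contra h
      exact hx (self_subset_cthickening _ (subset_tsupport v h))
    have hint : ∀ y, (φ k).normed μ (x - y) • v y = 0 := by
      intro y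
      by_contra h
      rw [smul_eq_zero, not_or] at h
      obtain ⟨h1, h2⟩ := h
      have h3 : x - y ∈ ball (0 : E) (φ k).rOut := by
        rw [← (φ k).support_normed_eq (μ := μ)]
        exact h1
      apply hx
      apply mem_cthickening_of_dist_le x y 1 _ (subset_tsupport v h2)
      rw [mem_ball, dist_zero_right] at h3
      rw [dist_eq_norm]
      exact (h3.trans (hk.trans_le (min_le_right _ _))).le
    unfold moll
    rw [hvx, sub_zero]
    simp_rw [hint]
    simp
  calc ∫⁻ x, ‖moll μ (φ k) v x - v x‖ₑ ∂μ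
      ≤ ∫⁻ x, K.indicator (fun _ => ENNReal.ofReal δ') x ∂μ := by
        apply lintegral_mono
        intro x
        simp only
        by_cases hx : x ∈ K
        · rw [indicator_of_mem hx, ← ofReal_norm]
          exact ENNReal.ofReal_le_ofReal (hpt x)
        · rw [hout x hx]
          simp
    _ = ENNReal.ofReal δ' * μ K := by
        rw [lintegral_indicator_const hKc.measurableSet]
    _ ≤ ε := hδε

theorem moll_l1 {H : E → F} (hH : Integrable H μ)
    (φ : ℕ → ContDiffBump (0 : E)) (hφ : Tendsto (fun k => (φ k).rOut) atTop (𝓝 0)) :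
    Tendsto (fun k => ∫⁻ x, ‖moll μ (φ k) H x - H x‖ₑ ∂μ) atTop (𝓝 0) := by
  rw [ENNReal.tendsto_nhds_zero]
  intro ε hε
  have hε3 : ε / 3 ≠ 0 := by
    rw [Ne, ENNReal.div_eq_zero_iff]
    push Not
    exact ⟨hε.ne', by norm_num⟩
  obtain ⟨v, hvc, hvε, hv, hvi⟩ := hH.exists_hasCompactSupport_lintegral_sub_le hε3
  have hev := (ENNReal.tendsto_nhds_zero.1 (moll_cc (μ := μ) hv hvc φ hφ)) (ε / 3)
    (pos_iff_ne_zero.2 hε3)
  filter_upwards [hev] with k hk
  have hlin : ∀ x, moll μ (φ k) H x - H x =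
      moll μ (φ k) (fun y => H y - v y) x + ((moll μ (φ k) v x - v x) + (v x - H x)) := by
    intro x
    have : moll μ (φ k) (fun y => H y - v y) x = moll μ (φ k) H x - moll μ (φ k) v x := by
      unfold moll
      rw [← integral_sub (moll_integrable hH (φ k) x) (moll_integrable hvi (φ k) x)]
      congr 1
      funext y
      rw [smul_sub]
    rw [this]
    abel
  have hmeas : ∀ u : E → F, Integrable u μ → Measurable (moll μ (φ k) u) :=
    fun u hu => (moll_continuous hu (φ k)).measurable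
  calc ∫⁻ x, ‖moll μ (φ k) H x - H x‖ₑ ∂μ
      ≤ ∫⁻ x, (‖moll μ (φ k) (fun y => H y - v y) x‖ₑ +
        (‖moll μ (φ k) v x - v x‖ₑ + ‖v x - H x‖ₑ)) ∂μ := by
        apply lintegral_mono
        intro x
        simp only
        rw [hlin x]
        refine (enorm_add_le _ _).trans ?_
        gcongr
        exact enorm_add_le _ _
    _ = (∫⁻ x, ‖moll μ (φ k) (fun y => H y - v y) x‖ₑ ∂μ) +
        ((∫⁻ x, ‖moll μ (φ k) v x - v x‖ₑ ∂μ) + (∫⁻ x, ‖v x - H x‖ₑ ∂μ)) := by
        rw [lintegral_add_left (hmeas (fun y => H y - v y) (hH.sub hvi)).enorm,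
          lintegral_add_left (f := fun x => ‖moll μ (φ k) v x - v x‖ₑ)
            ((hmeas _ hvi).sub hv.measurable).enorm]
    _ ≤ ε / 3 + (ε / 3 + ε / 3) := by
        refine add_le_add ?_ (add_le_add hk ?_)
        · refine (moll_contr (u := fun y => H y - v y) (hH.sub hvi) (φ k)).trans ?_
          exact hvε
        · refine le_trans (le_of_eq ?_) hvε
          congr 1
          funext x
          rw [enorm_sub_rev]
    _ = ε := by
        rw [← add_assoc]
        exact ENNReal.add_thirds ε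

/-- weak derivative in the direction `v` on all of space -/
def WD (μ : Measure E) (u g : E → F) (v : E) : Prop :=
  ∀ φ : E → ℝ, ContDiff ℝ ∞ φ → HasCompactSupport φ →
    ∫ x, fderiv ℝ φ x v • u x ∂μ = - ∫ x, φ x • g x ∂μ

theorem moll_contDiff {u : E → F} (hu : Integrable u μ) (ψ : ContDiffBump (0 : E)) :
    ContDiff ℝ ∞ (moll μ ψ u) := by
  have : moll μ ψ u = (MeasureTheory.convolution (ψ.normed μ) u (ContinuousLinearMap.lsmul ℝ ℝ) μ) := by
    funext x
    exact moll_conv u ψ x
  rw [this]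
  exact ψ.hasCompactSupport_normed.contDiff_convolution_left _ ψ.contDiff_normed
    hu.locallyIntegrable

theorem moll_fderiv {u g : E → F} (hu : Integrable u μ) {v : E}
    (h : WD μ u g v) (ψ : ContDiffBump (0 : E)) (x : E) :
    fderiv ℝ (moll μ ψ u) x v = moll μ ψ g x := by
  have e : moll μ ψ u = (MeasureTheory.convolution (ψ.normed μ) u (ContinuousLinearMap.lsmul ℝ ℝ) μ) := by
    funext x
    exact moll_conv u ψ x
  have hd := ψ.hasCompactSupport_normed.hasFDerivAt_convolution_left
    (ContinuousLinearMap.lsmul ℝ ℝ : ℝ →L[ℝ] F →L[ℝ] F)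
    (ψ.contDiff_normed (μ := μ) (n := 1)) hu.locallyIntegrable x
  rw [e, hd.fderiv]
  have hcomp : ContDiff ℝ ∞ (fun y => ψ.normed μ (x - y)) :=
    ψ.contDiff_normed.comp (contDiff_const.sub contDiff_id)
  have hcs : HasCompactSupport (fun y => ψ.normed μ (x - y)) := by
    have := ψ.hasCompactSupport_normed (μ := μ)
    exact this.comp_homeomorph (Homeomorph.subLeft x)
  have hw := h _ hcomp hcs
  have hfd : ∀ y, fderiv ℝ (fun y => ψ.normed μ (x - y)) y v =
      - fderiv ℝ (ψ.normed μ) (x - y) v := by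
    intro y
    have h1 : HasFDerivAt (ψ.normed μ) (fderiv ℝ (ψ.normed μ) (x - y)) (x - y) :=
      ((ψ.contDiff_normed (μ := μ) (n := 1)).differentiable (by simp) _).hasFDerivAt
    have h2 : HasFDerivAt (fun y : E => x - y) (-(ContinuousLinearMap.id ℝ E)) y :=
      (hasFDerivAt_id y).const_sub x
    have h3 := h1.comp y h2
    have h4 : fderiv ℝ (fun y => ψ.normed μ (x - y)) y =
        (fderiv ℝ (ψ.normed μ) (x - y)).comp (-(ContinuousLinearMap.id ℝ E)) := h3.fderiv
    rw [h4]
    simp
  have hint : Integrable (fun t => (ContinuousLinearMap.precompL E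
      (ContinuousLinearMap.lsmul ℝ ℝ : ℝ →L[ℝ] F →L[ℝ] F) (fderiv ℝ (ψ.normed μ) t)) (u (x - t))) μ := by
    have := (ψ.hasCompactSupport_normed (μ := μ)).fderiv ℝ
    exact (this.convolutionExists_left (ContinuousLinearMap.precompL E
      (ContinuousLinearMap.lsmul ℝ ℝ : ℝ →L[ℝ] F →L[ℝ] F))
      ((ψ.contDiff_normed (μ := μ) (n := 1)).continuous_fderiv (by simp)) hu.locallyIntegrable) x
  rw [MeasureTheory.convolution_def, ContinuousLinearMap.integral_apply hint]
  rw [← integral_sub_left_eq_self (fun t => ((ContinuousLinearMap.precompL E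
      (ContinuousLinearMap.lsmul ℝ ℝ : ℝ →L[ℝ] F →L[ℝ] F) (fderiv ℝ (ψ.normed μ) t)) (u (x - t))) v) μ x]
  have : ∀ t, ((ContinuousLinearMap.precompL E
      (ContinuousLinearMap.lsmul ℝ ℝ : ℝ →L[ℝ] F →L[ℝ] F)
      (fderiv ℝ (ψ.normed μ) (x - t))) (u (x - (x - t)))) v =
      fderiv ℝ (ψ.normed μ) (x - t) v • u t := by
    intro t
    rw [ContinuousLinearMap.precompL_apply, ContinuousLinearMap.lsmul_apply, sub_sub_cancel]
  simp_rw [this]
  unfold moll
  simp_rw [hfd, neg_smul, integral_neg] at hw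
  exact neg_injective hw

end moll

end Pool.Agent.Q171.SUC
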