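import Pool.Agent.Q171.SUC.Lim
import Pool.Agent.Q171.SUC.Moll

set_option autoImplicit false

open MeasureTheory Set Filter Topology Metric
open scoped ENNReal ContDiff ComplexConjugate

namespace Pool.Agent.Q171.SUC

theorem liminf_zero_of_le {x y : ℕ → ℝ≥0∞} {C : ℝ≥0∞} (hC : C ≠ ⊤) (h : ∀ k, y k ≤ C * x k)
    (hx : liminf x atTop = 0) : liminf y atTop = 0 := by
  refine le_antisymm ?_ bot_le
  refine le_of_forall_gt_imp_ge_of_dense fun δ hδ => ?_
  rcases eq_or_ne C 0 with hc | hc
  · have h2 : y = fun _ => 0 := by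
      funext k
      have := h k
      rw [hc, zero_mul] at this
      exact le_antisymm this bot_le
    rw [h2, liminf_const]; exact bot_le
  · have hδ' : (0 : ℝ≥0∞) < δ / C := ENNReal.div_pos hδ.ne' hC
    have hfreq := frequently_lt_of_liminf_lt (by isBoundedDefault) (hx.trans_lt hδ')
    apply liminf_le_of_frequently_le'
    refine hfreq.mono (fun k hk => ?_)
    calc y k ≤ C * (δ / C) := (h k).trans (by gcongr)
      _ = δ := ENNReal.mul_div_cancel hc hC

section abar

variable {E F : Type*} [NormedAddCommGroup E] [NormedSpace ℂ E] [NormedAddCommGroup F]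
  [NormedSpace ℂ F]

/-- the conjugate-linear part of a real linear map -/
noncomputable def abar (L : E →L[ℝ] F) (v : E) : F :=
  (1 / 2 : ℂ) • (L v + Complex.I • L (Complex.I • v))

theorem abar_smul (L : E →L[ℝ] F) (c : ℂ) (v : E) : abar L (c • v) = conj c • abar L v := by
  unfold abar
  have h1 : L (c • v) = (c.re : ℂ) • L v + (c.im : ℂ) • L (Complex.I • v) := by
    have : c • v = c.re • v + c.im • (Complex.I • v) := by
      conv_lhs => rw [← Complex.re_add_im c]
      rw [add_smul, mul_smul]
      simp only [Complex.coe_smul]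
    rw [this, map_add, L.map_smul c.re, L.map_smul c.im]
    simp only [Complex.coe_smul]
  have h2 : L (Complex.I • c • v) = (c.re : ℂ) • L (Complex.I • v) - (c.im : ℂ) • L v := by
    have : Complex.I • c • v = c.re • (Complex.I • v) - c.im • v := by
      conv_lhs => rw [← Complex.re_add_im c]
      rw [add_smul, mul_smul, smul_add]
      have : Complex.I • ((c.im : ℂ) • Complex.I • v) = -((c.im : ℂ) • v) := by
        rw [smul_smul, smul_smul, ← neg_smul]
        congr 1
        calc Complex.I * c.im * Complex.I = c.im * (Complex.I * Complex.I) := by ring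
          _ = -c.im := by rw [Complex.I_mul_I]; ring
      rw [this, smul_comm, sub_eq_add_neg]
      simp only [Complex.coe_smul]
    rw [this, map_sub, L.map_smul c.re, L.map_smul c.im]
    simp only [Complex.coe_smul]
  rw [h1, h2]
  have hc : conj c = (c.re : ℂ) - (c.im : ℂ) * Complex.I := by
    apply Complex.ext <;> simp
  rw [hc]
  have hI : Complex.I * Complex.I = -1 := Complex.I_mul_I
  simp only [smul_add, smul_sub, sub_smul, smul_smul]
  have e1 : Complex.I * (c.im : ℂ) = (c.im : ℂ) * Complex.I := mul_comm _ _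
  match_scalars
  · ring
  · linear_combination ((1 / 2 : ℂ) * c.im) * hI

theorem abar_add (L : E →L[ℝ] F) (v w : E) : abar L (v + w) = abar L v + abar L w := by
  unfold abar
  rw [smul_add Complex.I v w, map_add, map_add]
  module

theorem abar_sum {ι : Type*} (s : Finset ι) (L : E →L[ℝ] F) (v : ι → E) :
    abar L (∑ i ∈ s, v i) = ∑ i ∈ s, abar L (v i) := by
  classical
  induction s using Finset.induction_on with
  | empty => simp [abar]
  | insert a s ha ih => rw [Finset.sum_insert ha, Finset.sum_insert ha, abar_add, ih]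

theorem db_line {u : E → F} (hu : ContDiff ℝ ∞ u) (θ : E) (ζ : ℂ) :
    db (fun ζ : ℂ => u (ζ • θ)) ζ = abar (fderiv ℝ u (ζ • θ)) θ := by
  have h1 : HasFDerivAt u (fderiv ℝ u (ζ • θ)) (ζ • θ) :=
    (hu.differentiable (by simp) _).hasFDerivAt
  have h2 : HasFDerivAt (fun ζ : ℂ => ζ • θ)
      ((ContinuousLinearMap.toSpanSingleton ℂ θ).restrictScalars ℝ) ζ :=
    ((ContinuousLinearMap.toSpanSingleton ℂ θ).restrictScalars ℝ).hasFDerivAt
  have h3 := h1.comp ζ h2
  have h4 : fderiv ℝ (fun ζ : ℂ => u (ζ • θ)) ζ = (fderiv ℝ u (ζ • θ)).comp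
      ((ContinuousLinearMap.toSpanSingleton ℂ θ).restrictScalars ℝ) := h3.fderiv
  unfold db abar
  rw [h4]
  simp [ContinuousLinearMap.toSpanSingleton_apply]

end abar

end Pool.Agent.Q171.SUC
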