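import Pool.Agent.Q171.SUC.Local

set_option autoImplicit false

open MeasureTheory Set Filter Topology Metric
open scoped ENNReal ContDiff ComplexConjugate

namespace Pool.Agent.Q171.SUC

variable {n m : ℕ}

theorem setLIntegral_trans (f : Cn n → ℝ≥0∞) (z0 : Cn n) (r : ℝ) :
    ∫⁻ x in ball (0 : Cn n) r, f (x + z0) = ∫⁻ z in ball z0 r, f z := by
  rw [← lintegral_indicator measurableSet_ball, ← lintegral_indicator measurableSet_ball,
    ← lintegral_add_right_eq_self ((ball z0 r).indicator f) z0]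
  congr 1
  funext x
  by_cases hx : x ∈ ball (0 : Cn n) r
  · rw [indicator_of_mem hx, indicator_of_mem]
    rw [mem_ball, dist_eq_norm, add_sub_cancel_right]
    rwa [mem_ball, dist_zero_right] at hx
  · rw [indicator_of_notMem hx, indicator_of_notMem]
    intro hc
    apply hx
    rw [mem_ball, dist_eq_norm, add_sub_cancel_right] at hc
    rwa [mem_ball, dist_zero_right]

theorem rad_bound (gx gy : Fin n → Cn n → Cn m) (z : Cn n) :
    ‖rad gx gy z‖ ≤ ‖z‖ * Real.sqrt (∑ j, ‖(1 / 2 : ℂ) • (gx j z + Complex.I • gy j z)‖ ^ 2) := by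
  unfold rad
  refine (norm_sum_le _ _).trans ?_
  have h1 : ‖z‖ = Real.sqrt (∑ j, ‖z j‖ ^ 2) := EuclideanSpace.norm_eq z
  rw [h1, ← Real.sqrt_mul (by positivity)]
  apply Real.le_sqrt_of_sq_le
  have h2 : ∀ j, ‖conj (z j) • ((1 / 2 : ℂ) • (gx j z + Complex.I • gy j z))‖ =
      ‖z j‖ * ‖(1 / 2 : ℂ) • (gx j z + Complex.I • gy j z)‖ := by
    intro j
    rw [norm_smul, RCLike.norm_conj]
  simp_rw [h2]
  exact Finset.sum_mul_sq_le_sq_mul_sq _ _ _

theorem ball_local (hn : 2 ≤ n) {Ω : Set (Cn n)} (hΩ : IsOpen Ω) {u : Cn n → Cn m}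
    {gx gy : Fin n → Cn n → Cn m} {V : Cn n → ℝ}
    (hW : W1Loc (4 * n / (2 * n + 1)) Ω u gx gy) (hV : LpLoc (2 * n) Ω V)
    (hineq : ∀ᵐ z ∂(volume.restrict Ω), dbarNorm gx gy z ≤ V z * ‖u z‖)
    {z0 : Cn n} {R0 R1 : ℝ} (hR0 : 0 < R0) (hR01 : R0 < R1) (hb : closedBall z0 R1 ⊆ Ω)
    (hvan : VanishesInf (4 * n / (2 * n - 1)) u z0) :
    ∀ᵐ z : Cn n, z ∈ ball z0 R0 → u z = 0 := by
  have hn' : (2 : ℝ) ≤ n := by exact_mod_cast hn
  have hnt : Nontrivial (Cn n) := by
    have : Nonempty (Fin n) := ⟨⟨0, by omega⟩⟩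
    infer_instance
  set p : ℝ := 4 * n / (2 * n + 1) with hp
  set q : ℝ := 4 * n / (2 * n - 1) with hq
  set r : ℝ := 2 * n with hr
  set c : ℝ := 2 * n / (2 * n - 1) with hc
  have d1 : (0 : ℝ) < 2 * n + 1 := by linarith
  have d2 : (0 : ℝ) < 2 * n - 1 := by linarith
  have hp1 : 1 ≤ p := by rw [hp, le_div_iff₀ d1]; linarith
  have hp0 : 0 < p := by linarith
  have hp2 : p ≤ 2 := by rw [hp, div_le_iff₀ d1]; linarith
  have hpq : p < q := by
    rw [hp, hq, div_lt_div_iff₀ d1 d2]; nlinarith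
  have hpr : p < r := by rw [hp, hr, div_lt_iff₀ d1]; nlinarith
  have hc0 : 0 < c := by rw [hc]; positivity
  have hc2 : c < 2 := by rw [hc, div_lt_iff₀ d2]; linarith
  have hcpq : 1 / c = 1 / q + (1 - 1 / p) := by
    rw [hc, hp, hq]; field_simp; ring
  have hold : 1 / p = 1 / r + 1 / q := by
    rw [hr, hp, hq]; field_simp; ring
  have hq2 : q ≤ 2 * p := by
    rw [hp, hq, ← mul_div_assoc, div_le_div_iff₀ d2 d1]; nlinarith
  have hpE : (1 : ℝ≥0∞) ≤ ENNReal.ofReal p := by
    rw [← ENNReal.ofReal_one]; exact ENNReal.ofReal_le_ofReal hp1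
  have hpE0 : ENNReal.ofReal p ≠ 0 := by
    intro h; rw [h] at hpE; simp at hpE
  set χ : ContDiffBump (0 : Cn n) := ⟨R0, R1, hR0, hR01⟩ with hχ
  have hχs : ContDiff ℝ ∞ χ := χ.contDiff
  have hχd : ∀ x, x ∉ closedBall (0 : Cn n) R1 → χ x = 0 := by
    intro x hx
    apply χ.zero_of_le_dist
    rw [mem_closedBall] at hx
    show R1 ≤ _
    linarith
  have hχfd : ∀ x, x ∉ closedBall (0 : Cn n) R1 → fderiv ℝ χ x = 0 := by
    intro x hx
    by_contra hne
    have := support_fderiv_subset ℝ (f := χ) hne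
    rw [χ.tsupport_eq] at this
    exact hx this
  have hu := memLp_trans hW.memU hb
  have hx := fun j => memLp_trans (hW.memX j) hb
  have hy := fun j => memLp_trans (hW.memY j) hb
  have hfinm : IsFiniteMeasure ((volume : Measure (Cn n)).restrict (closedBall 0 R1)) :=
    ⟨by rw [Measure.restrict_apply_univ]; exact measure_closedBall_lt_top⟩
  have hu1 := hu.mono_exponent hpE
  have hx1 := fun j => (hx j).mono_exponent hpE
  have hy1 := fun j => (hy j).mono_exponent hpE
  -- localized functions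
  set ex : Fin n → Cn n := fun j => EuclideanSpace.single j 1 with hex
  set ey : Fin n → Cn n := fun j => Complex.I • EuclideanSpace.single j 1 with hey
  have cd : ∀ v : Cn n, Continuous (fun x => fderiv ℝ χ x v) := fun v =>
    (hχs.continuous_fderiv (by simp)).clm_apply continuous_const
  set U0 : Cn n → Cn m := fun x => χ x • u (x + z0) with hU0
  set X0 : Fin n → Cn n → Cn m := fun j x => χ x • gx j (x + z0) + fderiv ℝ χ x (ex j) • u (x + z0)
    with hX0
  set Y0 : Fin n → Cn n → Cn m := fun j x => χ x • gy j (x + z0) + fderiv ℝ χ x (ey j) • u (x + z0)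
    with hY0
  have mU0 : MemLp U0 (ENNReal.ofReal p) := memLp_cut hu hχs.continuous hχd
  have mX0 : ∀ j, MemLp (X0 j) (ENNReal.ofReal p) := fun j =>
    (memLp_cut (hx j) hχs.continuous hχd).add (memLp_cut hu (cd _) (fun x hx => by rw [hχfd x hx]; simp))
  have mY0 : ∀ j, MemLp (Y0 j) (ENNReal.ofReal p) := fun j =>
    (memLp_cut (hy j) hχs.continuous hχd).add (memLp_cut hu (cd _) (fun x hx => by rw [hχfd x hx]; simp))
  have iU0 : Integrable U0 := memLp_one_iff_integrable.mp (memLp_cut hu1 hχs.continuous hχd)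
  have iX0 : ∀ j, Integrable (X0 j) := fun j => memLp_one_iff_integrable.mp
    ((memLp_cut (hx1 j) hχs.continuous hχd).add
      (memLp_cut hu1 (cd _) (fun x hx => by rw [hχfd x hx]; simp)))
  have iY0 : ∀ j, Integrable (Y0 j) := fun j => memLp_one_iff_integrable.mp
    ((memLp_cut (hy1 j) hχs.continuous hχd).add
      (memLp_cut hu1 (cd _) (fun x hx => by rw [hχfd x hx]; simp)))
  have wX0 : ∀ j, WD volume U0 (X0 j) (ex j) := fun j =>
    wd_cut hb (hW.derivX j) hu1 (hx1 j) χ rfl rfl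
  have wY0 : ∀ j, WD volume U0 (Y0 j) (ey j) := fun j =>
    wd_cut hb (hW.derivY j) hu1 (hy1 j) χ rfl rfl
  -- measurable representatives
  set U : Cn n → Cn m := mU0.1.mk U0 with hUdef
  have hU : U0 =ᵐ[volume] U := mU0.1.ae_eq_mk
  set X : Fin n → Cn n → Cn m := fun j => (mX0 j).1.mk (X0 j) with hXdef
  have hX : ∀ j, X0 j =ᵐ[volume] X j := fun j => (mX0 j).1.ae_eq_mk
  set Y : Fin n → Cn n → Cn m := fun j => (mY0 j).1.mk (Y0 j) with hYdef
  have hY : ∀ j, Y0 j =ᵐ[volume] Y j := fun j => (mY0 j).1.ae_eq_mk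
  have hVt := memLp_trans hV hb
  have hV0m : AEMeasurable ((closedBall (0 : Cn n) R1).indicator (fun x => ‖V (x + z0)‖ₑ)) volume :=
    (aemeasurable_indicator_iff measurableSet_closedBall).mpr hVt.1.enorm
  set W : Cn n → ℝ≥0∞ := hV0m.mk _ with hWdef
  have hWe : (closedBall (0 : Cn n) R1).indicator (fun x => ‖V (x + z0)‖ₑ) =ᵐ[volume] W :=
    hV0m.ae_eq_mk
  have hXa : ∀ᵐ x, ∀ j, X0 j x = X j x := ae_all_iff.mpr hX
  have hYa : ∀ᵐ x, ∀ j, Y0 j x = Y j x := ae_all_iff.mpr hY
  have hint : ∀ᵐ x : Cn n, x + z0 ∈ Ω → dbarNorm gx gy (x + z0) ≤ V (x + z0) * ‖u (x + z0)‖ := by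
    rw [ae_restrict_iff' hΩ.measurableSet] at hineq
    exact (measurePreserving_add_right volume z0).quasiMeasurePreserving.ae hineq
  have hχ1 : ∀ x : Cn n, ‖x‖ < R0 → χ x = 1 ∧ fderiv ℝ χ x = 0 := by
    intro x hx
    constructor
    · apply χ.one_of_mem_closedBall
      rw [mem_closedBall_zero_iff]; exact hx.le
    · have : χ =ᶠ[𝓝 x] fun _ => 1 := by
        have : ball (0 : Cn n) R0 ∈ 𝓝 x := isOpen_ball.mem_nhds (by simpa using hx)
        filter_upwards [this] with w hw
        exact χ.one_of_mem_closedBall (ball_subset_closedBall hw)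
      rw [this.fderiv_eq]
      exact fderiv_const_apply _
  have hUu : ∀ᵐ x : Cn n, ‖x‖ < R0 → U x = u (x + z0) := by
    filter_upwards [hU] with x hx1 hx2
    rw [← hx1]
    simp only [hU0]
    rw [(hχ1 x hx2).1, one_smul]
  have hmemK : ∀ x : Cn n, ‖x‖ < R0 → x + z0 ∈ Ω := by
    intro x hx
    apply hb
    rw [mem_closedBall, dist_eq_norm, add_sub_cancel_right]
    linarith
  have hBH : BallHyp n m R0 p r U X Y W := by
    refine ⟨mU0.1.stronglyMeasurable_mk.measurable,
      fun j => (mX0 j).1.stronglyMeasurable_mk.measurable,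
      fun j => (mY0 j).1.stronglyMeasurable_mk.measurable, hV0m.measurable_mk,
      iU0.congr hU, fun j => (iX0 j).congr (hX j), fun j => (iY0 j).congr (hY j),
      fun j => wd_congr (wX0 j) hU (hX j), fun j => wd_congr (wY0 j) hU (hY j), ?_, ?_, ?_, ?_, ?_⟩
    · -- inequality
      filter_upwards [hUu, hXa, hYa, hWe, hint] with x a1 a2 a3 a4 a5 hx
      have b1 := a1 hx
      have b5 := a5 (hmemK x hx)
      have hxK : x ∈ closedBall (0 : Cn n) R1 := by
        rw [mem_closedBall_zero_iff]; linarith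
      rw [indicator_of_mem hxK] at a4
      rw [← a4, b1]
      obtain ⟨c1, c2⟩ := hχ1 x hx
      have eX : ∀ j, X j x = gx j (x + z0) := by
        intro j
        rw [← a2 j]
        simp only [hX0]
        rw [c1, c2]; simp
      have eY : ∀ j, Y j x = gy j (x + z0) := by
        intro j
        rw [← a3 j]
        simp only [hY0]
        rw [c1, c2]; simp
      have hrb := rad_bound X Y x
      simp_rw [eX, eY] at hrb
      have hdn : Real.sqrt (∑ j, ‖(1 / 2 : ℂ) • (gx j (x + z0) + Complex.I • gy j (x + z0))‖ ^ 2) =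
          dbarNorm gx gy (x + z0) := rfl
      rw [hdn] at hrb
      rw [← ofReal_norm, ← ofReal_norm, ← ofReal_norm, ← ofReal_norm,
        ← ENNReal.ofReal_mul (by positivity), ← ENNReal.ofReal_mul (by positivity)]
      apply ENNReal.ofReal_le_ofReal
      calc ‖rad X Y x‖ ≤ ‖x‖ * dbarNorm gx gy (x + z0) := hrb
        _ ≤ ‖x‖ * (V (x + z0) * ‖u (x + z0)‖) := by gcongr
        _ ≤ ‖x‖ * (‖V (x + z0)‖ * ‖u (x + z0)‖) := by
            gcongr
            exact Real.le_norm_self _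
        _ = _ := by ring
    · -- u in L^p
      have h1 : MemLp U (ENNReal.ofReal p) := mU0.ae_eq hU
      have h2 := lintegral_rpow_enorm_lt_top_of_eLpNorm_lt_top hpE0 ENNReal.ofReal_ne_top h1.2
      rw [ENNReal.toReal_ofReal hp0.le] at h2
      exact (setLIntegral_le_lintegral _ _).trans_lt h2
    · -- radial derivative in L^p
      have h1 : ∀ j, MemLp (fun z => conj (z j) • ((1 / 2 : ℂ) • (X j z + Complex.I • Y j z)))
          (ENNReal.ofReal p) ((volume : Measure (Cn n)).restrict (ball 0 R0)) := by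
        intro j
        have hXj : MemLp (X j) (ENNReal.ofReal p) := (mX0 j).ae_eq (hX j)
        have hYj : MemLp (Y j) (ENNReal.ofReal p) := (mY0 j).ae_eq (hY j)
        have hs : MemLp (fun z => X j z + Complex.I • Y j z) (ENNReal.ofReal p) :=
          hXj.add (hYj.const_smul Complex.I)
        apply hs.restrict _ |>.of_le_mul (c := R0)
        · have m1 : Measurable (fun z : Cn n => conj (z j)) :=
            (Complex.continuous_conj.comp (EuclideanSpace.proj (𝕜 := ℂ) j).continuous).measurable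
          exact (m1.aestronglyMeasurable).smul ((hs.restrict _).1.const_smul (1 / 2 : ℂ))
        · rw [ae_restrict_iff' measurableSet_ball]
          filter_upwards with z hz
          rw [norm_smul, norm_smul, RCLike.norm_conj]
          have e1 : ‖z j‖ ≤ R0 := (PiLp.norm_apply_le z j).trans (mem_ball_zero_iff.mp hz).le
          have e2 : ‖(1 / 2 : ℂ)‖ ≤ 1 := by norm_num
          calc ‖z j‖ * (‖(1 / 2 : ℂ)‖ * ‖X j z + Complex.I • Y j z‖)
              ≤ R0 * (1 * ‖X j z + Complex.I • Y j z‖) := by gcongr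
            _ = _ := by rw [one_mul]
      have h2 : MemLp (rad X Y) (ENNReal.ofReal p)
          ((volume : Measure (Cn n)).restrict (ball 0 R0)) := by
        unfold rad
        exact memLp_finsetSum _ (fun j _ => h1 j)
      have h3 := lintegral_rpow_enorm_lt_top_of_eLpNorm_lt_top hpE0 ENNReal.ofReal_ne_top h2.2
      rwa [ENNReal.toReal_ofReal hp0.le] at h3
    · -- potential
      have hrE0 : ENNReal.ofReal r ≠ 0 := by
        rw [ne_eq, ENNReal.ofReal_eq_zero, not_le]; linarith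
      have h3 := lintegral_rpow_enorm_lt_top_of_eLpNorm_lt_top hrE0 ENNReal.ofReal_ne_top hVt.2
      rw [ENNReal.toReal_ofReal (by linarith)] at h3
      refine lt_of_le_of_lt ?_ h3
      have hWr : ∀ᵐ x ∂((volume : Measure (Cn n)).restrict (ball 0 R0)),
          W x ^ r = ‖V (x + z0)‖ₑ ^ r := by
        rw [ae_restrict_iff' measurableSet_ball]
        filter_upwards [hWe] with x hx hxb
        rw [← hx, indicator_of_mem]
        rw [mem_closedBall_zero_iff]
        rw [mem_ball_zero_iff] at hxb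
        linarith
      rw [lintegral_congr_ae hWr]
      exact lintegral_mono_set (fun x hx => by
        rw [mem_ball_zero_iff] at hx
        rw [mem_closedBall_zero_iff]; linarith)
    · -- vanishing
      intro M
      have hUm : Measurable U := mU0.1.stronglyMeasurable_mk.measurable
      apply van_weight (U := U) hUm hp0 hpq.le hq2 _ M
      intro N
      refine (hvan N).congr' ?_
      have hev : ∀ᶠ s : ℝ in 𝓝[>] 0, s < R0 :=
        (eventually_lt_nhds hR0).filter_mono nhdsWithin_le_nhds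
      filter_upwards [hev] with s hs
      congr 1
      rw [← setLIntegral_trans (fun z => ‖u z‖ₑ ^ q) z0 s]
      apply setLIntegral_congr_fun_ae measurableSet_ball
      filter_upwards [hUu] with x hx hxb
      have hx' := hx ((mem_ball_zero_iff.mp hxb).trans hs)
      rw [hx']
  have hz := ball_zero hp1 hp2 hpq hpr hc0 hc2 hcpq hold hr (by omega) hBH hR0
  have hz2 : ∀ᵐ x : Cn n, ‖x‖ < R0 → u (x + z0) = 0 := by
    filter_upwards [hz, hUu] with x h1 h2 h3
    rw [← h2 h3, h1 h3]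
  have hz3 := (measurePreserving_add_right (volume : Measure (Cn n)) (-z0)).quasiMeasurePreserving.ae hz2
  filter_upwards [hz3] with z h1 h2
  have h3 := h1 (by rwa [← sub_eq_add_neg, ← dist_eq_norm, ← mem_ball])
  rwa [neg_add_cancel_right] at h3

/-- strong unique continuation for the `∂̄` inequality with `L^{2n}` potential -/
theorem main (hn : 2 ≤ n) {Ω : Set (Cn n)} (hΩ : IsOpen Ω) (hc : IsPreconnected Ω)
    {u : Cn n → Cn m} {gx gy : Fin n → Cn n → Cn m} {V : Cn n → ℝ}
    (hW : W1Loc (4 * n / (2 * n + 1)) Ω u gx gy) (hV : LpLoc (2 * n) Ω V)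
    (hineq : ∀ᵐ z ∂(volume.restrict Ω), dbarNorm gx gy z ≤ V z * ‖u z‖)
    {z0 : Cn n} (hz0 : z0 ∈ Ω)
    (hvan : VanishesInf (4 * n / (2 * n - 1)) u z0) :
    ∀ᵐ z ∂(volume.restrict Ω), u z = 0 := by
  have hq0 : (0 : ℝ) < 4 * n / (2 * n - 1) := by
    have hn' : (2 : ℝ) ≤ n := by exact_mod_cast hn
    apply div_pos <;> linarith
  -- the set where `u` vanishes near a point
  set A : Set (Cn n) := {z | ∃ r > 0, ∀ᵐ w : Cn n, w ∈ ball z r → u w = 0} with hA
  have hstep : ∀ z ∈ Ω, VanishesInf (4 * n / (2 * n - 1)) u z → ∀ R1, 0 < R1 →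
      closedBall z R1 ⊆ Ω → ∀ᵐ w : Cn n, w ∈ ball z (R1 / 2) → u w = 0 := by
    intro z hz hv R1 hR1 hb
    exact ball_local hn hΩ hW hV hineq (by linarith) (by linarith) hb hv
  have hvanA : ∀ z ∈ A, VanishesInf (4 * n / (2 * n - 1)) u z := by
    rintro z ⟨r, hr, hz⟩ N
    have hev : ∀ᶠ s : ℝ in 𝓝[>] 0, s < r :=
      (eventually_lt_nhds hr).filter_mono nhdsWithin_le_nhds
    refine tendsto_const_nhds.congr' ?_
    filter_upwards [hev] with s hs
    have : ∫⁻ w in ball z s, ‖u w‖ₑ ^ ((4 * n / (2 * n - 1) : ℝ)) = 0 := by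
      have h1 : ∀ᵐ w ∂(volume.restrict (ball z s)), ‖u w‖ₑ ^ ((4 * n / (2 * n - 1) : ℝ)) = 0 := by
        rw [ae_restrict_iff' measurableSet_ball]
        filter_upwards [hz] with w hw hws
        rw [hw (ball_subset_ball hs.le hws), enorm_zero, ENNReal.zero_rpow_of_pos hq0]
      rw [lintegral_congr_ae h1]; simp
    rw [this, mul_zero]
  have hAopen : IsOpen A := by
    rw [Metric.isOpen_iff]
    rintro z ⟨r, hr, hz⟩
    refine ⟨r / 2, by positivity, fun w hw => ⟨r / 2, by positivity, ?_⟩⟩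
    filter_upwards [hz] with y hy hyw
    apply hy
    rw [mem_ball] at hw hyw ⊢
    linarith [dist_triangle y w z]
  have hz0A : z0 ∈ A := by
    obtain ⟨R1, hR1, hb⟩ := Metric.nhds_basis_closedBall.mem_iff.mp (hΩ.mem_nhds hz0)
    exact ⟨R1 / 2, by positivity, hstep z0 hz0 hvan R1 hR1 hb⟩
  have hcl : ∀ z ∈ Ω, z ∈ closure A → z ∈ A := by
    intro z hz hzc
    obtain ⟨R1, hR1, hb⟩ := Metric.nhds_basis_closedBall.mem_iff.mp (hΩ.mem_nhds hz)
    obtain ⟨w, hwA, hwz⟩ := Metric.mem_closure_iff.mp hzc (R1 / 8) (by positivity)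
    have hbw : closedBall w (R1 / 2) ⊆ Ω := by
      intro y hy
      apply hb
      rw [mem_closedBall] at hy ⊢
      rw [dist_comm] at hwz
      linarith [dist_triangle y w z]
    have hwΩ : w ∈ Ω := hbw (mem_closedBall_self (by positivity))
    have h1 := hstep w hwΩ (hvanA w hwA) (R1 / 2) (by positivity) hbw
    refine ⟨R1 / 8, by positivity, ?_⟩
    filter_upwards [h1] with y hy hyz
    apply hy
    rw [mem_ball] at hyz ⊢
    linarith [dist_triangle y z w]
  have hsub : Ω ⊆ A := by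
    apply hc.subset_of_closure_inter_subset hAopen ⟨z0, hz0, hz0A⟩
    rintro z ⟨hz1, hz2⟩
    exact hcl z hz2 hz1
  rw [ae_restrict_iff' hΩ.measurableSet]
  have hnull : volume {z : Cn n | z ∈ Ω ∧ u z ≠ 0} = 0 := by
    apply measure_null_of_locally_null
    rintro z ⟨hz, _⟩
    obtain ⟨r, hr, hzr⟩ := hsub hz
    refine ⟨{w | ¬ (w ∈ ball z r → u w = 0)}, ?_, hzr⟩
    rw [mem_nhdsWithin]
    refine ⟨ball z r, isOpen_ball, mem_ball_self hr, ?_⟩
    rintro w ⟨hw1, _, hw2⟩
    simp only [mem_ofPred_eq, not_forall]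
    exact ⟨hw1, hw2⟩
  have h1 : ∀ᵐ z : Cn n, ¬ (z ∈ Ω ∧ u z ≠ 0) := by
    rw [ae_iff]
    simpa only [not_not] using hnull
  filter_upwards [h1] with z hz hzΩ
  by_contra hcon
  exact hz ⟨hzΩ, hcon⟩

end Pool.Agent.Q171.SUC
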