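import Pool.Agent.Q171.SUC.Scale

set_option autoImplicit false

open MeasureTheory Set Filter Topology Metric
open scoped ENNReal ContDiff ComplexConjugate

namespace Pool.Agent.Q171.SUC

section slice

variable {E : Type*} [NormedAddCommGroup E] [NormedSpace ℂ E] [NormedSpace ℝ E]
  [IsScalarTower ℝ ℂ E] [FiniteDimensional ℝ E] [Nontrivial E] [MeasurableSpace E] [BorelSpace E]
  (μ : Measure E) [μ.IsAddHaarMeasure]

/-- the shell of directions -/
def shell (E : Type*) [NormedAddCommGroup E] : Set E := {θ | 1 < ‖θ‖ ∧ ‖θ‖ < 2}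

omit [NormedSpace ℂ E] [NormedSpace ℝ E] [IsScalarTower ℝ ℂ E] [FiniteDimensional ℝ E]
  [Nontrivial E] in
theorem measurableSet_shell : MeasurableSet (shell E) :=
  (measurableSet_lt measurable_const measurable_norm).inter
    (measurableSet_lt measurable_norm measurable_const)

instance : SFinite mu := by unfold mu; infer_instance

theorem mu_shell_le (t : ℝ) : mu {ζ : ℂ | t < 2 * ‖ζ‖ ∧ ‖ζ‖ < t} ≤ ENNReal.ofReal (4 * Real.pi) := by
  have hms : MeasurableSet {ζ : ℂ | t < 2 * ‖ζ‖ ∧ ‖ζ‖ < t} :=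
    (measurableSet_lt measurable_const (measurable_norm.const_mul 2)).inter
      (measurableSet_lt measurable_norm measurable_const)
  rcases le_or_gt t 0 with ht | ht
  · have : {ζ : ℂ | t < 2 * ‖ζ‖ ∧ ‖ζ‖ < t} = ∅ := by
      ext ζ
      simp only [mem_ofPred_eq, mem_empty_iff_false, iff_false, not_and, not_lt]
      intro _
      exact ht.trans (norm_nonneg _)
    rw [this]; simp
  unfold mu
  rw [withDensity_apply _ hms]
  calc ∫⁻ ζ in {ζ : ℂ | t < 2 * ‖ζ‖ ∧ ‖ζ‖ < t}, ENNReal.ofReal ((‖ζ‖ ^ 2)⁻¹)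
      ≤ ∫⁻ ζ in {ζ : ℂ | t < 2 * ‖ζ‖ ∧ ‖ζ‖ < t}, ENNReal.ofReal (4 / t ^ 2) := by
        apply setLIntegral_mono measurable_const
        intro ζ hζ
        apply ENNReal.ofReal_le_ofReal
        have h1 : t / 2 < ‖ζ‖ := by have := hζ.1; linarith
        have h2 : 0 < ‖ζ‖ := by linarith
        rw [inv_eq_one_div, div_le_div_iff₀ (by positivity) (by positivity)]
        nlinarith
    _ = ENNReal.ofReal (4 / t ^ 2) * volume {ζ : ℂ | t < 2 * ‖ζ‖ ∧ ‖ζ‖ < t} := by
        rw [setLIntegral_const]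
    _ ≤ ENNReal.ofReal (4 / t ^ 2) * volume (ball (0 : ℂ) t) := by
        gcongr
        intro ζ hζ
        rw [mem_ball_zero_iff]; exact hζ.2
    _ = ENNReal.ofReal (4 * Real.pi) := by
        rw [Complex.volume_ball]
        have : (NNReal.pi : ℝ≥0∞) = ENNReal.ofReal Real.pi := by
          rw [ENNReal.ofReal, Real.toNNReal_of_nonneg Real.pi_pos.le]; rfl
        rw [this, ← ENNReal.ofReal_pow ht.le, ← ENNReal.ofReal_mul (by positivity),
          ← ENNReal.ofReal_mul (by positivity)]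
        congr 1
        field_simp

/-- integration over slices -/
theorem slice_le {h : E → ℝ≥0∞} (hh : Measurable h) :
    ∫⁻ θ in shell E, (∫⁻ ζ, ENNReal.ofReal (‖ζ‖ ^ Module.finrank ℝ E) * h (ζ • θ) ∂mu) ∂μ ≤
      ENNReal.ofReal (4 * Real.pi) * ∫⁻ z, h z ∂μ := by
  set d := Module.finrank ℝ E with hd
  have hm1 : Measurable (fun p : E × ℂ => ENNReal.ofReal (‖p.2‖ ^ d) * h (p.2 • p.1)) := by
    have : Measurable (fun p : E × ℂ => p.2 • p.1) := by
      have : Continuous (fun p : E × ℂ => p.2 • p.1) := continuous_snd.smul continuous_fst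
      exact this.measurable
    exact (by fun_prop : Measurable (fun p : E × ℂ => ENNReal.ofReal (‖p.2‖ ^ d))).mul
      (hh.comp this)
  rw [lintegral_lintegral_swap hm1.aemeasurable]
  have hms : ∀ ζ : ℂ, MeasurableSet {z : E | ‖ζ‖ < ‖z‖ ∧ ‖z‖ < 2 * ‖ζ‖} := fun ζ =>
    (measurableSet_lt measurable_const measurable_norm).inter
      (measurableSet_lt measurable_norm measurable_const)
  have h0 : ∀ᵐ ζ ∂mu, ζ ≠ 0 := by
    unfold mu
    have h0 : ∀ᵐ ζ : ℂ, ζ ≠ 0 := by rw [ae_iff]; simp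
    exact (withDensity_absolutelyContinuous _ _).ae_le h0
  have hinner : ∀ᵐ ζ ∂mu, ∫⁻ θ in shell E, ENNReal.ofReal (‖ζ‖ ^ d) * h (ζ • θ) ∂μ =
      ∫⁻ z, {z : E | ‖ζ‖ < ‖z‖ ∧ ‖z‖ < 2 * ‖ζ‖}.indicator h z ∂μ := by
    filter_upwards [h0] with ζ hζ
    have hn : 0 < ‖ζ‖ := norm_pos_iff.mpr hζ
    have hmc : Measurable (fun θ : E => h (ζ • θ)) :=
      hh.comp (continuous_const_smul ζ).measurable
    rw [lintegral_const_mul _ hmc, lintegral_eq_csmul μ hζ (hh.indicator (hms ζ)),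
      ← lintegral_indicator measurableSet_shell]
    congr 1
    apply lintegral_congr
    intro θ
    by_cases hθ : θ ∈ shell E
    · rw [indicator_of_mem hθ, indicator_of_mem]
      constructor
      · rw [norm_smul]; nlinarith [hθ.1]
      · rw [norm_smul]; nlinarith [hθ.2]
    · rw [indicator_of_notMem hθ, indicator_of_notMem]
      intro hcon
      apply hθ
      obtain ⟨c1, c2⟩ := hcon
      rw [norm_smul] at c1 c2
      constructor
      · by_contra hc; push Not at hc; nlinarith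
      · by_contra hc; push Not at hc; nlinarith
  rw [lintegral_congr_ae hinner]
  have hm2 : Measurable (fun p : ℂ × E => {z : E | ‖p.1‖ < ‖z‖ ∧ ‖z‖ < 2 * ‖p.1‖}.indicator h p.2) := by
    have : (fun p : ℂ × E => {z : E | ‖p.1‖ < ‖z‖ ∧ ‖z‖ < 2 * ‖p.1‖}.indicator h p.2) =
        {p : ℂ × E | ‖p.1‖ < ‖p.2‖ ∧ ‖p.2‖ < 2 * ‖p.1‖}.indicator (fun p => h p.2) := by
      funext p
      by_cases hc : ‖p.1‖ < ‖p.2‖ ∧ ‖p.2‖ < 2 * ‖p.1‖
      · rw [indicator_of_mem (s := {z : E | ‖p.1‖ < ‖z‖ ∧ ‖z‖ < 2 * ‖p.1‖}) hc,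
          indicator_of_mem (s := {p : ℂ × E | ‖p.1‖ < ‖p.2‖ ∧ ‖p.2‖ < 2 * ‖p.1‖}) hc]
      · rw [indicator_of_notMem (s := {z : E | ‖p.1‖ < ‖z‖ ∧ ‖z‖ < 2 * ‖p.1‖}) hc,
          indicator_of_notMem (s := {p : ℂ × E | ‖p.1‖ < ‖p.2‖ ∧ ‖p.2‖ < 2 * ‖p.1‖}) hc]
    rw [this]
    apply (hh.comp measurable_snd).indicator
    exact (measurableSet_lt (measurable_norm.comp measurable_fst)
      (measurable_norm.comp measurable_snd)).inter
      (measurableSet_lt (measurable_norm.comp measurable_snd)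
        ((measurable_norm.comp measurable_fst).const_mul 2))
  rw [lintegral_lintegral_swap hm2.aemeasurable]
  have hfin : ENNReal.ofReal (4 * Real.pi) ≠ ⊤ := ENNReal.ofReal_ne_top
  rw [← lintegral_const_mul' _ _ hfin]
  apply lintegral_mono
  intro z
  simp only
  have hms2 : MeasurableSet {ζ : ℂ | ‖z‖ < 2 * ‖ζ‖ ∧ ‖ζ‖ < ‖z‖} :=
    (measurableSet_lt measurable_const (measurable_norm.const_mul 2)).inter
      (measurableSet_lt measurable_norm measurable_const)
  have : ∀ ζ : ℂ, {z : E | ‖ζ‖ < ‖z‖ ∧ ‖z‖ < 2 * ‖ζ‖}.indicator h z =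
      {ζ : ℂ | ‖z‖ < 2 * ‖ζ‖ ∧ ‖ζ‖ < ‖z‖}.indicator (fun _ => h z) ζ := by
    intro ζ
    simp only [indicator, mem_ofPred_eq]
    by_cases hc : ‖ζ‖ < ‖z‖ ∧ ‖z‖ < 2 * ‖ζ‖
    · rw [if_pos hc, if_pos ⟨hc.2, hc.1⟩]
    · rw [if_neg hc, if_neg (fun h => hc ⟨h.2, h.1⟩)]
  simp_rw [this]
  rw [lintegral_indicator_const hms2, mul_comm]
  gcongr
  exact mu_shell_le _

/-- finiteness on almost every slice -/
theorem slice_fin {h : E → ℝ≥0∞} (hh : Measurable h) (hfin : ∫⁻ z, h z ∂μ < ⊤) :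
    ∀ᵐ θ ∂(μ.restrict (shell E)),
      ∫⁻ ζ, ENNReal.ofReal (‖ζ‖ ^ Module.finrank ℝ E) * h (ζ • θ) ∂mu < ⊤ := by
  set d := Module.finrank ℝ E with hd
  have hm1 : Measurable (fun p : E × ℂ => ENNReal.ofReal (‖p.2‖ ^ d) * h (p.2 • p.1)) := by
    have : Measurable (fun p : E × ℂ => p.2 • p.1) := by
      have : Continuous (fun p : E × ℂ => p.2 • p.1) := continuous_snd.smul continuous_fst
      exact this.measurable
    exact (by fun_prop : Measurable (fun p : E × ℂ => ENNReal.ofReal (‖p.2‖ ^ d))).mul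
      (hh.comp this)
  have hm2 : Measurable (fun θ : E => ∫⁻ ζ, ENNReal.ofReal (‖ζ‖ ^ d) * h (ζ • θ) ∂mu) :=
    hm1.lintegral_prod_right'
  apply ae_lt_top hm2
  apply ne_of_lt
  exact lt_of_le_of_lt (slice_le μ hh) (ENNReal.mul_lt_top ENNReal.ofReal_lt_top hfin)

/-- null sets on almost every slice -/
theorem slice_null {P : E → Prop} (hP : ∀ᵐ z ∂μ, P z) :
    ∀ᵐ θ ∂(μ.restrict (shell E)), ∀ᵐ ζ : ℂ, P (ζ • θ) := by
  set d := Module.finrank ℝ E with hd
  set T := toMeasurable μ {z | ¬ P z} with hT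
  have hTm : MeasurableSet T := measurableSet_toMeasurable _ _
  have hT0 : μ T = 0 := by rw [hT, measure_toMeasurable]; exact hP
  have hTP : ∀ z, z ∉ T → P z := by
    intro z hz
    by_contra hc
    exact hz (subset_toMeasurable _ _ hc)
  set h : E → ℝ≥0∞ := T.indicator (fun _ => 1) with hh
  have hhm : Measurable h := measurable_const.indicator hTm
  have hm1 : Measurable (fun p : E × ℂ => ENNReal.ofReal (‖p.2‖ ^ d) * h (p.2 • p.1)) := by
    have : Measurable (fun p : E × ℂ => p.2 • p.1) := by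
      have : Continuous (fun p : E × ℂ => p.2 • p.1) := continuous_snd.smul continuous_fst
      exact this.measurable
    exact (by fun_prop : Measurable (fun p : E × ℂ => ENNReal.ofReal (‖p.2‖ ^ d))).mul
      (hhm.comp this)
  have hm2 : Measurable (fun θ : E => ∫⁻ ζ, ENNReal.ofReal (‖ζ‖ ^ d) * h (ζ • θ) ∂mu) :=
    hm1.lintegral_prod_right'
  have hle := slice_le μ hhm
  have h0 : ∫⁻ z, h z ∂μ = 0 := by
    rw [hh, lintegral_indicator_const hTm, hT0, mul_zero]
  rw [h0, mul_zero, nonpos_iff_eq_zero, lintegral_eq_zero_iff hm2] at hle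
  filter_upwards [hle] with θ hθ
  have hm3 : Measurable (fun ζ : ℂ => ENNReal.ofReal (‖ζ‖ ^ d) * h (ζ • θ)) :=
    hm1.comp (measurable_const.prodMk measurable_id)
  simp only [Pi.zero_apply] at hθ
  rw [lintegral_eq_zero_iff hm3] at hθ
  have h00 : ∀ᵐ ζ : ℂ, ζ ≠ 0 := by rw [ae_iff]; simp
  unfold mu at hθ
  rw [EventuallyEq, ae_withDensity_iff measurable_dens] at hθ
  filter_upwards [hθ, h00] with ζ h1 h2
  apply hTP
  intro hmem
  have hn : 0 < ‖ζ‖ := norm_pos_iff.mpr h2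
  have h3 := h1 (by rw [ne_eq, ENNReal.ofReal_eq_zero, not_le]; positivity)
  simp only [Pi.zero_apply, mul_eq_zero, ENNReal.ofReal_eq_zero, hh] at h3
  rw [indicator_of_mem hmem] at h3
  rcases h3 with h3 | h3
  · have : 0 < ‖ζ‖ ^ d := by positivity
    linarith
  · exact one_ne_zero h3

/-- convergence along a subsequence on almost every slice -/
theorem slice_lim {h : ℕ → E → ℝ≥0∞} (hh : ∀ k, Measurable (h k))
    (hlim : Tendsto (fun k => ∫⁻ z, h k z ∂μ) atTop (𝓝 0)) :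
    ∀ᵐ θ ∂(μ.restrict (shell E)),
      liminf (fun k => ∫⁻ ζ, ENNReal.ofReal (‖ζ‖ ^ Module.finrank ℝ E) * h k (ζ • θ) ∂mu) atTop = 0 := by
  set d := Module.finrank ℝ E with hd
  have hm1 : ∀ k, Measurable (fun p : E × ℂ => ENNReal.ofReal (‖p.2‖ ^ d) * h k (p.2 • p.1)) := by
    intro k
    have : Measurable (fun p : E × ℂ => p.2 • p.1) := by
      have : Continuous (fun p : E × ℂ => p.2 • p.1) := continuous_snd.smul continuous_fst
      exact this.measurable
    exact (by fun_prop : Measurable (fun p : E × ℂ => ENNReal.ofReal (‖p.2‖ ^ d))).mul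
      ((hh k).comp this)
  have hm2 : ∀ k, Measurable (fun θ : E => ∫⁻ ζ, ENNReal.ofReal (‖ζ‖ ^ d) * h k (ζ • θ) ∂mu) :=
    fun k => (hm1 k).lintegral_prod_right'
  have hF : ∫⁻ θ in shell E, liminf (fun k => ∫⁻ ζ, ENNReal.ofReal (‖ζ‖ ^ d) * h k (ζ • θ) ∂mu) atTop ∂μ
      ≤ 0 := by
    refine (lintegral_liminf_le hm2).trans ?_
    have hz : Tendsto (fun k => ENNReal.ofReal (4 * Real.pi) * ∫⁻ z, h k z ∂μ) atTop (𝓝 0) := by
      have := ENNReal.Tendsto.const_mul hlim (Or.inr (ENNReal.ofReal_ne_top (r := 4 * Real.pi)))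
      rwa [mul_zero] at this
    rw [← hz.liminf_eq]
    exact liminf_le_liminf (Eventually.of_forall fun k => slice_le μ (hh k))
  rw [nonpos_iff_eq_zero, lintegral_eq_zero_iff (Measurable.liminf hm2)] at hF
  filter_upwards [hF] with θ hθ
  exact hθ

end slice

end Pool.Agent.Q171.SUC
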