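import Pool.Agent.Q171.SUC.Rep
import Pool.Agent.Q171.SUC.Slice

set_option autoImplicit false

open MeasureTheory Set Filter Topology Metric
open scoped ENNReal ContDiff ComplexConjugate

namespace Pool.Agent.Q171.SUC

theorem pk_int {ε R : ℝ} (hε : 0 < ε) (N : ℕ) {ζ : ℂ} (h1 : ε ≤ ‖ζ‖) (h2 : ‖ζ‖ < R) :
    ∫⁻ z in {z : ℂ | ε ≤ ‖z‖ ∧ ‖z‖ < R}, pk N z ζ ≤
      ENNReal.ofReal ((R / ε) ^ N) * ∫⁻ t : ℂ in ball 0 (2 * R), ENNReal.ofReal (‖t‖ ^ (-1 : ℝ)) := by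
  have hR : 0 < R := (hε.trans_le h1).trans h2
  have hm : Measurable (fun t : ℂ => ENNReal.ofReal (‖t‖ ^ (-1 : ℝ))) := by fun_prop
  calc ∫⁻ z in {z : ℂ | ε ≤ ‖z‖ ∧ ‖z‖ < R}, pk N z ζ
      ≤ ∫⁻ z in {z : ℂ | ε ≤ ‖z‖ ∧ ‖z‖ < R}, ENNReal.ofReal ((R / ε) ^ N) *
          (ball (0 : ℂ) (2 * R)).indicator (fun t => ENNReal.ofReal (‖t‖ ^ (-1 : ℝ))) (z - ζ) := by
        apply setLIntegral_mono'
        · exact (measurableSet_le measurable_const measurable_norm).inter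
            (measurableSet_lt measurable_norm measurable_const)
        intro z hz
        rw [indicator_of_mem]
        · unfold pk
          rw [← ENNReal.ofReal_mul (by positivity)]
          apply ENNReal.ofReal_le_ofReal
          rw [Real.rpow_neg_one, div_pow, div_eq_mul_inv, div_eq_mul_inv, mul_inv, ← mul_assoc]
          gcongr
          exact hz.2.le
        · rw [mem_ball_zero_iff]
          have := norm_sub_le z ζ
          linarith [hz.2]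
    _ ≤ ∫⁻ z, ENNReal.ofReal ((R / ε) ^ N) *
          (ball (0 : ℂ) (2 * R)).indicator (fun t => ENNReal.ofReal (‖t‖ ^ (-1 : ℝ))) (z - ζ) :=
        setLIntegral_le_lintegral _ _
    _ = _ := by
        rw [lintegral_const_mul' _ _ ENNReal.ofReal_ne_top]
        congr 1
        rw [lintegral_sub_right_eq_self (μ := (volume : Measure ℂ)) (fun t : ℂ =>
          (ball (0 : ℂ) (2 * R)).indicator (fun t => ENNReal.ofReal (‖t‖ ^ (-1 : ℝ))) t) ζ,
          lintegral_indicator measurableSet_ball]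

/-- comparison of measures on an annulus -/
theorem ann_le {h : ℂ → ℝ≥0∞} (hh : Measurable h) {ε R : ℝ} (hε : 0 < ε) (e : ℕ) :
    ∫⁻ ζ in {z : ℂ | ε ≤ ‖z‖ ∧ ‖z‖ < R}, h ζ ≤
      ENNReal.ofReal (R ^ 2 * (ε ^ e)⁻¹) *
        ∫⁻ ζ in ball 0 R, ENNReal.ofReal (‖ζ‖ ^ e) * h ζ ∂mu := by
  have hmA : MeasurableSet {z : ℂ | ε ≤ ‖z‖ ∧ ‖z‖ < R} :=
    (measurableSet_le measurable_const measurable_norm).inter
      (measurableSet_lt measurable_norm measurable_const)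
  have hm : Measurable (fun ζ : ℂ => ENNReal.ofReal (‖ζ‖ ^ e) * h ζ) :=
    (by fun_prop : Measurable (fun ζ : ℂ => ENNReal.ofReal (‖ζ‖ ^ e))).mul hh
  rw [← lintegral_indicator hmA, ← lintegral_indicator measurableSet_ball,
    lintegral_mu (hm.indicator measurableSet_ball), ← lintegral_const_mul' _ _ ENNReal.ofReal_ne_top]
  apply lintegral_mono
  intro ζ
  simp only
  by_cases hζ : ζ ∈ {z : ℂ | ε ≤ ‖z‖ ∧ ‖z‖ < R}
  · rw [indicator_of_mem hζ, indicator_of_mem (show ζ ∈ ball (0 : ℂ) R by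
      rw [mem_ball_zero_iff]; exact hζ.2)]
    have hζ0 : 0 < ‖ζ‖ := hε.trans_le hζ.1
    have hR : 0 < R := hζ0.trans hζ.2
    rw [← mul_assoc, ← mul_assoc, ← ENNReal.ofReal_mul (by positivity),
      ← ENNReal.ofReal_mul (by positivity)]
    have h1 : (1 : ℝ) ≤ R ^ 2 * (ε ^ e)⁻¹ * (‖ζ‖ ^ 2)⁻¹ * ‖ζ‖ ^ e := by
      have e1 : (1 : ℝ) ≤ R ^ 2 * (‖ζ‖ ^ 2)⁻¹ := by
        rw [← div_eq_mul_inv, le_div_iff₀ (by positivity), one_mul]
        exact pow_le_pow_left₀ hζ0.le hζ.2.le 2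
      have e2 : (1 : ℝ) ≤ (ε ^ e)⁻¹ * ‖ζ‖ ^ e := by
        rw [mul_comm, ← div_eq_mul_inv, le_div_iff₀ (by positivity), one_mul]
        exact pow_le_pow_left₀ hε.le hζ.1 e
      calc (1 : ℝ) ≤ (R ^ 2 * (‖ζ‖ ^ 2)⁻¹) * ((ε ^ e)⁻¹ * ‖ζ‖ ^ e) := one_le_mul_of_one_le_of_one_le e1 e2
        _ = _ := by ring
    calc h ζ = 1 * h ζ := (one_mul _).symm
      _ ≤ _ := by
        gcongr
        rw [← ENNReal.ofReal_one]
        exact ENNReal.ofReal_le_ofReal h1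
  · rw [indicator_of_notMem hζ]; exact bot_le

section

variable {F : Type*} [NormedAddCommGroup F] [NormedSpace ℂ F] [FiniteDimensional ℂ F]
  [MeasurableSpace F] [BorelSpace F]

theorem measurable_db {f : ℂ → F} (hf : ContDiff ℝ ∞ f) : Measurable (db f) := by
  have hc : Continuous (fderiv ℝ f) := hf.continuous_fderiv (by simp)
  have : Continuous (db f) := by
    unfold db
    exact ((hc.clm_apply continuous_const).add
      ((hc.clm_apply continuous_const).const_smul Complex.I)).const_smul _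
  exact this.measurable

theorem rep_limit {fk : ℕ → ℂ → F} (hf : ∀ k, ContDiff ℝ ∞ (fk k)) {u v : ℂ → F}
    (hu : Measurable u) (hv : Measurable v) (e : ℕ) {R : ℝ}
    (hlim : liminf (fun k => ∫⁻ ζ in ball 0 R, ENNReal.ofReal (‖ζ‖ ^ e) *
      (‖fk k ζ - u ζ‖ₑ + ‖db (fk k) ζ - v ζ‖ₑ) ∂mu) atTop = 0)
    {η : ℂ → ℝ} (hη : ContDiff ℝ ∞ η) (hηc : HasCompactSupport η)
    (h0 : tsupport η ⊆ {ζ | 0 < ‖ζ‖ ∧ ‖ζ‖ < R}) (N : ℕ) :
    ∀ᵐ z, ‖η z‖ₑ * ‖u z‖ₑ ≤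
      ∫⁻ ζ, pk N z ζ * (‖η ζ‖ₑ * ‖v ζ‖ₑ + ‖fderiv ℝ η ζ‖ₑ * ‖u ζ‖ₑ) := by
  have hF2 : SecondCountableTopology F := by
    have : FiniteDimensional ℝ F := FiniteDimensional.complexToReal F
    infer_instance
  -- the support is in an annulus
  obtain ⟨ε, hε, hεη⟩ : ∃ ε > 0, ∀ ζ ∈ tsupport η, ε ≤ ‖ζ‖ := by
    rcases (tsupport η).eq_empty_or_nonempty with he | hne
    · exact ⟨1, one_pos, fun ζ hζ => by rw [he] at hζ; exact absurd hζ (notMem_empty _)⟩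
    · obtain ⟨ζ0, hζ0, hmin⟩ := hηc.isCompact.exists_isMinOn hne continuous_norm.continuousOn
      exact ⟨‖ζ0‖, (h0 hζ0).1, fun ζ hζ => hmin hζ⟩
  set A : Set ℂ := {z : ℂ | ε ≤ ‖z‖ ∧ ‖z‖ < R} with hA
  have hAm : MeasurableSet A := (measurableSet_le measurable_const measurable_norm).inter
      (measurableSet_lt measurable_norm measurable_const)
  have hηA : tsupport η ⊆ A := fun ζ hζ => ⟨hεη ζ hζ, (h0 hζ).2⟩
  obtain ⟨M0, hM0⟩ := hηc.exists_bound_of_continuous hη.continuous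
  obtain ⟨M1, hM1n, hM1⟩ := fderiv_bound hη hηc
  set M := max M0 M1 with hM
  set d : ℕ → ℂ → ℝ≥0∞ := fun k ζ => ‖fk k ζ - u ζ‖ₑ + ‖db (fk k) ζ - v ζ‖ₑ with hd
  have hdm : ∀ k, Measurable (d k) := fun k =>
    (((hf k).continuous.measurable.sub hu).enorm).add (((measurable_db (hf k)).sub hv).enorm)
  have hηb : ∀ ζ, ‖η ζ‖ₑ ≤ ENNReal.ofReal M * A.indicator 1 ζ := by
    intro ζ
    by_cases hζ : ζ ∈ tsupport η
    · rw [indicator_of_mem (hηA hζ), Pi.one_apply, mul_one, ← ofReal_norm]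
      exact ENNReal.ofReal_le_ofReal ((hM0 ζ).trans (le_max_left _ _))
    · rw [image_eq_zero_of_notMem_tsupport hζ]; simp
  have hfdb : ∀ ζ, ‖fderiv ℝ η ζ‖ₑ ≤ ENNReal.ofReal M * A.indicator 1 ζ := by
    intro ζ
    by_cases hζ : ζ ∈ tsupport η
    · rw [indicator_of_mem (hηA hζ), Pi.one_apply, mul_one, ← ofReal_norm]
      exact ENNReal.ofReal_le_ofReal ((hM1 ζ).trans (le_max_right _ _))
    · have hz : fderiv ℝ η ζ = 0 := by
        by_contra hne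
        exact hζ (support_fderiv_subset ℝ hne)
      rw [hz, ← ofReal_norm (0 : ℂ →L[ℝ] ℝ), norm_zero, ENNReal.ofReal_zero]; exact bot_le
  -- the error
  set E : ℕ → ℂ → ℝ≥0∞ := fun k z => ENNReal.ofReal M * d k z +
    ∫⁻ ζ, pk N z ζ * (ENNReal.ofReal M * A.indicator 1 ζ * d k ζ) with hE
  set RHS : ℂ → ℝ≥0∞ := fun z =>
    ∫⁻ ζ, pk N z ζ * (‖η ζ‖ₑ * ‖v ζ‖ₑ + ‖fderiv ℝ η ζ‖ₑ * ‖u ζ‖ₑ) with hRHS
  have mη : Measurable (fun ζ => ‖η ζ‖ₑ) := hη.continuous.enorm.measurable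
  have mfη : Measurable (fun ζ => ‖fderiv ℝ η ζ‖ₑ) :=
    (hη.continuous_fderiv (by simp)).enorm.measurable
  have hmA1 : Measurable (A.indicator (1 : ℂ → ℝ≥0∞)) := measurable_one.indicator hAm
  have hmM : ∀ k, Measurable (fun ζ => ENNReal.ofReal M * A.indicator 1 ζ * d k ζ) := fun k =>
    (hmA1.const_mul _).mul (hdm k)
  have key : ∀ k z, ‖η z‖ₑ * ‖u z‖ₑ ≤ RHS z + E k z := by
    intro k z
    have h1 := rep_smooth (hf k) hη hηc (fun ζ hζ => (h0 hζ).1) N z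
    have hu1 : ‖u z‖ₑ ≤ ‖fk k z‖ₑ + ‖fk k z - u z‖ₑ := by
      have : u z = fk k z - (fk k z - u z) := by abel
      calc ‖u z‖ₑ = ‖fk k z - (fk k z - u z)‖ₑ := by rw [← this]
        _ ≤ _ := enorm_sub_le
    have hsum : ∫⁻ ζ, pk N z ζ * (‖η ζ‖ₑ * ‖db (fk k) ζ‖ₑ + ‖fderiv ℝ η ζ‖ₑ * ‖fk k ζ‖ₑ) ≤
        RHS z + ∫⁻ ζ, pk N z ζ * (ENNReal.ofReal M * A.indicator 1 ζ * d k ζ) := by
      rw [hRHS]
      have hmR : Measurable (fun ζ => pk N z ζ * (‖η ζ‖ₑ * ‖v ζ‖ₑ + ‖fderiv ℝ η ζ‖ₑ * ‖u ζ‖ₑ)) :=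
        ((measurable_pk N).of_uncurry_left).mul ((mη.mul hv.enorm).add (mfη.mul hu.enorm))
      simp only
      rw [← lintegral_add_left hmR]
      apply lintegral_mono
      intro ζ
      simp only
      rw [← mul_add]
      gcongr pk N z ζ * ?_
      have a1 : ‖db (fk k) ζ‖ₑ ≤ ‖v ζ‖ₑ + ‖db (fk k) ζ - v ζ‖ₑ := by
        calc ‖db (fk k) ζ‖ₑ = ‖v ζ + (db (fk k) ζ - v ζ)‖ₑ := by congr 1; abel
          _ ≤ _ := enorm_add_le _ _
      have a2 : ‖fk k ζ‖ₑ ≤ ‖u ζ‖ₑ + ‖fk k ζ - u ζ‖ₑ := by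
        calc ‖fk k ζ‖ₑ = ‖u ζ + (fk k ζ - u ζ)‖ₑ := by congr 1; abel
          _ ≤ _ := enorm_add_le _ _
      calc ‖η ζ‖ₑ * ‖db (fk k) ζ‖ₑ + ‖fderiv ℝ η ζ‖ₑ * ‖fk k ζ‖ₑ
          ≤ ‖η ζ‖ₑ * (‖v ζ‖ₑ + ‖db (fk k) ζ - v ζ‖ₑ) +
            ‖fderiv ℝ η ζ‖ₑ * (‖u ζ‖ₑ + ‖fk k ζ - u ζ‖ₑ) := by gcongr
        _ = (‖η ζ‖ₑ * ‖v ζ‖ₑ + ‖fderiv ℝ η ζ‖ₑ * ‖u ζ‖ₑ) +
            (‖η ζ‖ₑ * ‖db (fk k) ζ - v ζ‖ₑ + ‖fderiv ℝ η ζ‖ₑ * ‖fk k ζ - u ζ‖ₑ) := by ring
        _ ≤ (‖η ζ‖ₑ * ‖v ζ‖ₑ + ‖fderiv ℝ η ζ‖ₑ * ‖u ζ‖ₑ) +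
            ((ENNReal.ofReal M * A.indicator 1 ζ) * ‖db (fk k) ζ - v ζ‖ₑ +
              (ENNReal.ofReal M * A.indicator 1 ζ) * ‖fk k ζ - u ζ‖ₑ) := by
            gcongr
            · exact hηb ζ
            · exact hfdb ζ
        _ = _ := by simp only [hd]; ring
    calc ‖η z‖ₑ * ‖u z‖ₑ ≤ ‖η z‖ₑ * (‖fk k z‖ₑ + ‖fk k z - u z‖ₑ) := by gcongr
      _ = ‖η z‖ₑ * ‖fk k z‖ₑ + ‖η z‖ₑ * ‖fk k z - u z‖ₑ := by ring
      _ ≤ (RHS z + ∫⁻ ζ, pk N z ζ * (ENNReal.ofReal M * A.indicator 1 ζ * d k ζ)) +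
          ENNReal.ofReal M * d k z := by
          gcongr
          · exact h1.trans hsum
          · have := hηb z
            refine this.trans ?_
            by_cases hz : z ∈ A
            · rw [indicator_of_mem hz]; simp
            · rw [indicator_of_notMem hz]; simp
          · simp only [hd]; exact le_self_add
      _ = RHS z + E k z := by simp only [hE]; ring
  have hmE2 : ∀ k, Measurable (fun p : ℂ × ℂ => pk N p.1 p.2 * (ENNReal.ofReal M * A.indicator 1 p.2 * d k p.2)) :=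
    fun k => (measurable_pk N).mul ((hmM k).comp measurable_snd)
  have hEm : ∀ k, Measurable (E k) := fun k =>
    ((hdm k).const_mul _).add (hmE2 k).lintegral_prod_right'
  -- integral bound of the error
  set κ1 := ∫⁻ t : ℂ in ball 0 (2 * R), ENNReal.ofReal (‖t‖ ^ (-1 : ℝ)) with hκ1
  have hκ1t : κ1 < ⊤ := pow_int (by norm_num) _
  set Cst : ℝ≥0∞ := ENNReal.ofReal M * (1 + ENNReal.ofReal ((R / ε) ^ N) * κ1) *
    ENNReal.ofReal (R ^ 2 * (ε ^ e)⁻¹) with hCst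
  have hCt : Cst ≠ ⊤ := by
    apply ne_of_lt
    rw [hCst]
    apply ENNReal.mul_lt_top _ ENNReal.ofReal_lt_top
    apply ENNReal.mul_lt_top ENNReal.ofReal_lt_top
    apply ENNReal.add_lt_top.mpr ⟨ENNReal.one_lt_top, _⟩
    exact ENNReal.mul_lt_top ENNReal.ofReal_lt_top hκ1t
  have hEint : ∀ k, ∫⁻ z in A, E k z ≤ Cst * ∫⁻ ζ in ball 0 R, ENNReal.ofReal (‖ζ‖ ^ e) * d k ζ ∂mu := by
    intro k
    have h1 : ∫⁻ z in A, ∫⁻ ζ, pk N z ζ * (ENNReal.ofReal M * A.indicator 1 ζ * d k ζ) ≤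
        ENNReal.ofReal M * (ENNReal.ofReal ((R / ε) ^ N) * κ1) * ∫⁻ ζ in A, d k ζ := by
      rw [lintegral_lintegral_swap (hmE2 k).aemeasurable]
      rw [← lintegral_indicator hAm, ← lintegral_const_mul' _ _ (by
        apply ne_of_lt
        exact ENNReal.mul_lt_top ENNReal.ofReal_lt_top (ENNReal.mul_lt_top ENNReal.ofReal_lt_top hκ1t))]
      apply lintegral_mono
      intro ζ
      simp only
      rw [lintegral_mul_const _ ((measurable_pk N).of_uncurry_right)]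
      by_cases hζ : ζ ∈ A
      · rw [indicator_of_mem hζ, indicator_of_mem hζ, Pi.one_apply, mul_one]
        calc (∫⁻ z in A, pk N z ζ) * (ENNReal.ofReal M * d k ζ)
            ≤ (ENNReal.ofReal ((R / ε) ^ N) * κ1) * (ENNReal.ofReal M * d k ζ) := by
              gcongr
              exact pk_int hε N hζ.1 hζ.2
          _ = _ := by ring
      · rw [indicator_of_notMem hζ, indicator_of_notMem hζ]; simp
    calc ∫⁻ z in A, E k z = (∫⁻ z in A, ENNReal.ofReal M * d k z) +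
          ∫⁻ z in A, ∫⁻ ζ, pk N z ζ * (ENNReal.ofReal M * A.indicator 1 ζ * d k ζ) := by
          simp only [hE]
          rw [lintegral_add_left ((hdm k).const_mul _)]
      _ ≤ ENNReal.ofReal M * (∫⁻ z in A, d k z) +
          ENNReal.ofReal M * (ENNReal.ofReal ((R / ε) ^ N) * κ1) * ∫⁻ ζ in A, d k ζ := by
          rw [lintegral_const_mul _ (hdm k)]
          gcongr
      _ = ENNReal.ofReal M * (1 + ENNReal.ofReal ((R / ε) ^ N) * κ1) * (∫⁻ z in A, d k z) := by ring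
      _ ≤ ENNReal.ofReal M * (1 + ENNReal.ofReal ((R / ε) ^ N) * κ1) *
          (ENNReal.ofReal (R ^ 2 * (ε ^ e)⁻¹) *
          ∫⁻ ζ in ball 0 R, ENNReal.ofReal (‖ζ‖ ^ e) * d k ζ ∂mu) := by
          gcongr
          exact ann_le (hdm k) hε e
      _ = _ := by rw [hCst]; ring
  have hlimE : ∫⁻ z in A, liminf (fun k => E k z) atTop = 0 := by
    refine le_antisymm ?_ bot_le
    refine (lintegral_liminf_le hEm).trans ?_
    -- `liminf (C * x_k) = C * liminf x_k`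
    have hfr : ∀ δ : ℝ≥0∞, 0 < δ → liminf (fun k => ∫⁻ z in A, E k z) atTop ≤ δ := by
      intro δ hδ
      rcases eq_or_ne Cst 0 with hc | hc
      · have : ∀ k, ∫⁻ z in A, E k z ≤ 0 := fun k => by
          have := hEint k
          rwa [hc, zero_mul] at this
        have h2 : (fun k => ∫⁻ z in A, E k z) = fun _ => 0 := by
          funext k; exact le_antisymm (this k) bot_le
        rw [h2, liminf_const]; exact bot_le
      · have hδ' : (0 : ℝ≥0∞) < δ / Cst := ENNReal.div_pos hδ.ne' hCt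
        have hfreq := frequently_lt_of_liminf_lt (by isBoundedDefault) (hlim.trans_lt hδ')
        apply liminf_le_of_frequently_le'
        refine hfreq.mono (fun k hk => ?_)
        calc ∫⁻ z in A, E k z ≤ Cst * (δ / Cst) := (hEint k).trans (by gcongr)
          _ = δ := ENNReal.mul_div_cancel hc hCt
    exact le_of_forall_gt_imp_ge_of_dense fun δ hδ => hfr δ hδ
  rw [lintegral_eq_zero_iff (Measurable.liminf hEm)] at hlimE
  rw [EventuallyEq, ae_restrict_iff' hAm] at hlimE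
  filter_upwards [hlimE] with z hz
  by_cases hzA : z ∈ A
  · have hz' := hz hzA
    simp only [Pi.zero_apply] at hz'
    apply ENNReal.le_of_forall_pos_le_add
    intro δ hδ _
    have hδ' : (0 : ℝ≥0∞) < δ := by exact_mod_cast hδ
    have hfreq := frequently_lt_of_liminf_lt (by isBoundedDefault) (hz'.trans_lt hδ')
    obtain ⟨k, hk⟩ := hfreq.exists
    exact (key k z).trans (by gcongr)
  · have : η z = 0 := image_eq_zero_of_notMem_tsupport (fun h => hzA (hηA h))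
    rw [this]; simp

end

end Pool.Agent.Q171.SUC
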