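import Pool.Agent.Q171.SUC.Carl

set_option autoImplicit false

open MeasureTheory Set Filter Topology Metric
open scoped ENNReal ContDiff

namespace Pool.Agent.Q171.SUC

noncomputable def Nm (p : ℝ) (f : ℂ → ℝ≥0∞) : ℝ≥0∞ := (∫⁻ ζ, f ζ ^ p ∂mu) ^ (1 / p)

theorem Nm_mono {p : ℝ} (hp : 0 < p) {f g : ℂ → ℝ≥0∞} (h : ∀ᵐ ζ ∂mu, f ζ ≤ g ζ) :
    Nm p f ≤ Nm p g := by
  unfold Nm
  gcongr ?_ ^ (1 / p)
  apply lintegral_mono_ae
  filter_upwards [h] with ζ hζ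
  gcongr

theorem Nm_add {p : ℝ} (hp : 1 ≤ p) {f g : ℂ → ℝ≥0∞} (hf : Measurable f) (hg : Measurable g) :
    Nm p (fun ζ => f ζ + g ζ) ≤ Nm p f + Nm p g :=
  ENNReal.lintegral_Lp_add_le hf.aemeasurable hg.aemeasurable hp

theorem Nm_const_mul {p : ℝ} (hp : 0 < p) {f : ℂ → ℝ≥0∞} (hf : Measurable f) (M : ℝ≥0∞) :
    Nm p (fun ζ => M * f ζ) = M * Nm p f := by
  unfold Nm
  have : ∀ ζ, (M * f ζ) ^ p = M ^ p * f ζ ^ p := fun ζ => ENNReal.mul_rpow_of_nonneg _ _ hp.le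
  simp_rw [this]
  rw [lintegral_const_mul _ (hf.pow_const p), ENNReal.mul_rpow_of_nonneg _ _ (by positivity),
    ← ENNReal.rpow_mul]
  have : p * (1 / p) = 1 := by field_simp
  rw [this, ENNReal.rpow_one]

theorem Nm_holder {p q r : ℝ} (hp : 0 < p) (hpr : p < r) (h : 1 / p = 1 / r + 1 / q)
    {f g : ℂ → ℝ≥0∞} (hf : Measurable f) (hg : Measurable g) :
    Nm p (fun ζ => f ζ * g ζ) ≤ Nm r f * Nm q g :=
  ENNReal.lintegral_Lp_mul_le_Lq_mul_Lr hp hpr h mu hf.aemeasurable hg.aemeasurable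

theorem Nm_eq_zero {p : ℝ} (hp : 0 < p) {f : ℂ → ℝ≥0∞} (hf : Measurable f) (h : Nm p f = 0) :
    ∀ᵐ ζ ∂mu, f ζ = 0 := by
  unfold Nm at h
  rw [ENNReal.rpow_eq_zero_iff_of_pos (by positivity),
    lintegral_eq_zero_iff (hf.pow_const p)] at h
  filter_upwards [h] with ζ hζ
  rwa [Pi.zero_apply, ENNReal.rpow_eq_zero_iff_of_pos hp] at hζ

theorem half_absorb {x y : ℝ≥0∞} (hx : x ≠ ⊤) (h : x ≤ 1 / 2 * x + y) : x ≤ 2 * y := by
  rcases eq_or_ne y ⊤ with hy | hy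
  · rw [hy]; simp
  lift x to NNReal using hx
  lift y to NNReal using hy
  have h' : (x : ℝ) ≤ 1 / 2 * x + y := by
    have : ((1 / 2 : ℝ≥0∞)) = ((1 / 2 : NNReal) : ℝ≥0∞) := by
      rw [ENNReal.coe_div (by norm_num)]; simp
    rw [this, ← ENNReal.coe_mul, ← ENNReal.coe_add, ENNReal.coe_le_coe] at h
    have h2 : ((x : NNReal) : ℝ) ≤ ((1 / 2 * x + y : NNReal) : ℝ) := by exact_mod_cast h
    push_cast at h2
    exact h2
  have h3 : (x : ℝ) ≤ 2 * y := by linarith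
  have h4 : x ≤ 2 * y := by exact_mod_cast h3
  exact_mod_cast h4

theorem ae_of_ae_mu {P : ℂ → Prop} (h : ∀ᵐ z ∂mu, P z) : ∀ᵐ z, P z := by
  have h0 : ∀ᵐ ζ : ℂ, ζ ≠ 0 := by rw [ae_iff]; simp
  unfold mu at h
  rw [ae_withDensity_iff measurable_dens] at h
  filter_upwards [h, h0] with ζ h1 h2
  apply h1
  have : 0 < ‖ζ‖ := norm_pos_iff.mpr h2
  rw [ne_eq, ENNReal.ofReal_eq_zero, not_le]
  positivity

/-- the data on a complex line -/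
structure LineHyp (R p q r c : ℝ) (a b W : ℂ → ℝ≥0∞) : Prop where
  hp : 1 ≤ p
  hpq : p < q
  hpr : p < r
  hc0 : 0 < c
  hc2 : c < 2
  hcpq : 1 / c = 1 / q + (1 - 1 / p)
  hold : 1 / p = 1 / r + 1 / q
  ma : Measurable a
  mb : Measurable b
  mW : Measurable W
  rep : ∀ η : ℂ → ℝ, ContDiff ℝ ∞ η → HasCompactSupport η →
    tsupport η ⊆ {ζ | 0 < ‖ζ‖ ∧ ‖ζ‖ < R} → ∀ N : ℕ, ∀ᵐ z, ‖η z‖ₑ * a z ≤
      ∫⁻ ζ, pk N z ζ * (‖η ζ‖ₑ * b ζ + ‖fderiv ℝ η ζ‖ₑ * a ζ)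
  ineq : ∀ᵐ ζ, ‖ζ‖ < R → b ζ ≤ W ζ * a ζ
  intW : ∫⁻ ζ in ball 0 R, (‖ζ‖ₑ * W ζ) ^ r ∂mu < ⊤
  van : ∀ N : ℕ, ∃ ρ > 0, Nm p ((ball (0 : ℂ) ρ).indicator (fun ζ => wt N ζ * a ζ)) < ⊤
  inta : ∀ ε > 0, ∀ R' < R, Nm p ({ζ : ℂ | ε ≤ ‖ζ‖ ∧ ‖ζ‖ ≤ R'}.indicator a) < ⊤
  intb : ∀ ε > 0, ∀ R' < R, Nm p ({ζ : ℂ | ε ≤ ‖ζ‖ ∧ ‖ζ‖ ≤ R'}.indicator b) < ⊤

theorem measurableSet_ann (s t : ℝ) : MeasurableSet {ζ : ℂ | s ≤ ‖ζ‖ ∧ ‖ζ‖ ≤ t} :=
  (measurableSet_le measurable_const measurable_norm).inter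
    (measurableSet_le measurable_norm measurable_const)

theorem measurableSet_ann' (s t : ℝ) : MeasurableSet {ζ : ℂ | s ≤ ‖ζ‖ ∧ ‖ζ‖ < t} :=
  (measurableSet_le measurable_const measurable_norm).inter
    (measurableSet_lt measurable_norm measurable_const)

variable {R p q r c : ℝ} {a b W : ℂ → ℝ≥0∞}

/-- finiteness of norms of functions supported in an annulus -/
theorem fin_of_ann {p : ℝ} (hp : 0 < p) {f g : ℂ → ℝ≥0∞} (hg : Measurable g) {s t : ℝ}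
    (hfin : Nm p ({ζ : ℂ | s ≤ ‖ζ‖ ∧ ‖ζ‖ ≤ t}.indicator g) < ⊤) (M : ℝ≥0∞) (hM : M < ⊤)
    (h : ∀ ζ, f ζ ≤ M * ({ζ : ℂ | s ≤ ‖ζ‖ ∧ ‖ζ‖ ≤ t}.indicator g ζ)) : Nm p f < ⊤ := by
  refine lt_of_le_of_lt (Nm_mono hp (Eventually.of_forall h)) ?_
  rw [Nm_const_mul hp (hg.indicator (measurableSet_ann s t))]
  exact ENNReal.mul_lt_top hM hfin

theorem fderiv_bound {φ : ℂ → ℝ} (h : ContDiff ℝ ∞ φ) (hc : HasCompactSupport φ) :
    ∃ M : ℝ, 0 ≤ M ∧ ∀ ζ, ‖fderiv ℝ φ ζ‖ ≤ M := by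
  obtain ⟨M, hM⟩ := (hc.fderiv ℝ).exists_bound_of_continuous (h.continuous_fderiv (by simp))
  exact ⟨M, (norm_nonneg _).trans (hM 0), hM⟩

/-- the main estimate with cut-off functions -/
theorem est (h : LineHyp R p q r c a b W) {α β β1 ρ : ℝ} (hβ1 : 0 < β1)
    (hβ1β : β1 < β) (hβR : β < R) (hρ : 0 < ρ)
    (hvan : ∀ᵐ ζ : ℂ, ‖ζ‖ < α → a ζ = 0)
    (hsmall : kc c ^ (1 / c) *
      Nm r ({ζ : ℂ | α ≤ ‖ζ‖ ∧ ‖ζ‖ < β}.indicator (fun ζ => ‖ζ‖ₑ * W ζ)) ≤ 1 / 2)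
    (φ1 : ContDiffBump (0 : ℂ)) (h1in : φ1.rIn = β1) (h1out : φ1.rOut = β) (N : ℕ) (hN : 1 ≤ N) :
    Nm q ({ζ : ℂ | ρ ≤ ‖ζ‖ ∧ ‖ζ‖ ≤ β1}.indicator (fun ζ => wt (N - 1 / 2) ζ * a ζ)) ≤
      2 * (kc c ^ (1 / c) * Nm p (fun ζ => wt (N - 1 / 2) ζ * (‖ζ‖ₑ * (‖fderiv ℝ φ1 ζ‖ₑ * a ζ)))) := by
  have hp0 : 0 < p := by linarith [h.hp]
  have hq0 : 0 < q := by linarith [h.hp, h.hpq]
  set κ : ℝ := N - 1 / 2 with hκ
  set C := kc c ^ (1 / c) with hC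
  have hCtop : C < ⊤ := by
    rw [hC]
    exact ENNReal.rpow_lt_top_of_nonneg (by have := h.hc0; positivity) (kc_lt_top h.hc0 h.hc2).ne
  set φ0 : ContDiffBump (0 : ℂ) := ⟨1, 2, one_pos, one_lt_two⟩ with hφ0
  obtain ⟨M0, hM0n, hM0⟩ := fderiv_bound φ0.contDiff φ0.hasCompactSupport
  obtain ⟨M1, hM1n, hM1⟩ := fderiv_bound φ1.contDiff φ1.hasCompactSupport
  obtain ⟨ρ0, hρ0, hfin0⟩ := h.van (N + 1)
  set Y1 := Nm p (fun ζ => wt κ ζ * (‖ζ‖ₑ * (‖fderiv ℝ φ1 ζ‖ₑ * a ζ))) with hY1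
  set Z := Nm p ((ball (0 : ℂ) ρ0).indicator (fun ζ => wt ((N + 1 : ℕ) : ℝ) ζ * a ζ)) with hZ
  have mfd1 : Measurable (fun ζ => ‖fderiv ℝ φ1 ζ‖ₑ) :=
    ((φ1.contDiff (n := ⊤)).continuous_fderiv (by simp)).enorm.measurable
  -- estimate for each large `k`
  have key : ∀ k : ℕ, 0 < k → 2 / (k : ℝ) < min (min ρ ρ0) (min 1 β1) →
      Nm q ({ζ : ℂ | ρ ≤ ‖ζ‖ ∧ ‖ζ‖ ≤ β1}.indicator (fun ζ => wt κ ζ * a ζ)) ≤
        2 * (C * (Y1 + ENNReal.ofReal (2 * M0 * (2 / k)) * Z)) := by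
    intro k hk0 hk
    rw [lt_min_iff, lt_min_iff, lt_min_iff] at hk
    obtain ⟨⟨hkρ, hkρ0⟩, hk1, hkβ1⟩ := hk
    have hkpos : (0 : ℝ) < k := by exact_mod_cast hk0
    set ψ : ℂ → ℝ := fun ζ => 1 - φ0 ((k : ℝ) • ζ) with hψ
    set η : ℂ → ℝ := fun ζ => φ1 ζ * ψ ζ with hη
    have hψs : ContDiff ℝ ∞ ψ := contDiff_const.sub (φ0.contDiff.comp (contDiff_const_smul _))
    have hηs : ContDiff ℝ ∞ η := φ1.contDiff.mul hψs
    have hψ01 : ∀ ζ, 0 ≤ ψ ζ ∧ ψ ζ ≤ 1 := fun ζ => by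
      simp only [hψ]
      constructor
      · linarith [φ0.le_one (x := (k : ℝ) • ζ)]
      · linarith [φ0.nonneg (x := (k : ℝ) • ζ)]
    have hφ01 : ∀ ζ, 0 ≤ φ1 ζ ∧ φ1 ζ ≤ 1 := fun ζ => ⟨φ1.nonneg, φ1.le_one⟩
    have hψ0 : ∀ ζ : ℂ, ‖ζ‖ < 1 / k → ψ ζ = 0 := by
      intro ζ hζ
      simp only [hψ]
      rw [φ0.one_of_mem_closedBall, sub_self]
      rw [mem_closedBall_zero_iff, norm_smul, Real.norm_of_nonneg hkpos.le]
      rw [lt_div_iff₀ hkpos] at hζ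
      show (k : ℝ) * ‖ζ‖ ≤ 1
      linarith
    have hψ1 : ∀ ζ : ℂ, 2 / k ≤ ‖ζ‖ → ψ ζ = 1 := by
      intro ζ hζ
      simp only [hψ]
      rw [φ0.zero_of_le_dist, sub_zero]
      rw [dist_zero_right, norm_smul, Real.norm_of_nonneg hkpos.le]
      rw [div_le_iff₀ hkpos] at hζ
      show (2 : ℝ) ≤ (k : ℝ) * ‖ζ‖
      linarith
    have hη0 : ∀ ζ : ℂ, η ζ ≠ 0 → 1 / k ≤ ‖ζ‖ ∧ ‖ζ‖ ≤ β := by
      intro ζ hζ
      constructor
      · by_contra hcon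
        push Not at hcon
        apply hζ
        simp only [hη]
        rw [hψ0 ζ hcon, mul_zero]
      · by_contra hcon
        push Not at hcon
        apply hζ
        simp only [hη]
        rw [φ1.zero_of_le_dist, zero_mul]
        rw [dist_zero_right, h1out]; exact hcon.le
    have hηts : tsupport η ⊆ {ζ : ℂ | 1 / k ≤ ‖ζ‖ ∧ ‖ζ‖ ≤ β} := by
      apply closure_minimal (fun ζ hζ => hη0 ζ hζ)
      exact (isClosed_le continuous_const continuous_norm).inter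
        (isClosed_le continuous_norm continuous_const)
    have hηc : HasCompactSupport η := φ1.hasCompactSupport.mul_right
    have hηts' : tsupport η ⊆ {ζ | 0 < ‖ζ‖ ∧ ‖ζ‖ < R} := by
      intro ζ hζ
      have := hηts hζ
      exact ⟨lt_of_lt_of_le (by positivity) this.1, lt_of_le_of_lt this.2 hβR⟩
    -- derivative bounds
    have hfdψ : ∀ ζ, ‖fderiv ℝ ψ ζ‖ ≤ k * M0 ∧ (2 / k < ‖ζ‖ → fderiv ℝ ψ ζ = 0) := by
      intro ζ
      have hd : HasFDerivAt ψ (-((fderiv ℝ φ0 ((k : ℝ) • ζ)).comp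
          ((k : ℝ) • ContinuousLinearMap.id ℝ ℂ))) ζ := by
        have h1 : HasFDerivAt φ0 (fderiv ℝ φ0 ((k : ℝ) • ζ)) ((k : ℝ) • ζ) :=
          ((φ0.contDiff (n := ⊤)).differentiable (by simp) _).hasFDerivAt
        have h2 : HasFDerivAt (fun ζ : ℂ => (k : ℝ) • ζ) ((k : ℝ) • ContinuousLinearMap.id ℝ ℂ) ζ :=
          (hasFDerivAt_id ζ).const_smul (k : ℝ)
        exact (h1.comp ζ h2).const_sub 1
      rw [hd.fderiv]
      constructor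
      · rw [norm_neg]
        refine (ContinuousLinearMap.opNorm_comp_le _ _).trans ?_
        rw [norm_smul, Real.norm_of_nonneg hkpos.le]
        have := ContinuousLinearMap.norm_id_le (𝕜 := ℝ) (E := ℂ)
        have h3 := hM0 ((k : ℝ) • ζ)
        calc ‖fderiv ℝ φ0 ((k : ℝ) • ζ)‖ * (k * ‖ContinuousLinearMap.id ℝ ℂ‖)
            ≤ M0 * (k * 1) := by gcongr
          _ = k * M0 := by ring
      · intro hζ
        have hz : fderiv ℝ φ0 ((k : ℝ) • ζ) = 0 := by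
          have hnot : (k : ℝ) • ζ ∉ tsupport φ0 := by
            rw [φ0.tsupport_eq, mem_closedBall_zero_iff, norm_smul,
              Real.norm_of_nonneg hkpos.le, not_le]
            rw [div_lt_iff₀ hkpos] at hζ
            show (2 : ℝ) < k * ‖ζ‖
            linarith
          by_contra hne
          exact hnot (support_fderiv_subset ℝ hne)
        rw [hz]; simp
    have hfdη : ∀ ζ, ‖fderiv ℝ η ζ‖ₑ ≤ ‖fderiv ℝ φ1 ζ‖ₑ + ‖fderiv ℝ ψ ζ‖ₑ := by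
      intro ζ
      have hd : fderiv ℝ η ζ = φ1 ζ • fderiv ℝ ψ ζ + ψ ζ • fderiv ℝ φ1 ζ := by
        simp only [hη]
        exact fderiv_fun_mul ((φ1.contDiff (n := ⊤)).differentiable (by simp) ζ)
          (hψs.differentiable (by simp) ζ)
      rw [hd, ← ofReal_norm, ← ofReal_norm, ← ofReal_norm, ← ENNReal.ofReal_add (norm_nonneg _)
        (norm_nonneg _)]
      apply ENNReal.ofReal_le_ofReal
      refine (norm_add_le _ _).trans ?_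
      rw [norm_smul, norm_smul, Real.norm_of_nonneg (hφ01 ζ).1, Real.norm_of_nonneg (hψ01 ζ).1]
      nlinarith [norm_nonneg (fderiv ℝ ψ ζ), norm_nonneg (fderiv ℝ φ1 ζ), (hφ01 ζ).2, (hψ01 ζ).2,
        (hφ01 ζ).1, (hψ01 ζ).1]
    have mη : Measurable (fun ζ => ‖η ζ‖ₑ) := hηs.continuous.enorm.measurable
    have mfη : Measurable (fun ζ => ‖fderiv ℝ η ζ‖ₑ) :=
      (hηs.continuous_fderiv (by simp)).enorm.measurable
    have mfψ : Measurable (fun ζ => ‖fderiv ℝ ψ ζ‖ₑ) :=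
      (hψs.continuous_fderiv (by simp)).enorm.measurable
    have mwt := measurable_wt κ
    have mn : Measurable (fun ζ : ℂ => ‖ζ‖ₑ) := measurable_enorm
    have ma := h.ma
    have mb := h.mb
    have mW := h.mW
    -- Carleman
    have mg : Measurable (fun ζ => ‖η ζ‖ₑ * b ζ + ‖fderiv ℝ η ζ‖ₑ * a ζ) :=
      (mη.mul mb).add (mfη.mul ma)
    set X := Nm q (fun z => wt κ z * (‖η z‖ₑ * a z)) with hX
    have hcar : X ≤ C * Nm p (fun ζ => wt κ ζ * (‖ζ‖ₑ *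
        (‖η ζ‖ₑ * b ζ + ‖fderiv ℝ η ζ‖ₑ * a ζ))) :=
      carleman h.hc0 h.hp h.hpq h.hcpq mg N (h.rep η hηs hηc hηts' N)
    have hsplit : Nm p (fun ζ => wt κ ζ * (‖ζ‖ₑ *
        (‖η ζ‖ₑ * b ζ + ‖fderiv ℝ η ζ‖ₑ * a ζ))) ≤
        Nm p (fun ζ => wt κ ζ * (‖ζ‖ₑ * (‖η ζ‖ₑ * b ζ))) +
        Nm p (fun ζ => wt κ ζ * (‖ζ‖ₑ * (‖fderiv ℝ η ζ‖ₑ * a ζ))) := by
      refine le_trans (le_of_eq ?_) (Nm_add h.hp (mwt.mul (mn.mul (mη.mul mb)))
        (mwt.mul (mn.mul (mfη.mul ma))))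
      congr 1
      funext ζ
      ring
    -- finiteness
    have hwtb : ∀ ζ : ℂ, 1 / (k : ℝ) ≤ ‖ζ‖ → wt κ ζ ≤ ENNReal.ofReal ((1 / (k : ℝ)) ^ (-κ)) := by
      intro ζ hζ
      unfold wt
      apply ENNReal.ofReal_le_ofReal
      apply Real.rpow_le_rpow_of_nonpos (by positivity) hζ
      have : (1 : ℝ) ≤ N := by exact_mod_cast hN
      rw [hκ]; linarith
    have hfin1 : Nm p (fun ζ => wt κ ζ * (‖ζ‖ₑ * (‖η ζ‖ₑ * b ζ))) < ⊤ := by
      apply fin_of_ann hp0 mb (h.intb (1 / k) (by positivity) β hβR)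
        (ENNReal.ofReal ((1 / (k : ℝ)) ^ (-κ)) * (ENNReal.ofReal β * 1)) (by
          apply ENNReal.mul_lt_top ENNReal.ofReal_lt_top
          rw [mul_one]; exact ENNReal.ofReal_lt_top)
      intro ζ
      by_cases hz : η ζ = 0
      · rw [hz]; simp
      · obtain ⟨hz1, hz2⟩ := hη0 ζ hz
        rw [indicator_of_mem (show ζ ∈ {ζ : ℂ | 1 / (k : ℝ) ≤ ‖ζ‖ ∧ ‖ζ‖ ≤ β} from ⟨hz1, hz2⟩)]
        rw [mul_assoc, mul_assoc]
        gcongr
        · exact hwtb ζ hz1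
        · rw [← ofReal_norm]; exact ENNReal.ofReal_le_ofReal hz2
        · rw [← ofReal_norm, ← ENNReal.ofReal_one]
          apply ENNReal.ofReal_le_ofReal
          rw [Real.norm_of_nonneg (mul_nonneg (hφ01 ζ).1 (hψ01 ζ).1)]
          exact mul_le_one₀ (hφ01 ζ).2 (hψ01 ζ).1 (hψ01 ζ).2
    have hfdη0 : ∀ ζ, fderiv ℝ η ζ ≠ 0 → 1 / k ≤ ‖ζ‖ ∧ ‖ζ‖ ≤ β := fun ζ hζ =>
      hηts (support_fderiv_subset ℝ hζ)
    obtain ⟨M2, hM2n, hM2⟩ := fderiv_bound hηs hηc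
    have hfin2 : Nm p (fun ζ => wt κ ζ * (‖ζ‖ₑ * (‖fderiv ℝ η ζ‖ₑ * a ζ))) < ⊤ := by
      apply fin_of_ann hp0 ma (h.inta (1 / k) (by positivity) β hβR)
        (ENNReal.ofReal ((1 / (k : ℝ)) ^ (-κ)) * (ENNReal.ofReal β * ENNReal.ofReal M2))
        (ENNReal.mul_lt_top ENNReal.ofReal_lt_top
          (ENNReal.mul_lt_top ENNReal.ofReal_lt_top ENNReal.ofReal_lt_top))
      intro ζ
      by_cases hz : fderiv ℝ η ζ = 0
      · rw [hz, ← ofReal_norm (0 : ℂ →L[ℝ] ℝ), norm_zero, ENNReal.ofReal_zero, zero_mul, mul_zero,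
          mul_zero]
        exact bot_le
      · obtain ⟨hz1, hz2⟩ := hfdη0 ζ hz
        rw [indicator_of_mem (show ζ ∈ {ζ : ℂ | 1 / (k : ℝ) ≤ ‖ζ‖ ∧ ‖ζ‖ ≤ β} from ⟨hz1, hz2⟩)]
        rw [mul_assoc, mul_assoc]
        gcongr
        · exact hwtb ζ hz1
        · rw [← ofReal_norm]; exact ENNReal.ofReal_le_ofReal hz2
        · rw [← ofReal_norm]; exact ENNReal.ofReal_le_ofReal (hM2 ζ)
    have hXtop : X ≠ ⊤ := by
      apply ne_of_lt
      refine lt_of_le_of_lt (hcar.trans (mul_le_mul_right hsplit _)) ?_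
      exact ENNReal.mul_lt_top hCtop (ENNReal.add_lt_top.mpr ⟨hfin1, hfin2⟩)
    -- first term
    have hT1 : Nm p (fun ζ => wt κ ζ * (‖ζ‖ₑ * (‖η ζ‖ₑ * b ζ))) ≤
        Nm r ({ζ : ℂ | α ≤ ‖ζ‖ ∧ ‖ζ‖ < β}.indicator (fun ζ => ‖ζ‖ₑ * W ζ)) * X := by
      refine le_trans (Nm_mono hp0 ?_) (Nm_holder hp0 h.hpr h.hold
        ((mn.mul mW).indicator (measurableSet_ann' α β)) (mwt.mul (mη.mul ma)))
      filter_upwards [ae_mu_of_ae h.ineq, ae_mu_of_ae hvan] with ζ h1 h2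
      by_cases hz : η ζ = 0
      · rw [hz]; simp
      · obtain ⟨hz1, hz2⟩ := hη0 ζ hz
        have hzβ : ‖ζ‖ < β := by
          rcases eq_or_lt_of_le hz2 with he | he
          · exfalso
            apply hz
            simp only [hη]
            rw [φ1.zero_of_le_dist, zero_mul]
            rw [dist_zero_right, h1out, he]
          · exact he
        have h1' := h1 (hzβ.trans hβR)
        by_cases hα : α ≤ ‖ζ‖
        · rw [indicator_of_mem (show ζ ∈ {ζ : ℂ | α ≤ ‖ζ‖ ∧ ‖ζ‖ < β} from ⟨hα, hzβ⟩)]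
          calc wt κ ζ * (‖ζ‖ₑ * (‖η ζ‖ₑ * b ζ)) ≤ wt κ ζ * (‖ζ‖ₑ * (‖η ζ‖ₑ * (W ζ * a ζ))) := by
                gcongr
            _ = ‖ζ‖ₑ * W ζ * (wt κ ζ * (‖η ζ‖ₑ * a ζ)) := by ring
        · push Not at hα
          rw [h2 hα, mul_zero] at h1'
          rw [le_zero_iff.mp h1']
          simp
    -- second term
    have hT2 : Nm p (fun ζ => wt κ ζ * (‖ζ‖ₑ * (‖fderiv ℝ η ζ‖ₑ * a ζ))) ≤
        Y1 + ENNReal.ofReal (2 * M0 * (2 / k)) * Z := by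
      calc Nm p (fun ζ => wt κ ζ * (‖ζ‖ₑ * (‖fderiv ℝ η ζ‖ₑ * a ζ)))
          ≤ Nm p (fun ζ => wt κ ζ * (‖ζ‖ₑ * (‖fderiv ℝ φ1 ζ‖ₑ * a ζ)) +
              wt κ ζ * (‖ζ‖ₑ * (‖fderiv ℝ ψ ζ‖ₑ * a ζ))) := by
            apply Nm_mono hp0
            filter_upwards with ζ
            rw [← mul_add, ← mul_add, ← add_mul]
            gcongr
            exact hfdη ζ
        _ ≤ Y1 + Nm p (fun ζ => wt κ ζ * (‖ζ‖ₑ * (‖fderiv ℝ ψ ζ‖ₑ * a ζ))) :=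
            Nm_add h.hp (mwt.mul (mn.mul (mfd1.mul ma))) (mwt.mul (mn.mul (mfψ.mul ma)))
        _ ≤ Y1 + ENNReal.ofReal (2 * M0 * (2 / k)) * Z := by
            gcongr
            have hmz : Measurable ((ball (0 : ℂ) ρ0).indicator (fun ζ => wt ((N + 1 : ℕ) : ℝ) ζ * a ζ)) :=
              ((measurable_wt _).mul ma).indicator measurableSet_ball
            rw [hZ, ← Nm_const_mul hp0 hmz]
            apply Nm_mono hp0
            filter_upwards with ζ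
            by_cases hz : fderiv ℝ ψ ζ = 0
            · rw [hz, ← ofReal_norm (0 : ℂ →L[ℝ] ℝ), norm_zero, ENNReal.ofReal_zero, zero_mul,
                mul_zero, mul_zero]
              exact bot_le
            · have hz2 : ‖ζ‖ ≤ 2 / k := by
                by_contra hcon
                push Not at hcon
                exact hz ((hfdψ ζ).2 hcon)
              have hzball : ζ ∈ ball (0 : ℂ) ρ0 := by
                rw [mem_ball_zero_iff]; linarith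
              rw [indicator_of_mem hzball]
              by_cases hz0 : ζ = 0
              · subst hz0; simp [enorm_zero]
              have hzn : 0 < ‖ζ‖ := norm_pos_iff.mpr hz0
              rw [← mul_assoc, ← mul_assoc, ← mul_assoc]
              gcongr ?_ * a ζ
              unfold wt
              rw [← ofReal_norm, ← ofReal_norm, ← ENNReal.ofReal_mul (by positivity),
                ← ENNReal.ofReal_mul (by positivity), ← ENNReal.ofReal_mul (by positivity)]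
              apply ENNReal.ofReal_le_ofReal
              have e1 : ‖ζ‖ ^ (-κ) ≤ ‖ζ‖ * ‖ζ‖ ^ (-(((N + 1 : ℕ) : ℝ))) := by
                have : ‖ζ‖ * ‖ζ‖ ^ (-(((N + 1 : ℕ) : ℝ))) = ‖ζ‖ ^ (-(N : ℝ)) := by
                  conv_lhs => rw [← Real.rpow_one ‖ζ‖]
                  rw [← Real.rpow_mul hzn.le, ← Real.rpow_add hzn]
                  congr 1; push_cast; ring
                rw [this]
                apply Real.rpow_le_rpow_of_exponent_ge hzn (by linarith)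
                rw [hκ]; linarith
              calc ‖ζ‖ ^ (-κ) * ‖ζ‖ * ‖fderiv ℝ ψ ζ‖
                  ≤ (‖ζ‖ * ‖ζ‖ ^ (-(((N + 1 : ℕ) : ℝ)))) * ‖ζ‖ * (k * M0) := by
                    gcongr
                    exact (hfdψ ζ).1
                _ = (‖ζ‖ * k) * M0 * ‖ζ‖ * ‖ζ‖ ^ (-(((N + 1 : ℕ) : ℝ))) := by ring
                _ ≤ (2 / k * k) * M0 * (2 / k) * ‖ζ‖ ^ (-(((N + 1 : ℕ) : ℝ))) := by gcongr
                _ = 2 * M0 * (2 / k) * ‖ζ‖ ^ (-(((N + 1 : ℕ) : ℝ))) := by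
                    field_simp
    have habs : X ≤ 1 / 2 * X + C * (Y1 + ENNReal.ofReal (2 * M0 * (2 / k)) * Z) := by
      calc X ≤ C * (Nm r ({ζ : ℂ | α ≤ ‖ζ‖ ∧ ‖ζ‖ < β}.indicator (fun ζ => ‖ζ‖ₑ * W ζ)) * X +
            (Y1 + ENNReal.ofReal (2 * M0 * (2 / k)) * Z)) := by
            refine hcar.trans ?_
            gcongr
            exact hsplit.trans (add_le_add hT1 hT2)
        _ = (C * Nm r ({ζ : ℂ | α ≤ ‖ζ‖ ∧ ‖ζ‖ < β}.indicator (fun ζ => ‖ζ‖ₑ * W ζ))) * X +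
            C * (Y1 + ENNReal.ofReal (2 * M0 * (2 / k)) * Z) := by ring
        _ ≤ _ := by gcongr
    refine le_trans (Nm_mono hq0 ?_) (half_absorb hXtop habs)
    filter_upwards with ζ
    by_cases hz : ζ ∈ {ζ : ℂ | ρ ≤ ‖ζ‖ ∧ ‖ζ‖ ≤ β1}
    · rw [indicator_of_mem hz]
      have hη1 : η ζ = 1 := by
        simp only [hη]
        rw [hψ1 ζ (hkρ.le.trans hz.1), mul_one]
        apply φ1.one_of_mem_closedBall
        rw [mem_closedBall_zero_iff, h1in]; exact hz.2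
      rw [hη1]; simp
    · rw [indicator_of_notMem hz]; exact bot_le
  -- limit
  have hlim : Tendsto (fun k : ℕ => 2 * (C * (Y1 + ENNReal.ofReal (2 * M0 * (2 / (k : ℝ))) * Z))) atTop
      (𝓝 (2 * (C * (Y1 + 0 * Z)))) := by
    have h1 : Tendsto (fun k : ℕ => 2 * M0 * (2 / (k : ℝ))) atTop (𝓝 (2 * M0 * 0)) :=
      (tendsto_const_div_atTop_nhds_zero_nat 2).const_mul _
    rw [mul_zero] at h1
    have h2 : Tendsto (fun k : ℕ => ENNReal.ofReal (2 * M0 * (2 / (k : ℝ)))) atTop (𝓝 0) := by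
      have := (ENNReal.continuous_ofReal.tendsto _).comp h1
      simpa [Function.comp_def] using this
    apply ENNReal.Tendsto.const_mul _ (Or.inr (by norm_num))
    apply ENNReal.Tendsto.const_mul _ (Or.inr hCtop.ne)
    apply Tendsto.add tendsto_const_nhds
    exact ENNReal.Tendsto.mul_const h2 (Or.inr hfin0.ne)
  rw [zero_mul, add_zero] at hlim
  refine ge_of_tendsto hlim ?_
  have h1 : Tendsto (fun k : ℕ => 2 / (k : ℝ)) atTop (𝓝 0) := tendsto_const_div_atTop_nhds_zero_nat 2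
  have hmin : 0 < min (min ρ ρ0) (min 1 β1) :=
    lt_min (lt_min hρ hρ0) (lt_min one_pos hβ1)
  filter_upwards [h1.eventually_lt_const hmin, eventually_gt_atTop 0] with k hk hk0
  exact key k hk0 hk

end Pool.Agent.Q171.SUC
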