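import Pool.Agent.Q171.SUC.Trans

set_option autoImplicit false

open MeasureTheory Set Filter Topology Metric
open scoped ENNReal ContDiff ComplexConjugate

namespace Pool.Agent.Q171.SUC

variable {n m : ℕ}

/-- multiplication by a bounded continuous function supported in the ball -/
theorem memLp_cut {R1 : ℝ} {p : ℝ≥0∞} {f : Cn n → Cn m}
    (hf : MemLp f p (volume.restrict (closedBall 0 R1))) {ρ : Cn n → ℝ} (hρ : Continuous ρ)
    (hs : ∀ x, x ∉ closedBall (0 : Cn n) R1 → ρ x = 0) : MemLp (fun x => ρ x • f x) p := by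
  have hcomp : IsCompact (closedBall (0 : Cn n) R1) := isCompact_closedBall _ _
  obtain ⟨C, hC⟩ := hcomp.exists_bound_of_continuousOn hρ.continuousOn
  have h1 : MemLp (fun x => ρ x • f x) p (volume.restrict (closedBall 0 R1)) := by
    apply hf.of_le_mul (c := C) (hρ.aestronglyMeasurable.smul hf.1)
    rw [ae_restrict_iff' measurableSet_closedBall]
    filter_upwards with x hx
    show ‖ρ x • f x‖ ≤ C * ‖f x‖
    rw [norm_smul]
    gcongr
    exact hC x hx
  have h2 := (memLp_indicator_iff_restrict (measurableSet_closedBall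
    (x := (0 : Cn n)) (ε := R1))).mpr h1
  have h3 : (fun x => ρ x • f x) = (closedBall (0 : Cn n) R1).indicator (fun x => ρ x • f x) := by
    funext x
    by_cases hx : x ∈ closedBall (0 : Cn n) R1
    · rw [indicator_of_mem hx]
    · rw [indicator_of_notMem hx, hs x hx, zero_smul]
  rw [h3]
  exact h2

theorem memLp_trans {Ω : Set (Cn n)} {G : Type*} [NormedAddCommGroup G] {s : ℝ} {f : Cn n → G}
    (hf : LpLoc s Ω f) {z0 : Cn n} {R1 : ℝ} (hb : closedBall z0 R1 ⊆ Ω) :
    MemLp (fun x => f (x + z0)) (ENNReal.ofReal s) (volume.restrict (closedBall 0 R1)) := by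
  have h1 := hf _ hb (isCompact_closedBall _ _)
  have h2 : MeasurePreserving (fun x : Cn n => x + z0) volume volume :=
    measurePreserving_add_right volume z0
  have h3 := h2.restrict_preimage (s := closedBall z0 R1) measurableSet_closedBall
  have h4 : (fun x : Cn n => x + z0) ⁻¹' closedBall z0 R1 = closedBall 0 R1 := by
    ext x
    simp only [mem_preimage, mem_closedBall, dist_zero_right]
    rw [dist_eq_norm, add_sub_cancel_right]
  rw [h4] at h3
  exact h1.comp_measurePreserving h3

/-- weak derivative of the localized translate -/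
theorem wd_cut {Ω : Set (Cn n)} {u g : Cn n → Cn m} {v z0 : Cn n} {R0 R1 : ℝ}
    (hb : closedBall z0 R1 ⊆ Ω) (h : HasWeakDeriv Ω u g v)
    (hu : MemLp (fun x => u (x + z0)) 1 (volume.restrict (closedBall 0 R1)))
    (hg : MemLp (fun x => g (x + z0)) 1 (volume.restrict (closedBall 0 R1)))
    (χ : ContDiffBump (0 : Cn n)) (_hin : χ.rIn = R0) (hout : χ.rOut = R1) :
    WD volume (fun x => χ x • u (x + z0))
      (fun x => χ x • g (x + z0) + fderiv ℝ χ x v • u (x + z0)) v := by
  intro φ hφ hφc
  have hχs : ContDiff ℝ ∞ χ := χ.contDiff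
  have hχd : ∀ x, x ∉ closedBall (0 : Cn n) R1 → χ x = 0 := by
    intro x hx
    apply χ.zero_of_le_dist
    rw [hout]
    rw [mem_closedBall] at hx
    linarith
  have hχfd : ∀ x, x ∉ closedBall (0 : Cn n) R1 → fderiv ℝ χ x = 0 := by
    intro x hx
    by_contra hne
    have := support_fderiv_subset ℝ (f := χ) hne
    rw [χ.tsupport_eq, hout] at this
    exact hx this
  -- the test function
  set ψ : Cn n → ℝ := fun y => φ (y - z0) * χ (y - z0) with hψ
  have hψs : ContDiff ℝ ∞ ψ :=
    (hφ.comp (contDiff_id.sub contDiff_const)).mul (hχs.comp (contDiff_id.sub contDiff_const))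
  have hψts : tsupport ψ ⊆ closedBall z0 R1 := by
    apply closure_minimal _ isClosed_closedBall
    intro y hy
    by_contra hcon
    apply hy
    simp only [hψ]
    rw [hχd, mul_zero]
    intro hc
    apply hcon
    rw [mem_closedBall, dist_zero_right] at hc
    rwa [mem_closedBall, dist_eq_norm]
  have hψc : HasCompactSupport ψ := by
    exact (isCompact_closedBall z0 R1).of_isClosed_subset (isClosed_tsupport _) hψts
  have hw := h ψ hψs hψc (hψts.trans hb)
  have hfd : ∀ x, fderiv ℝ ψ (x + z0) v = φ x * fderiv ℝ χ x v + χ x * fderiv ℝ φ x v := by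
    intro x
    have e1 : ψ = fun y => (fun w => φ w * χ w) (y - z0) := rfl
    have d1 : HasFDerivAt (fun w => φ w * χ w) (φ x • fderiv ℝ χ x + χ x • fderiv ℝ φ x) x :=
      (hφ.differentiable (by simp) x).hasFDerivAt.mul (hχs.differentiable (by simp) x).hasFDerivAt
    have d2 : HasFDerivAt (fun y : Cn n => y - z0) (ContinuousLinearMap.id ℝ (Cn n)) (x + z0) :=
      (hasFDerivAt_id (x + z0)).sub_const z0
    have d3 : HasFDerivAt ψ ((φ x • fderiv ℝ χ x + χ x • fderiv ℝ φ x).comp
        (ContinuousLinearMap.id ℝ (Cn n))) (x + z0) := by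
      have d1' : HasFDerivAt (fun w => φ w * χ w) (φ x • fderiv ℝ χ x + χ x • fderiv ℝ φ x)
          (x + z0 - z0) := by rw [add_sub_cancel_right]; exact d1
      exact d1'.comp (x + z0) d2
    rw [d3.fderiv]
    simp
  rw [← integral_add_right_eq_self (fun z => fderiv ℝ ψ z v • u z) z0,
    ← integral_add_right_eq_self (fun z => ψ z • g z) z0] at hw
  have hψx : ∀ x, ψ (x + z0) = φ x * χ x := by
    intro x
    simp only [hψ]
    rw [add_sub_cancel_right]
  simp_rw [hfd, hψx] at hw
  -- integrability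
  have cφ : Continuous φ := hφ.continuous
  have cχ : Continuous χ := hχs.continuous
  have cdφ : Continuous (fun x => fderiv ℝ φ x v) := (hφ.continuous_fderiv (by simp)).clm_apply
    continuous_const
  have cdχ : Continuous (fun x => fderiv ℝ χ x v) := (hχs.continuous_fderiv (by simp)).clm_apply
    continuous_const
  have i1 : Integrable (fun x => (φ x * fderiv ℝ χ x v) • u (x + z0)) :=
    memLp_one_iff_integrable.mp (memLp_cut hu (cφ.mul cdχ) (fun x hx => by rw [hχfd x hx]; simp))
  have i2 : Integrable (fun x => (χ x * fderiv ℝ φ x v) • u (x + z0)) :=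
    memLp_one_iff_integrable.mp (memLp_cut hu (cχ.mul cdφ) (fun x hx => by rw [hχd x hx]; simp))
  have i3 : Integrable (fun x => (φ x * χ x) • g (x + z0)) :=
    memLp_one_iff_integrable.mp (memLp_cut hg (cφ.mul cχ) (fun x hx => by rw [hχd x hx]; simp))
  have e1 : ∫ x, (φ x * fderiv ℝ χ x v + χ x * fderiv ℝ φ x v) • u (x + z0) =
      (∫ x, (φ x * fderiv ℝ χ x v) • u (x + z0)) + ∫ x, (χ x * fderiv ℝ φ x v) • u (x + z0) := by
    rw [← integral_add i1 i2]
    congr 1
    funext x
    rw [add_smul]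
  rw [e1] at hw
  have e2 : ∫ x, fderiv ℝ φ x v • χ x • u (x + z0) = ∫ x, (χ x * fderiv ℝ φ x v) • u (x + z0) := by
    congr 1
    funext x
    rw [smul_smul, mul_comm]
  have e3 : ∫ x, φ x • (χ x • g (x + z0) + fderiv ℝ χ x v • u (x + z0)) =
      (∫ x, (φ x * χ x) • g (x + z0)) + ∫ x, (φ x * fderiv ℝ χ x v) • u (x + z0) := by
    rw [← integral_add i3 i1]
    congr 1
    funext x
    rw [smul_add, smul_smul, smul_smul]
  rw [e2, e3, neg_add, ← hw]
  abel

theorem wd_congr {μ : Measure (Cn n)} {u u' g g' : Cn n → Cn m} {v : Cn n} (h : WD μ u g v)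
    (hu : u =ᵐ[μ] u') (hg : g =ᵐ[μ] g') : WD μ u' g' v := by
  intro φ hφ hφc
  have e1 : ∫ x, fderiv ℝ φ x v • u' x ∂μ = ∫ x, fderiv ℝ φ x v • u x ∂μ :=
    integral_congr_ae (by filter_upwards [hu] with x hx; rw [hx])
  have e2 : ∫ x, φ x • g' x ∂μ = ∫ x, φ x • g x ∂μ :=
    integral_congr_ae (by filter_upwards [hg] with x hx; rw [hx])
  rw [e1, e2]
  exact h φ hφ hφc

end Pool.Agent.Q171.SUC
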