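import Pool.Agent.Q171.SUC.Step
import Pool.Agent.Helper366.IV.CP

set_option autoImplicit false

open MeasureTheory Set Filter Topology Metric
open scoped ENNReal ContDiff ComplexConjugate

namespace Pool.Agent.Q171.SUC

section vec

variable {F : Type*} [NormedAddCommGroup F] [NormedSpace ℂ F]

/-- `∂/∂ζ̄` -/
noncomputable def db (f : ℂ → F) (ζ : ℂ) : F :=
  (1 / 2 : ℂ) • (fderiv ℝ f ζ 1 + Complex.I • fderiv ℝ f ζ Complex.I)

theorem cp_vec {f : ℂ → F} (hf : ContDiff ℝ 1 f) (hc : HasCompactSupport f) (z : ℂ) :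
    ‖f z‖ₑ ≤ ∫⁻ ζ, ENNReal.ofReal (1 / ‖z - ζ‖) * ‖db f ζ‖ₑ := by
  obtain ⟨g, hg1, hg2⟩ := exists_dual_vector'' ℂ (f z)
  set φ : ℂ → ℂ := fun ζ => g (f ζ) with hφ
  have hφs : ContDiff ℝ 1 φ := (g.restrictScalars ℝ).contDiff.comp hf
  have hφc : HasCompactSupport φ := hc.comp_left (map_zero g)
  have hφd : ∀ ζ v, fderiv ℝ φ ζ v = g (fderiv ℝ f ζ v) := by
    intro ζ v
    have h1 : HasFDerivAt f (fderiv ℝ f ζ) ζ := (hf.differentiable (by simp) ζ).hasFDerivAt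
    have h2 := ((g.restrictScalars ℝ).hasFDerivAt (x := f ζ)).comp ζ h1
    have h3 : fderiv ℝ φ ζ = (g.restrictScalars ℝ).comp (fderiv ℝ f ζ) := h2.fderiv
    rw [h3]; rfl
  have hcp := Pool.Agent.Helper366.IV.cauchy_pompeiu φ hφs hφc z
  have hpi : (1 : ℝ) ≤ Real.pi := by linarith [Real.pi_gt_three]
  have h1 : ‖f z‖ₑ ≤ ‖(Real.pi : ℂ) * φ z‖ₑ := by
    rw [enorm_mul]
    have e1 : ‖φ z‖ₑ = ‖f z‖ₑ := by
      rw [← ofReal_norm, ← ofReal_norm, hφ]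
      simp only
      rw [hg2]; simp
    have e2 : (1 : ℝ≥0∞) ≤ ‖(Real.pi : ℂ)‖ₑ := by
      rw [← ofReal_norm, Complex.norm_real, Real.norm_of_nonneg Real.pi_pos.le,
        ← ENNReal.ofReal_one]
      exact ENNReal.ofReal_le_ofReal hpi
    rw [e1]
    calc ‖f z‖ₑ = 1 * ‖f z‖ₑ := (one_mul _).symm
      _ ≤ _ := by gcongr
  refine h1.trans ?_
  rw [← hcp]
  refine (enorm_integral_le_lintegral_enorm _).trans ?_
  have e3 : ∀ w : ℂ, ‖(fderiv ℝ φ (z - w) 1 + Complex.I * fderiv ℝ φ (z - w) Complex.I) / 2 / w‖ₑ ≤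
      (fun ζ => ENNReal.ofReal (1 / ‖z - ζ‖) * ‖db f ζ‖ₑ) (z - w) := by
    intro w
    simp only
    rw [sub_sub_cancel]
    have : (fderiv ℝ φ (z - w) 1 + Complex.I * fderiv ℝ φ (z - w) Complex.I) / 2 / w =
        (1 / w) * g (db f (z - w)) := by
      unfold db
      rw [map_smul, map_add, map_smul, hφd, hφd, smul_eq_mul, smul_eq_mul]
      ring
    rw [this, enorm_mul]
    have e4 : ‖1 / w‖ₑ = ENNReal.ofReal (1 / ‖w‖) := by
      rw [← ofReal_norm, norm_div, norm_one]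
    rw [e4]
    gcongr
    rw [← ofReal_norm, ← ofReal_norm]
    apply ENNReal.ofReal_le_ofReal
    calc ‖g (db f (z - w))‖ ≤ ‖g‖ * ‖db f (z - w)‖ := g.le_opNorm _
      _ ≤ 1 * ‖db f (z - w)‖ := by gcongr
      _ = _ := one_mul _
  refine (lintegral_mono e3).trans ?_
  rw [lintegral_sub_left_eq_self (μ := (volume : Measure ℂ))
    (fun ζ => ENNReal.ofReal (1 / ‖z - ζ‖) * ‖db f ζ‖ₑ) z]

theorem db_smul {g : ℂ → ℂ} {f : ℂ → F} {ζ : ℂ} (hg : DifferentiableAt ℝ g ζ)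
    (hf : DifferentiableAt ℝ f ζ) :
    db (fun w => g w • f w) ζ = g ζ • db f ζ + db g ζ • f ζ := by
  unfold db
  rw [fderiv_fun_smul hg hf]
  simp only [ContinuousLinearMap.add_apply, ContinuousLinearMap.smul_apply,
    ContinuousLinearMap.smulRight_apply, smul_eq_mul]
  module

theorem db_holo {h : ℂ → ℂ} {ζ : ℂ} (hh : DifferentiableAt ℂ h ζ) : db h ζ = 0 := by
  unfold db
  have h1 : HasFDerivAt h ((fderiv ℂ h ζ).restrictScalars ℝ) ζ :=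
    hh.hasFDerivAt.restrictScalars ℝ
  rw [h1.fderiv]
  have : (fderiv ℂ h ζ) Complex.I = Complex.I • (fderiv ℂ h ζ) 1 := by
    rw [← map_smul]; simp
  simp only [ContinuousLinearMap.coe_restrictScalars', this, smul_eq_mul]
  rw [← mul_assoc, Complex.I_mul_I]
  ring

theorem norm_db_ofReal {η : ℂ → ℝ} {ζ : ℂ} (hη : DifferentiableAt ℝ η ζ) :
    ‖db (fun w => (η w : ℂ)) ζ‖ ≤ ‖fderiv ℝ η ζ‖ := by
  have h1 : HasFDerivAt (fun w => (η w : ℂ)) (Complex.ofRealCLM.comp (fderiv ℝ η ζ)) ζ :=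
    Complex.ofRealCLM.hasFDerivAt.comp ζ hη.hasFDerivAt
  unfold db
  rw [h1.fderiv, norm_smul]
  have a1 := (fderiv ℝ η ζ).le_opNorm 1
  have a2 := (fderiv ℝ η ζ).le_opNorm Complex.I
  rw [norm_one, mul_one] at a1
  rw [Complex.norm_I, mul_one] at a2
  have a3 : ‖((Complex.ofRealCLM.comp (fderiv ℝ η ζ)) 1 +
      Complex.I • (Complex.ofRealCLM.comp (fderiv ℝ η ζ)) Complex.I)‖ ≤
      ‖fderiv ℝ η ζ 1‖ + ‖fderiv ℝ η ζ Complex.I‖ := by
    refine (norm_add_le _ _).trans ?_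
    rw [norm_smul, Complex.norm_I, one_mul]
    simp
  have : ‖(1 / 2 : ℂ)‖ = 1 / 2 := by norm_num
  rw [this]
  linarith

/-- the representation inequality for smooth functions -/
theorem rep_smooth {f : ℂ → F} (hf : ContDiff ℝ ∞ f) {η : ℂ → ℝ} (hη : ContDiff ℝ ∞ η)
    (hηc : HasCompactSupport η) (h0 : tsupport η ⊆ {ζ | 0 < ‖ζ‖}) (N : ℕ) (z : ℂ) :
    ‖η z‖ₑ * ‖f z‖ₑ ≤
      ∫⁻ ζ, pk N z ζ * (‖η ζ‖ₑ * ‖db f ζ‖ₑ + ‖fderiv ℝ η ζ‖ₑ * ‖f ζ‖ₑ) := by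
  by_cases hz : η z = 0
  · rw [hz]; simp
  have hz0 : 0 < ‖z‖ := h0 (subset_tsupport η hz)
  set g : ℂ → ℂ := fun ζ => (η ζ : ℂ) * (ζ ^ N)⁻¹ with hg
  have hηC : ContDiff ℝ ∞ (fun w => (η w : ℂ)) := Complex.ofRealCLM.contDiff.comp hη
  have hinv : ∀ ζ : ℂ, ζ ≠ 0 → ContDiffAt ℝ ∞ (fun ζ : ℂ => (ζ ^ N)⁻¹) ζ := by
    intro ζ hζ
    have : ContDiffAt ℂ ∞ (fun ζ : ℂ => (ζ ^ N)⁻¹) ζ :=
      (contDiffAt_id.pow N).inv (pow_ne_zero N hζ)
    exact this.restrict_scalars ℝ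
  have hoff : ∀ ζ, ζ ∉ tsupport η → (fun w => η w) =ᶠ[𝓝 ζ] fun _ => 0 := by
    intro ζ hζ
    exact notMem_tsupport_iff_eventuallyEq.mp hζ
  have hgs : ContDiff ℝ ∞ g := by
    rw [contDiff_iff_contDiffAt]
    intro ζ
    by_cases hζ : ζ ∈ tsupport η
    · exact hηC.contDiffAt.mul (hinv ζ (norm_pos_iff.mp (h0 hζ)))
    · have : g =ᶠ[𝓝 ζ] fun _ => 0 := by
        filter_upwards [hoff ζ hζ] with w hw
        simp only [hg]
        rw [hw]; simp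
      exact contDiffAt_const.congr_of_eventuallyEq this
  set k : ℂ → F := fun ζ => g ζ • f ζ with hk
  have hks : ContDiff ℝ ∞ k := hgs.smul hf
  have hgc : HasCompactSupport g := by
    apply HasCompactSupport.mul_right
    exact hηc.comp_left (g := fun x : ℝ => (x : ℂ)) (by simp)
  have hkc : HasCompactSupport k := hgc.smul_right
  have hcp := cp_vec (hks.of_le (by simp)) hkc z
  have hdbk : ∀ ζ : ℂ, ‖db k ζ‖ₑ ≤ ENNReal.ofReal ((‖ζ‖ ^ N)⁻¹) *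
      (‖η ζ‖ₑ * ‖db f ζ‖ₑ + ‖fderiv ℝ η ζ‖ₑ * ‖f ζ‖ₑ) := by
    intro ζ
    by_cases hζ : ζ ∈ tsupport η
    · have hζ0 : ζ ≠ 0 := norm_pos_iff.mp (h0 hζ)
      have hζn : 0 < ‖ζ‖ := norm_pos_iff.mpr hζ0
      have e1 : db k ζ = g ζ • db f ζ + db g ζ • f ζ :=
        db_smul (hgs.differentiable (by simp) ζ) (hf.differentiable (by simp) ζ)
      have e2 : db g ζ = (ζ ^ N)⁻¹ * db (fun w => (η w : ℂ)) ζ := by
        have := db_smul (g := fun w => (η w : ℂ)) (f := fun ζ : ℂ => (ζ ^ N)⁻¹) (ζ := ζ)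
          (hηC.differentiable (by simp) ζ) ((hinv ζ hζ0).differentiableAt (by simp))
        have h3 : db (fun ζ : ℂ => (ζ ^ N)⁻¹) ζ = 0 := by
          apply db_holo
          exact (differentiableAt_id.pow N).inv (pow_ne_zero N hζ0)
        rw [h3, smul_zero, zero_add] at this
        rw [hg]
        simp only [smul_eq_mul] at this ⊢
        rw [this, mul_comm]
      rw [e1, e2]
      refine (enorm_add_le _ _).trans ?_
      rw [mul_add]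
      have e3 : ‖(ζ ^ N)⁻¹‖ₑ = ENNReal.ofReal ((‖ζ‖ ^ N)⁻¹) := by
        rw [← ofReal_norm, norm_inv, norm_pow]
      have e4 : ‖(η ζ : ℂ)‖ₑ = ‖η ζ‖ₑ := by
        rw [← ofReal_norm, ← ofReal_norm, Complex.norm_real]
      rw [enorm_smul, enorm_smul, enorm_mul, enorm_mul, e3, e4]
      apply add_le_add
      · rw [mul_comm ‖η ζ‖ₑ, mul_assoc]
      · rw [mul_assoc]
        gcongr
        rw [← ofReal_norm, ← ofReal_norm]
        exact ENNReal.ofReal_le_ofReal (norm_db_ofReal (hη.differentiable (by simp) ζ))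
    · have : k =ᶠ[𝓝 ζ] fun _ => 0 := by
        filter_upwards [hoff ζ hζ] with w hw
        simp only [hk, hg]
        rw [hw]; simp
      unfold db
      rw [this.fderiv_eq]
      simp
  have hkz : ‖k z‖ₑ = ENNReal.ofReal ((‖z‖ ^ N)⁻¹) * (‖η z‖ₑ * ‖f z‖ₑ) := by
    simp only [hk, hg]
    rw [enorm_smul, enorm_mul]
    have e3 : ‖(z ^ N)⁻¹‖ₑ = ENNReal.ofReal ((‖z‖ ^ N)⁻¹) := by
      rw [← ofReal_norm, norm_inv, norm_pow]
    have e4 : ‖(η z : ℂ)‖ₑ = ‖η z‖ₑ := by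
      rw [← ofReal_norm, ← ofReal_norm, Complex.norm_real]
    rw [e3, e4]; ring
  rw [hkz] at hcp
  have hzN : 0 < ‖z‖ ^ N := by positivity
  have hfin : ENNReal.ofReal (‖z‖ ^ N) ≠ ⊤ := ENNReal.ofReal_ne_top
  calc ‖η z‖ₑ * ‖f z‖ₑ = ENNReal.ofReal (‖z‖ ^ N) *
        (ENNReal.ofReal ((‖z‖ ^ N)⁻¹) * (‖η z‖ₑ * ‖f z‖ₑ)) := by
        rw [← mul_assoc, ← ENNReal.ofReal_mul hzN.le, mul_inv_cancel₀ hzN.ne', ENNReal.ofReal_one,
          one_mul]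
    _ ≤ ENNReal.ofReal (‖z‖ ^ N) * ∫⁻ ζ, ENNReal.ofReal (1 / ‖z - ζ‖) * ‖db k ζ‖ₑ := by gcongr
    _ = ∫⁻ ζ, ENNReal.ofReal (‖z‖ ^ N) * (ENNReal.ofReal (1 / ‖z - ζ‖) * ‖db k ζ‖ₑ) :=
        (lintegral_const_mul' _ _ hfin).symm
    _ ≤ _ := by
        apply lintegral_mono
        intro ζ
        simp only
        calc ENNReal.ofReal (‖z‖ ^ N) * (ENNReal.ofReal (1 / ‖z - ζ‖) * ‖db k ζ‖ₑ)
            ≤ ENNReal.ofReal (‖z‖ ^ N) * (ENNReal.ofReal (1 / ‖z - ζ‖) *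
              (ENNReal.ofReal ((‖ζ‖ ^ N)⁻¹) *
                (‖η ζ‖ₑ * ‖db f ζ‖ₑ + ‖fderiv ℝ η ζ‖ₑ * ‖f ζ‖ₑ))) := by
              gcongr
              exact hdbk ζ
          _ = pk N z ζ * (‖η ζ‖ₑ * ‖db f ζ‖ₑ + ‖fderiv ℝ η ζ‖ₑ * ‖f ζ‖ₑ) := by
              rw [← mul_assoc, ← mul_assoc, ← ENNReal.ofReal_mul hzN.le,
                ← ENNReal.ofReal_mul (by positivity)]
              unfold pk
              congr 2
              rw [div_eq_mul_inv, div_eq_mul_inv, mul_inv]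
              ring

end vec

end Pool.Agent.Q171.SUC
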