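import Pool.Agent.Q171.SUC.Line

set_option autoImplicit false

open MeasureTheory Set Filter Topology Metric
open scoped ENNReal ContDiff

namespace Pool.Agent.Q171.SUC

variable {R p q r c : ℝ} {a b W : ℂ → ℝ≥0∞}

/-- one step of the propagation of zeros -/
theorem step (h : LineHyp R p q r c a b W) {α β β2 : ℝ} (hβ2 : 0 < β2)
    (hβ2β : β2 < β) (hβR : β < R)
    (hvan : ∀ᵐ ζ : ℂ, ‖ζ‖ < α → a ζ = 0)
    (hsmall : kc c ^ (1 / c) *
      Nm r ({ζ : ℂ | α ≤ ‖ζ‖ ∧ ‖ζ‖ < β}.indicator (fun ζ => ‖ζ‖ₑ * W ζ)) ≤ 1 / 2) :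
    ∀ᵐ ζ : ℂ, ‖ζ‖ ≤ β2 → a ζ = 0 := by
  have hp0 : 0 < p := by linarith [h.hp]
  have hq0 : 0 < q := by linarith [h.hp, h.hpq]
  obtain ⟨β1, h21, h1β⟩ := exists_between hβ2β
  have hβ1 : 0 < β1 := hβ2.trans h21
  set φ1 : ContDiffBump (0 : ℂ) := ⟨β1, β, hβ1, h1β⟩ with hφ1
  obtain ⟨M1, hM1n, hM1⟩ := fderiv_bound φ1.contDiff φ1.hasCompactSupport
  set C := kc c ^ (1 / c) with hC
  have hCtop : C < ⊤ := by
    rw [hC]
    exact ENNReal.rpow_lt_top_of_nonneg (by have := h.hc0; positivity) (kc_lt_top h.hc0 h.hc2).ne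
  set A := Nm p ({ζ : ℂ | β1 ≤ ‖ζ‖ ∧ ‖ζ‖ ≤ β}.indicator a) with hA
  have hAtop : A < ⊤ := h.inta β1 hβ1 β hβR
  have hsupp : ∀ ζ : ℂ, fderiv ℝ φ1 ζ ≠ 0 → β1 ≤ ‖ζ‖ ∧ ‖ζ‖ ≤ β := by
    intro ζ hζ
    constructor
    · by_contra hcon
      push Not at hcon
      apply hζ
      have : φ1 =ᶠ[𝓝 ζ] fun _ => 1 := by
        have : ball (0 : ℂ) β1 ∈ 𝓝 ζ := isOpen_ball.mem_nhds (by simpa using hcon)
        filter_upwards [this] with w hw
        exact φ1.one_of_mem_closedBall (ball_subset_closedBall hw)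
      rw [this.fderiv_eq]
      exact fderiv_const_apply _
    · have := support_fderiv_subset ℝ (f := φ1) hζ
      rw [φ1.tsupport_eq, mem_closedBall_zero_iff] at this
      exact this
  -- it is enough to treat annuli
  have main : ∀ ρ : ℝ, 0 < ρ → Nm q ({ζ : ℂ | ρ ≤ ‖ζ‖ ∧ ‖ζ‖ ≤ β2}.indicator a) = 0 := by
    intro ρ hρ
    set X := Nm q ({ζ : ℂ | ρ ≤ ‖ζ‖ ∧ ‖ζ‖ ≤ β2}.indicator a) with hX
    have hb : ∀ N : ℕ, 1 ≤ N → X ≤ ENNReal.ofReal ((β2 / β1) ^ ((N : ℝ) - 1 / 2)) *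
        (2 * (C * (ENNReal.ofReal β * ENNReal.ofReal M1 * A))) := by
      intro N hN
      have hκ : 0 < (N : ℝ) - 1 / 2 := by
        have : (1 : ℝ) ≤ N := by exact_mod_cast hN
        linarith
      have he := est h hβ1 h1β hβR hρ hvan hsmall φ1 rfl rfl N hN
      have hl : ENNReal.ofReal (β2 ^ (-((N : ℝ) - 1 / 2))) * X ≤
          Nm q ({ζ : ℂ | ρ ≤ ‖ζ‖ ∧ ‖ζ‖ ≤ β1}.indicator (fun ζ => wt (N - 1 / 2) ζ * a ζ)) := by
        rw [hX, ← Nm_const_mul hq0 (h.ma.indicator (measurableSet_ann _ _))]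
        apply Nm_mono hq0
        filter_upwards with ζ
        by_cases hz : ζ ∈ {ζ : ℂ | ρ ≤ ‖ζ‖ ∧ ‖ζ‖ ≤ β2}
        · rw [indicator_of_mem hz, indicator_of_mem (show ζ ∈ {ζ : ℂ | ρ ≤ ‖ζ‖ ∧ ‖ζ‖ ≤ β1} from
            ⟨hz.1, hz.2.trans h21.le⟩)]
          gcongr
          unfold wt
          apply ENNReal.ofReal_le_ofReal
          exact Real.rpow_le_rpow_of_nonpos (lt_of_lt_of_le hρ hz.1) hz.2 (by linarith)
        · rw [indicator_of_notMem hz, mul_zero]; exact bot_le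
      have hr : Nm p (fun ζ => wt (N - 1 / 2) ζ * (‖ζ‖ₑ * (‖fderiv ℝ φ1 ζ‖ₑ * a ζ))) ≤
          ENNReal.ofReal (β1 ^ (-((N : ℝ) - 1 / 2))) * (ENNReal.ofReal β * ENNReal.ofReal M1) * A := by
        rw [hA, ← Nm_const_mul hp0 (h.ma.indicator (measurableSet_ann _ _))]
        apply Nm_mono hp0
        filter_upwards with ζ
        by_cases hz : fderiv ℝ φ1 ζ = 0
        · rw [hz, ← ofReal_norm (0 : ℂ →L[ℝ] ℝ), norm_zero, ENNReal.ofReal_zero, zero_mul, mul_zero,
            mul_zero]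
          exact bot_le
        · obtain ⟨hz1, hz2⟩ := hsupp ζ hz
          rw [indicator_of_mem (show ζ ∈ {ζ : ℂ | β1 ≤ ‖ζ‖ ∧ ‖ζ‖ ≤ β} from ⟨hz1, hz2⟩)]
          rw [mul_assoc, mul_assoc]
          gcongr
          · unfold wt
            apply ENNReal.ofReal_le_ofReal
            exact Real.rpow_le_rpow_of_nonpos hβ1 hz1 (by linarith)
          · rw [← ofReal_norm]; exact ENNReal.ofReal_le_ofReal hz2
          · rw [← ofReal_norm]; exact ENNReal.ofReal_le_ofReal (hM1 ζ)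
      have hlr := hl.trans (he.trans (mul_le_mul_right (mul_le_mul_right hr C) 2))
      calc X = ENNReal.ofReal (β2 ^ ((N : ℝ) - 1 / 2)) *
            (ENNReal.ofReal (β2 ^ (-((N : ℝ) - 1 / 2))) * X) := by
            rw [← mul_assoc, ← ENNReal.ofReal_mul (by positivity), ← Real.rpow_add hβ2]
            simp
        _ ≤ ENNReal.ofReal (β2 ^ ((N : ℝ) - 1 / 2)) * (2 * (C *
            (ENNReal.ofReal (β1 ^ (-((N : ℝ) - 1 / 2))) * (ENNReal.ofReal β * ENNReal.ofReal M1) * A))) := by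
            gcongr
        _ = (ENNReal.ofReal (β2 ^ ((N : ℝ) - 1 / 2)) * ENNReal.ofReal (β1 ^ (-((N : ℝ) - 1 / 2)))) *
            (2 * (C * (ENNReal.ofReal β * ENNReal.ofReal M1 * A))) := by ring
        _ = _ := by
            rw [← ENNReal.ofReal_mul (by positivity), Real.div_rpow hβ2.le hβ1.le,
              Real.rpow_neg hβ1.le, ← div_eq_mul_inv]
    set D := 2 * (C * (ENNReal.ofReal β * ENNReal.ofReal M1 * A)) with hD
    have hDtop : D ≠ ⊤ := by
      apply ne_of_lt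
      apply ENNReal.mul_lt_top (by norm_num)
      apply ENNReal.mul_lt_top hCtop
      exact ENNReal.mul_lt_top (ENNReal.mul_lt_top ENNReal.ofReal_lt_top ENNReal.ofReal_lt_top) hAtop
    have hlim : Tendsto (fun N : ℕ => ENNReal.ofReal ((β2 / β1) ^ ((N : ℝ) - 1 / 2)) * D) atTop
        (𝓝 (0 * D)) := by
      apply ENNReal.Tendsto.mul_const _ (Or.inr hDtop)
      have h1 : Tendsto (fun N : ℕ => (β2 / β1) ^ ((N : ℝ) - 1 / 2)) atTop (𝓝 0) := by
        have hlt : β2 / β1 < 1 := by rw [div_lt_one hβ1]; exact h21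
        have hpos : 0 < β2 / β1 := by positivity
        have h2 := (tendsto_pow_atTop_nhds_zero_of_lt_one hpos.le hlt).mul_const
          ((β2 / β1) ^ (-(1 / 2 : ℝ)))
        rw [zero_mul] at h2
        refine h2.congr (fun N => ?_)
        rw [← Real.rpow_natCast, ← Real.rpow_add hpos]
        congr 1
      have := (ENNReal.continuous_ofReal.tendsto _).comp h1
      simpa [Function.comp_def] using this
    rw [zero_mul] at hlim
    refine le_antisymm (ge_of_tendsto hlim ?_) bot_le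
    filter_upwards [eventually_ge_atTop 1] with N hN
    exact hb N hN
  -- conclude
  have hall : ∀ᵐ ζ : ℂ, ∀ k : ℕ, ζ ∈ {ζ : ℂ | 1 / ((k : ℝ) + 1) ≤ ‖ζ‖ ∧ ‖ζ‖ ≤ β2} → a ζ = 0 := by
    rw [ae_all_iff]
    intro k
    have hk : (0 : ℝ) < 1 / ((k : ℝ) + 1) := by positivity
    have := ae_of_ae_mu (Nm_eq_zero hq0 (h.ma.indicator (measurableSet_ann _ _)) (main _ hk))
    filter_upwards [this] with ζ hζ hmem
    rwa [indicator_of_mem (s := {ζ : ℂ | 1 / ((k : ℝ) + 1) ≤ ‖ζ‖ ∧ ‖ζ‖ ≤ β2}) hmem] at hζ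
  have h0 : ∀ᵐ ζ : ℂ, ζ ≠ 0 := by rw [ae_iff]; simp
  filter_upwards [hall, h0] with ζ hζ hζ0 hle
  obtain ⟨k, hk⟩ := exists_nat_one_div_lt (norm_pos_iff.mpr hζ0)
  exact hζ k ⟨hk.le, hle⟩

/-- unique continuation on a complex line -/
theorem line (h : LineHyp R p q r c a b W) : ∀ᵐ ζ : ℂ, ‖ζ‖ < R → a ζ = 0 := by
  by_cases hR : R ≤ 0
  · filter_upwards with ζ hζ
    exact absurd (hζ.trans_le hR) (not_lt.mpr (norm_nonneg _))
  push Not at hR
  have hr0 : 0 < r := by linarith [h.hp, h.hpr]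
  set S : Set ℝ := {t | t ≤ R ∧ ∀ᵐ ζ : ℂ, ‖ζ‖ < t → a ζ = 0} with hS
  have h0S : (0 : ℝ) ∈ S := by
    refine ⟨hR.le, ?_⟩
    filter_upwards with ζ hζ
    exact absurd hζ (not_lt.mpr (norm_nonneg _))
  have hbdd : BddAbove S := ⟨R, fun t ht => ht.1⟩
  set α := sSup S with hα
  have hα0 : 0 ≤ α := le_csSup hbdd h0S
  have hαR : α ≤ R := csSup_le ⟨0, h0S⟩ (fun t ht => ht.1)
  have hαS : ∀ᵐ ζ : ℂ, ‖ζ‖ < α → a ζ = 0 := by
    have hex : ∀ k : ℕ, ∃ t ∈ S, α - 1 / ((k : ℝ) + 1) < t := by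
      intro k
      have : α - 1 / ((k : ℝ) + 1) < sSup S := by
        rw [← hα]
        have : (0 : ℝ) < 1 / ((k : ℝ) + 1) := by positivity
        linarith
      exact exists_lt_of_lt_csSup ⟨0, h0S⟩ this
    choose t htS ht using hex
    have : ∀ᵐ ζ : ℂ, ∀ k : ℕ, ‖ζ‖ < t k → a ζ = 0 := ae_all_iff.mpr (fun k => (htS k).2)
    filter_upwards [this] with ζ hζ hlt
    obtain ⟨k, hk⟩ := exists_nat_one_div_lt (sub_pos.mpr hlt)
    apply hζ k
    have := ht k
    linarith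
  rcases eq_or_lt_of_le hαR with he | hlt
  · rw [he] at hαS; exact hαS
  exfalso
  -- smallness
  set Cc := kc c ^ (1 / c) with hC
  have hCtop : Cc < ⊤ := by
    rw [hC]
    exact ENNReal.rpow_lt_top_of_nonneg (by have := h.hc0; positivity) (kc_lt_top h.hc0 h.hc2).ne
  set δ : ℕ → ℝ := fun k => (R - α) / 2 / ((k : ℝ) + 1) with hδ
  have hδpos : ∀ k, 0 < δ k := fun k => by
    simp only [hδ]
    have : 0 < R - α := by linarith
    positivity
  have hδle : ∀ k, δ k ≤ (R - α) / 2 := fun k => by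
    simp only [hδ]
    apply div_le_self (by linarith)
    have : (0 : ℝ) ≤ k := by positivity
    linarith
  set sk : ℕ → Set ℂ := fun k => {ζ : ℂ | α ≤ ‖ζ‖ ∧ ‖ζ‖ < α + δ k} with hsk
  have hanti : Antitone sk := by
    intro i j hij ζ hζ
    refine ⟨hζ.1, hζ.2.trans_le ?_⟩
    have : δ j ≤ δ i := by
      simp only [hδ]
      have : (i : ℝ) ≤ j := by exact_mod_cast hij
      have h1 : 0 < R - α := by linarith
      gcongr
    linarith
  have mF : Measurable (fun ζ : ℂ => (‖ζ‖ₑ * W ζ) ^ r) := (measurable_enorm.mul h.mW).pow_const r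
  set ν : Measure ℂ := (mu.restrict (ball 0 R)).withDensity (fun ζ => (‖ζ‖ₑ * W ζ) ^ r) with hν
  have hνfin : ν univ < ⊤ := by
    rw [hν, withDensity_apply _ MeasurableSet.univ, setLIntegral_univ]
    exact h.intW
  have hνsk : Tendsto (fun k => ν (sk k)) atTop (𝓝 (ν (⋂ k, sk k))) := by
    apply tendsto_measure_iInter_atTop (fun k => (measurableSet_ann' _ _).nullMeasurableSet) hanti
    exact ⟨0, ((measure_mono (subset_univ _)).trans_lt hνfin).ne⟩
  have hinter : (⋂ k, sk k) ⊆ sphere (0 : ℂ) α := by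
    intro ζ hζ
    rw [mem_iInter] at hζ
    rw [mem_sphere_zero_iff_norm]
    refine le_antisymm ?_ (hζ 0).1
    have hlim : Tendsto (fun k => α + δ k) atTop (𝓝 (α + 0)) := by
      apply Tendsto.const_add
      simp only [hδ]
      have := tendsto_one_div_add_atTop_nhds_zero_nat (𝕜 := ℝ)
      have h2 := this.const_mul ((R - α) / 2)
      rw [mul_zero] at h2
      refine h2.congr (fun k => ?_)
      ring
    rw [add_zero] at hlim
    exact ge_of_tendsto hlim (Eventually.of_forall fun k => (hζ k).2.le)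
  have hν0 : ν (⋂ k, sk k) = 0 := by
    refine measure_mono_null hinter ?_
    rw [hν]
    apply withDensity_absolutelyContinuous
    apply Measure.absolutelyContinuous_of_le Measure.restrict_le_self
    unfold mu
    apply withDensity_absolutelyContinuous
    exact Measure.addHaar_sphere _ _ _
  rw [hν0] at hνsk
  have hNm : ∀ k, Nm r ((sk k).indicator (fun ζ => ‖ζ‖ₑ * W ζ)) = ν (sk k) ^ (1 / r) := by
    intro k
    unfold Nm
    congr 1
    rw [hν, withDensity_apply _ (measurableSet_ann' _ _), Measure.restrict_restrict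
      (measurableSet_ann' _ _), ← lintegral_indicator ((measurableSet_ann' _ _).inter measurableSet_ball)]
    apply lintegral_congr
    intro ζ
    by_cases hz : ζ ∈ sk k
    · have hzb : ζ ∈ ball (0 : ℂ) R := by
        rw [mem_ball_zero_iff]
        have h1 := hz.2
        have h2 := hδle k
        linarith
      rw [indicator_of_mem hz, indicator_of_mem (show ζ ∈ sk k ∩ ball 0 R from ⟨hz, hzb⟩)]
    · rw [indicator_of_notMem hz, indicator_of_notMem (fun hc => hz hc.1),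
        ENNReal.zero_rpow_of_pos hr0]
  have hlim2 : Tendsto (fun k => Cc * ν (sk k) ^ (1 / r)) atTop (𝓝 (Cc * 0 ^ (1 / r))) := by
    apply ENNReal.Tendsto.const_mul _ (Or.inr hCtop.ne)
    exact (ENNReal.continuous_rpow_const.tendsto _).comp hνsk
  rw [ENNReal.zero_rpow_of_pos (by positivity), mul_zero] at hlim2
  have hev := hlim2.eventually_lt_const (show (0 : ℝ≥0∞) < 1 / 2 by norm_num)
  obtain ⟨k, hk⟩ := hev.exists
  have hst : ∀ᵐ ζ : ℂ, ‖ζ‖ ≤ α + δ k / 2 → a ζ = 0 := by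
    apply step h (α := α) (β := α + δ k) (by have := hδpos k; linarith)
      (by have := hδpos k; linarith) (by have := hδle k; linarith) hαS
    rw [hNm k]
    exact hk.le
  have hmem : α + δ k / 2 ∈ S := by
    refine ⟨by have := hδle k; have := hδpos k; linarith, ?_⟩
    filter_upwards [hst] with ζ hζ hlt'
    exact hζ hlt'.le
  have := le_csSup hbdd hmem
  have := hδpos k
  linarith

end Pool.Agent.Q171.SUC
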