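import Pool.Agent.Q171.SUC.Zero

set_option autoImplicit false

open MeasureTheory Set Filter Topology Metric
open scoped ENNReal ContDiff ComplexConjugate

namespace Pool.Agent.Q171.SUC

section dyadic

variable {n : ℕ}

theorem dyadic {g : Cn n → ℝ≥0∞} {ρ : ℝ} (hρ : 0 < ρ) (N : ℕ)
    (h : ∀ r, 0 < r → r ≤ ρ → ∫⁻ z in ball (0 : Cn n) r, g z ≤ ENNReal.ofReal (r ^ (N + 1))) :
    ∫⁻ z in ball (0 : Cn n) ρ \ {0}, ENNReal.ofReal ((‖z‖ ^ N)⁻¹) * g z < ⊤ := by
  set A : ℕ → Set (Cn n) := fun k => {z | ρ * (1 / 2) ^ (k + 1) ≤ ‖z‖ ∧ ‖z‖ < ρ * (1 / 2) ^ k} with hA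
  have hAm : ∀ k, MeasurableSet (A k) := fun k =>
    (measurableSet_le measurable_const measurable_norm).inter
      (measurableSet_lt measurable_norm measurable_const)
  have hcov : ball (0 : Cn n) ρ \ {0} ⊆ ⋃ k, A k := by
    intro z hz
    have hz0 : 0 < ‖z‖ := norm_pos_iff.mpr hz.2
    have hzρ : ‖z‖ < ρ := mem_ball_zero_iff.mp hz.1
    obtain ⟨k, hk⟩ := exists_pow_lt_of_lt_one (show 0 < ‖z‖ / ρ by positivity)
      (show (1 / 2 : ℝ) < 1 by norm_num)
    have hex : ∃ k : ℕ, ρ * (1 / 2) ^ k ≤ ‖z‖ := by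
      refine ⟨k, ?_⟩
      rw [lt_div_iff₀ hρ] at hk
      linarith
    classical
    have hspec := Nat.find_spec hex
    have hmin := fun j hj => Nat.find_min hex (m := j) hj
    rcases Nat.eq_zero_or_pos (Nat.find hex) with h0 | h0
    · rw [h0] at hspec
      simp at hspec
      linarith
    · rw [mem_iUnion]
      refine ⟨Nat.find hex - 1, ?_, ?_⟩
      · have : Nat.find hex - 1 + 1 = Nat.find hex := Nat.sub_add_cancel h0
        rw [this]; exact hspec
      · have := hmin (Nat.find hex - 1) (Nat.sub_lt h0 one_pos)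
        push Not at this
        exact this
  have hk : ∀ k, ∫⁻ z in A k, ENNReal.ofReal ((‖z‖ ^ N)⁻¹) * g z ≤
      ENNReal.ofReal (2 ^ N * ρ) * ENNReal.ofReal ((1 / 2) ^ k) := by
    intro k
    have hpos : 0 < ρ * (1 / 2 : ℝ) ^ (k + 1) := by positivity
    calc ∫⁻ z in A k, ENNReal.ofReal ((‖z‖ ^ N)⁻¹) * g z
        ≤ ∫⁻ z in A k, ENNReal.ofReal (((ρ * (1 / 2) ^ (k + 1)) ^ N)⁻¹) * g z := by
          apply setLIntegral_mono' (hAm k)
          intro z hz
          gcongr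
          exact hz.1
      _ = ENNReal.ofReal (((ρ * (1 / 2) ^ (k + 1)) ^ N)⁻¹) * ∫⁻ z in A k, g z :=
          lintegral_const_mul' _ _ ENNReal.ofReal_ne_top
      _ ≤ ENNReal.ofReal (((ρ * (1 / 2) ^ (k + 1)) ^ N)⁻¹) *
          ∫⁻ z in ball (0 : Cn n) (ρ * (1 / 2) ^ k), g z := by
          gcongr
          intro z hz
          rw [mem_ball_zero_iff]; exact hz.2
      _ ≤ ENNReal.ofReal (((ρ * (1 / 2) ^ (k + 1)) ^ N)⁻¹) *
          ENNReal.ofReal ((ρ * (1 / 2) ^ k) ^ (N + 1)) := by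
          gcongr
          apply h _ (by positivity)
          have : (1 / 2 : ℝ) ^ k ≤ 1 := pow_le_one₀ (by norm_num) (by norm_num)
          nlinarith
      _ = _ := by
          rw [← ENNReal.ofReal_mul (by positivity), ← ENNReal.ofReal_mul (by positivity)]
          congr 1
          have e1 : (ρ * (1 / 2 : ℝ) ^ (k + 1)) ^ N = (ρ * (1 / 2) ^ k) ^ N * (1 / 2) ^ N := by
            rw [pow_succ (1 / 2 : ℝ) k, ← mul_assoc, mul_pow]
          rw [e1, pow_succ (ρ * (1 / 2 : ℝ) ^ k) N]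
          have e2 : (2 : ℝ) ^ N = ((1 / 2) ^ N)⁻¹ := by
            rw [one_div, inv_pow, inv_inv]
          rw [e2]
          field_simp
  calc ∫⁻ z in ball (0 : Cn n) ρ \ {0}, ENNReal.ofReal ((‖z‖ ^ N)⁻¹) * g z
      ≤ ∫⁻ z in ⋃ k, A k, ENNReal.ofReal ((‖z‖ ^ N)⁻¹) * g z := lintegral_mono_set hcov
    _ ≤ ∑' k, ∫⁻ z in A k, ENNReal.ofReal ((‖z‖ ^ N)⁻¹) * g z := lintegral_iUnion_le _ _
    _ ≤ ∑' k : ℕ, ENNReal.ofReal (2 ^ N * ρ) * ENNReal.ofReal ((1 / 2) ^ k) := ENNReal.tsum_le_tsum hk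
    _ = ENNReal.ofReal (2 ^ N * ρ) * ∑' k : ℕ, ENNReal.ofReal ((1 / 2) ^ k) := ENNReal.tsum_mul_left
    _ < ⊤ := by
        apply ENNReal.mul_lt_top ENNReal.ofReal_lt_top
        rw [← ENNReal.ofReal_tsum_of_nonneg (fun k => by positivity)
          (summable_geometric_of_lt_one (by norm_num) (by norm_num))]
        exact ENNReal.ofReal_lt_top

/-- infinite order vanishing in `L^q` gives weighted integrability in `L^p` -/
theorem van_weight {m : ℕ} {U : Cn n → Cn m} (hU : Measurable U) {p q : ℝ} (hp : 0 < p)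
    (hpq : p ≤ q) (hq2 : q ≤ 2 * p) [Nontrivial (Cn n)] (hv : VanishesInf q U 0) (M : ℕ) :
    ∃ ρ > 0, ∫⁻ z in ball (0 : Cn n) ρ, ENNReal.ofReal ((‖z‖ ^ M)⁻¹) * ‖U z‖ₑ ^ p < ⊤ := by
  have h1 := hv (2 * M + 1)
  have h2 := h1.eventually_lt_const (show (0 : ℝ≥0∞) < 1 by norm_num)
  rw [eventually_nhdsWithin_iff, Metric.eventually_nhds_iff] at h2
  obtain ⟨δ, hδ, hδ2⟩ := h2
  set ρ := min (δ / 2) (1 / 2) with hρ
  have hρ0 : 0 < ρ := by positivity
  have hF : ∀ r, 0 < r → r ≤ ρ → ∫⁻ z in ball (0 : Cn n) r, ‖U z‖ₑ ^ q ≤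
      ENNReal.ofReal (r ^ (2 * M + 1)) := by
    intro r hr0 hr
    have hrδ : r < δ := by
      have : ρ ≤ δ / 2 := min_le_left _ _
      linarith
    have h3 := hδ2 (y := r) (by rw [Real.dist_eq, sub_zero, abs_of_pos hr0]; exact hrδ) hr0
    have hrN : 0 < r ^ (2 * M + 1) := by positivity
    calc ∫⁻ z in ball (0 : Cn n) r, ‖U z‖ₑ ^ q = ENNReal.ofReal (r ^ (2 * M + 1)) *
          (ENNReal.ofReal ((r ^ (2 * M + 1))⁻¹) * ∫⁻ z in ball (0 : Cn n) r, ‖U z‖ₑ ^ q) := by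
          rw [← mul_assoc, ← ENNReal.ofReal_mul hrN.le, mul_inv_cancel₀ hrN.ne',
            ENNReal.ofReal_one, one_mul]
      _ ≤ ENNReal.ofReal (r ^ (2 * M + 1)) * 1 := by gcongr
      _ = _ := mul_one _
  have hdy := dyadic hρ0 (2 * M) hF
  refine ⟨ρ, hρ0, ?_⟩
  have hne : (ball (0 : Cn n) ρ \ {0} : Set (Cn n)) =ᵐ[volume] ball (0 : Cn n) ρ := by
    apply diff_null_ae_eq_self
    simp
  rw [← setLIntegral_congr hne]
  have hms : MeasurableSet (ball (0 : Cn n) ρ \ {0} : Set (Cn n)) :=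
    measurableSet_ball.diff (measurableSet_singleton 0)
  calc ∫⁻ z in ball (0 : Cn n) ρ \ {0}, ENNReal.ofReal ((‖z‖ ^ M)⁻¹) * ‖U z‖ₑ ^ p
      ≤ ∫⁻ z in ball (0 : Cn n) ρ \ {0}, (1 + ENNReal.ofReal ((‖z‖ ^ (2 * M))⁻¹) * ‖U z‖ₑ ^ q) := by
        apply setLIntegral_mono' hms
        intro z hz
        have hz0 : 0 < ‖z‖ := norm_pos_iff.mpr hz.2
        have hz1 : ‖z‖ < 1 := by
          have h3 := mem_ball_zero_iff.mp hz.1
          have : ρ ≤ 1 / 2 := min_le_right _ _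
          linarith
        set w := ENNReal.ofReal ((‖z‖ ^ M)⁻¹) * ‖U z‖ₑ ^ p with hw
        rcases le_or_gt w 1 with hw1 | hw1
        · exact hw1.trans le_self_add
        · have hqp : 1 ≤ q / p := by rw [le_div_iff₀ hp]; linarith
          calc w = w ^ (1 : ℝ) := (ENNReal.rpow_one w).symm
            _ ≤ w ^ (q / p) := ENNReal.rpow_le_rpow_of_exponent_le hw1.le hqp
            _ = ENNReal.ofReal ((‖z‖ ^ M)⁻¹) ^ (q / p) * ‖U z‖ₑ ^ q := by
                rw [hw, ENNReal.mul_rpow_of_nonneg _ _ (by positivity), ← ENNReal.rpow_mul]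
                congr 2
                field_simp
            _ ≤ ENNReal.ofReal ((‖z‖ ^ (2 * M))⁻¹) * ‖U z‖ₑ ^ q := by
                gcongr
                rw [ENNReal.ofReal_rpow_of_nonneg (by positivity) (by positivity)]
                apply ENNReal.ofReal_le_ofReal
                have h1' : (1 : ℝ) ≤ (‖z‖ ^ M)⁻¹ :=
                  (one_le_inv₀ (by positivity)).mpr (pow_le_one₀ hz0.le hz1.le)
                calc ((‖z‖ ^ M)⁻¹) ^ (q / p) ≤ ((‖z‖ ^ M)⁻¹) ^ (2 : ℝ) := by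
                      apply Real.rpow_le_rpow_of_exponent_le h1'
                      rw [div_le_iff₀ hp]; linarith
                  _ = (‖z‖ ^ (2 * M))⁻¹ := by
                      rw [Real.rpow_two, inv_pow, ← pow_mul, mul_comm M 2]
            _ ≤ _ := le_add_self
    _ = (∫⁻ z in ball (0 : Cn n) ρ \ {0}, 1) +
        ∫⁻ z in ball (0 : Cn n) ρ \ {0}, ENNReal.ofReal ((‖z‖ ^ (2 * M))⁻¹) * ‖U z‖ₑ ^ q := by
        rw [lintegral_add_left measurable_const]
    _ < ⊤ := by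
        apply ENNReal.add_lt_top.mpr ⟨?_, hdy⟩
        rw [setLIntegral_one]
        exact (measure_mono diff_subset).trans_lt measure_ball_lt_top

end dyadic

end Pool.Agent.Q171.SUC
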