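import Mathlib

set_option autoImplicit false

open MeasureTheory Set Filter Topology
open scoped ENNReal

namespace Pool.Agent.Q171.SUC

/-- Schur / Young inequality -/
theorem young {α : Type*} [MeasurableSpace α] {μ : Measure α} [SFinite μ] {K : α → α → ℝ≥0∞}
    (hK : Measurable (Function.uncurry K)) {A : ℝ≥0∞} {c p q : ℝ} (hc : 0 < c)
    (h1 : ∀ z, ∫⁻ ζ, K z ζ ^ c ∂μ ≤ A) (h2 : ∀ ζ, ∫⁻ z, K z ζ ^ c ∂μ ≤ A)
    (hp : 1 ≤ p) (hpq : p < q) (hcpq : 1 / c = 1 / q + (1 - 1 / p))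
    {k : α → ℝ≥0∞} (hk : Measurable k) :
    (∫⁻ z, (∫⁻ ζ, K z ζ * k ζ ∂μ) ^ q ∂μ) ^ (1 / q) ≤
      A ^ (1 / c) * (∫⁻ ζ, k ζ ^ p ∂μ) ^ (1 / p) := by
  have hp0 : 0 < p := by linarith
  have hq0 : 0 < q := by linarith
  have hKz : ∀ z, Measurable (K z) := fun z => hK.of_uncurry_left
  have hKζ : ∀ ζ, Measurable (fun z => K z ζ) := fun ζ => hK.of_uncurry_right
  set I := ∫⁻ ζ, k ζ ^ p ∂μ with hI
  set a1 : ℝ := 1 / q with ha1
  set a2 : ℝ := 1 - 1 / p with ha2
  set a3 : ℝ := 1 / p - 1 / q with ha3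
  have h1p : 1 / p ≤ 1 := by rw [div_le_one hp0]; exact hp
  have h1q : 1 / q < 1 / p := one_div_lt_one_div_of_lt hp0 hpq
  have hq1 : 0 < 1 / q := by positivity
  have ha1n : 0 ≤ a1 := hq1.le
  have ha2n : 0 ≤ a2 := by rw [ha2]; linarith
  have ha3n : 0 ≤ a3 := by rw [ha3]; linarith
  have hsum : a1 + a2 + a3 = 1 := by rw [ha1, ha2, ha3]; ring
  have hcc : c * a1 + c * a2 = 1 := by
    rw [← mul_add, ← hcpq]; field_simp
  have hpp : p * a1 + p * a3 = 1 := by
    rw [← mul_add, ha1, ha3]; field_simp; ring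
  have hpt : ∀ z, ∫⁻ ζ, K z ζ * k ζ ∂μ ≤
      (∫⁻ ζ, K z ζ ^ c * k ζ ^ p ∂μ) ^ a1 * A ^ a2 * I ^ a3 := by
    intro z
    have hf : ∀ i ∈ (Finset.univ : Finset (Fin 3)), AEMeasurable
        ((![fun ζ => K z ζ ^ c * k ζ ^ p, fun ζ => K z ζ ^ c, fun ζ => k ζ ^ p] :
          Fin 3 → α → ℝ≥0∞) i) μ := by
      intro i _
      fin_cases i
      · exact (((hKz z).pow_const c).mul (hk.pow_const p)).aemeasurable
      · exact ((hKz z).pow_const c).aemeasurable
      · exact (hk.pow_const p).aemeasurable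
    have := ENNReal.lintegral_prod_norm_pow_le (μ := μ) Finset.univ hf (p := ![a1, a2, a3])
      (by simp [Fin.sum_univ_three, hsum]) (by
        intro i _
        fin_cases i
        · exact ha1n
        · exact ha2n
        · exact ha3n)
    simp only [Fin.prod_univ_three, Matrix.cons_val_zero, Matrix.cons_val_one,
      Matrix.cons_val_two, Matrix.head_cons, Matrix.tail_cons, Matrix.cons_val] at this
    calc ∫⁻ ζ, K z ζ * k ζ ∂μ
        = ∫⁻ ζ, (K z ζ ^ c * k ζ ^ p) ^ a1 * (K z ζ ^ c) ^ a2 * (k ζ ^ p) ^ a3 ∂μ := by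
          apply lintegral_congr
          intro ζ
          rw [ENNReal.mul_rpow_of_nonneg _ _ ha1n, ← ENNReal.rpow_mul, ← ENNReal.rpow_mul,
            ← ENNReal.rpow_mul, ← ENNReal.rpow_mul]
          have e1 : K z ζ = K z ζ ^ (c * a1) * K z ζ ^ (c * a2) := by
            rw [← ENNReal.rpow_add_of_nonneg _ _ (by positivity) (by positivity), hcc,
              ENNReal.rpow_one]
          have e2 : k ζ = k ζ ^ (p * a1) * k ζ ^ (p * a3) := by
            rw [← ENNReal.rpow_add_of_nonneg _ _ (by positivity) (by positivity), hpp,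
              ENNReal.rpow_one]
          conv_lhs => rw [e1, e2]
          ring
      _ ≤ _ := this
      _ ≤ _ := by
          gcongr
          exact h1 z
  have hq1' : a1 * q = 1 := by rw [ha1]; field_simp
  have hmeas : Measurable fun z => ∫⁻ ζ, K z ζ ^ c * k ζ ^ p ∂μ := by
    apply Measurable.lintegral_prod_right'
      (f := fun x : α × α => K x.1 x.2 ^ c * k x.2 ^ p)
    exact (hK.pow_const c).mul ((hk.comp measurable_snd).pow_const p)
  have hmain : ∫⁻ z, (∫⁻ ζ, K z ζ * k ζ ∂μ) ^ q ∂μ ≤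
      (A ^ a2 * I ^ a3) ^ q * (A * I) := by
    calc ∫⁻ z, (∫⁻ ζ, K z ζ * k ζ ∂μ) ^ q ∂μ
        ≤ ∫⁻ z, (A ^ a2 * I ^ a3) ^ q * ∫⁻ ζ, K z ζ ^ c * k ζ ^ p ∂μ ∂μ := by
          apply lintegral_mono
          intro z
          calc (∫⁻ ζ, K z ζ * k ζ ∂μ) ^ q
              ≤ ((∫⁻ ζ, K z ζ ^ c * k ζ ^ p ∂μ) ^ a1 * A ^ a2 * I ^ a3) ^ q := by
                gcongr
                exact hpt z
            _ = (A ^ a2 * I ^ a3) ^ q * ∫⁻ ζ, K z ζ ^ c * k ζ ^ p ∂μ := by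
                rw [mul_assoc, ENNReal.mul_rpow_of_nonneg _ _ hq0.le, ← ENNReal.rpow_mul, hq1',
                  ENNReal.rpow_one, mul_comm]
      _ = (A ^ a2 * I ^ a3) ^ q * ∫⁻ z, ∫⁻ ζ, K z ζ ^ c * k ζ ^ p ∂μ ∂μ :=
          lintegral_const_mul _ hmeas
      _ ≤ (A ^ a2 * I ^ a3) ^ q * (A * I) := by
          gcongr
          rw [lintegral_lintegral_swap]
          · calc ∫⁻ ζ, ∫⁻ z, K z ζ ^ c * k ζ ^ p ∂μ ∂μ
                = ∫⁻ ζ, (∫⁻ z, K z ζ ^ c ∂μ) * k ζ ^ p ∂μ := by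
                  apply lintegral_congr
                  intro ζ
                  rw [lintegral_mul_const _ ((hKζ ζ).pow_const c)]
              _ ≤ ∫⁻ ζ, A * k ζ ^ p ∂μ := by
                  apply lintegral_mono
                  intro ζ
                  simp only
                  gcongr
                  exact h2 ζ
              _ = A * I := lintegral_const_mul _ (hk.pow_const p)
          · exact ((hK.pow_const c).mul ((hk.comp measurable_snd).pow_const p)).aemeasurable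
  calc (∫⁻ z, (∫⁻ ζ, K z ζ * k ζ ∂μ) ^ q ∂μ) ^ (1 / q)
      ≤ ((A ^ a2 * I ^ a3) ^ q * (A * I)) ^ (1 / q) := by gcongr
    _ = (A ^ a2 * I ^ a3) * (A ^ a1 * I ^ a1) := by
        rw [ENNReal.mul_rpow_of_nonneg _ _ hq1.le, ← ENNReal.rpow_mul,
          ENNReal.mul_rpow_of_nonneg _ _ hq1.le]
        have : q * (1 / q) = 1 := by field_simp
        rw [this, ENNReal.rpow_one]
    _ = (A ^ a1 * A ^ a2) * (I ^ a1 * I ^ a3) := by ring
    _ = A ^ (1 / c) * I ^ (1 / p) := by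
        rw [← ENNReal.rpow_add_of_nonneg _ _ ha1n ha2n, ← ENNReal.rpow_add_of_nonneg _ _ ha1n ha3n]
        congr 2
        · rw [hcpq]
        · rw [ha1, ha3]; ring

end Pool.Agent.Q171.SUC
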