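import Pool.Agent.Q171.SUC.Ball

set_option autoImplicit false

open MeasureTheory Set Filter Topology Metric
open scoped ENNReal ContDiff ComplexConjugate

namespace Pool.Agent.Q171.SUC

theorem ball_zero {n m : ℕ} {R0 p q r c : ℝ} (hp : 1 ≤ p) (hp2 : p ≤ 2) (hpq : p < q)
    (hpr : p < r) (hc0 : 0 < c) (hc2 : c < 2) (hcpq : 1 / c = 1 / q + (1 - 1 / p))
    (hold : 1 / p = 1 / r + 1 / q) (hr : r = 2 * n) (hn : 1 ≤ n)
    {U : Cn n → Cn m} {gx gy : Fin n → Cn n → Cn m}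
    {V : Cn n → ℝ≥0∞} (h : BallHyp n m R0 p r U gx gy V) (hR0 : 0 < R0) :
    ∀ᵐ z : Cn n, ‖z‖ < R0 → U z = 0 := by
  have : Nontrivial (Cn n) := by
    have : Nonempty (Fin n) := ⟨⟨0, hn⟩⟩
    infer_instance
  have hcore := ball_core hp hp2 hpq hpr hc0 hc2 hcpq hold hr hn h hR0
  have hms : MeasurableSet {p : Cn n × ℂ | ‖p.2‖ < R0 / 2 → U (p.2 • p.1) = 0} := by
    have hmc : Measurable (fun p : Cn n × ℂ => p.2 • p.1) := by
      have : Continuous (fun p : Cn n × ℂ => p.2 • p.1) := continuous_snd.smul continuous_fst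
      exact this.measurable
    have h1 : MeasurableSet {p : Cn n × ℂ | ‖p.2‖ < R0 / 2} :=
      measurableSet_lt (measurable_norm.comp measurable_snd) measurable_const
    have h2 : MeasurableSet {p : Cn n × ℂ | U (p.2 • p.1) = 0} :=
      (h.mU.comp hmc) (measurableSet_singleton 0)
    have : {p : Cn n × ℂ | ‖p.2‖ < R0 / 2 → U (p.2 • p.1) = 0} =
        {p : Cn n × ℂ | ‖p.2‖ < R0 / 2}ᶜ ∪ {p : Cn n × ℂ | U (p.2 • p.1) = 0} := by
      ext p
      simp only [mem_ofPred_eq, mem_union, mem_compl_iff]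
      tauto
    rw [this]
    exact h1.compl.union h2
  have hswap := (Measure.ae_ae_comm (μ := (volume : Measure (Cn n)).restrict (shell (Cn n)))
    (ν := (volume : Measure ℂ)) (p := fun θ ζ => ‖ζ‖ < R0 / 2 → U (ζ • θ) = 0) hms).mp hcore
  -- vanishing on shells
  have hshell : ∀ ζ : ℂ, ζ ≠ 0 → (∀ᵐ θ ∂((volume : Measure (Cn n)).restrict (shell (Cn n))),
      U (ζ • θ) = 0) → volume {z : Cn n | (‖ζ‖ < ‖z‖ ∧ ‖z‖ < 2 * ‖ζ‖) ∧ U z ≠ 0} = 0 := by
    intro ζ hζ hae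
    have hζn : 0 < ‖ζ‖ := norm_pos_iff.mpr hζ
    have hmS : MeasurableSet {z : Cn n | (‖ζ‖ < ‖z‖ ∧ ‖z‖ < 2 * ‖ζ‖) ∧ U z ≠ 0} := by
      apply MeasurableSet.inter
      · exact (measurableSet_lt measurable_const measurable_norm).inter
          (measurableSet_lt measurable_norm measurable_const)
      · exact (h.mU (measurableSet_singleton 0)).compl
    rw [← lintegral_indicator_one hmS,
      lintegral_eq_csmul volume hζ (measurable_one.indicator hmS)]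
    have hz : ∫⁻ x : Cn n, {z : Cn n | (‖ζ‖ < ‖z‖ ∧ ‖z‖ < 2 * ‖ζ‖) ∧ U z ≠ 0}.indicator
        (1 : Cn n → ℝ≥0∞) (ζ • x) = 0 := by
      have hmI : Measurable (fun x : Cn n => {z : Cn n | (‖ζ‖ < ‖z‖ ∧ ‖z‖ < 2 * ‖ζ‖) ∧
          U z ≠ 0}.indicator (1 : Cn n → ℝ≥0∞) (ζ • x)) :=
        (measurable_one.indicator hmS).comp (continuous_const_smul ζ).measurable
      rw [lintegral_eq_zero_iff hmI]
      rw [ae_restrict_iff' measurableSet_shell] at hae
      filter_upwards [hae] with θ hθ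
      apply indicator_of_notMem
      rintro ⟨⟨a1, a2⟩, a3⟩
      rw [norm_smul] at a1 a2
      apply a3
      apply hθ
      constructor
      · by_contra hc; push Not at hc; nlinarith
      · by_contra hc; push Not at hc; nlinarith
    rw [hz, mul_zero]
  have hdense := Measure.dense_of_ae hswap
  have hnull : volume {z : Cn n | (0 < ‖z‖ ∧ ‖z‖ < R0) ∧ U z ≠ 0} = 0 := by
    apply measure_null_of_locally_null
    intro x hx
    obtain ⟨⟨hx0, hxR⟩, _⟩ := hx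
    -- choose a good ζ
    have hop : IsOpen {ζ : ℂ | ‖x‖ / 2 < ‖ζ‖ ∧ ‖ζ‖ < min ‖x‖ (R0 / 2)} :=
      (isOpen_lt continuous_const continuous_norm).inter
        (isOpen_lt continuous_norm continuous_const)
    have hne : {ζ : ℂ | ‖x‖ / 2 < ‖ζ‖ ∧ ‖ζ‖ < min ‖x‖ (R0 / 2)}.Nonempty := by
      have hlt : ‖x‖ / 2 < min ‖x‖ (R0 / 2) := lt_min (by linarith) (by linarith)
      obtain ⟨t, ht1, ht2⟩ := exists_between hlt
      refine ⟨(t : ℂ), ?_⟩
      have : ‖(t : ℂ)‖ = t := by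
        rw [Complex.norm_real, Real.norm_of_nonneg (by linarith)]
      constructor
      · rw [this]; exact ht1
      · rw [this]; exact ht2
    obtain ⟨ζ, hζ1, hζ2⟩ := hdense.inter_open_nonempty _ hop hne
    obtain ⟨b1, b2⟩ := hζ1
    rw [lt_min_iff] at b2
    have hζ0 : ζ ≠ 0 := by
      intro hc
      rw [hc, norm_zero] at b1
      linarith
    have hgood : ∀ᵐ θ ∂((volume : Measure (Cn n)).restrict (shell (Cn n))), U (ζ • θ) = 0 := by
      have := hζ2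
      simp only [mem_ofPred_eq] at this
      filter_upwards [this] with θ hθ
      exact hθ b2.2
    refine ⟨{z : Cn n | (‖ζ‖ < ‖z‖ ∧ ‖z‖ < 2 * ‖ζ‖) ∧ U z ≠ 0}, ?_, hshell ζ hζ0 hgood⟩
    rw [mem_nhdsWithin]
    refine ⟨{z : Cn n | ‖ζ‖ < ‖z‖ ∧ ‖z‖ < 2 * ‖ζ‖}, ?_, ?_, ?_⟩
    · exact (isOpen_lt continuous_const continuous_norm).inter
        (isOpen_lt continuous_norm continuous_const)
    · exact ⟨b2.1, by linarith⟩
    · rintro z ⟨hz1, hz2⟩
      exact ⟨hz1, hz2.2⟩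
  have h0 : ∀ᵐ z : Cn n, z ≠ 0 := by rw [ae_iff]; simp
  have h1 : ∀ᵐ z : Cn n, ¬ ((0 < ‖z‖ ∧ ‖z‖ < R0) ∧ U z ≠ 0) := by
    rw [ae_iff]
    simpa only [not_not] using hnull
  filter_upwards [h0, h1] with z hz0 hz1 hlt
  by_contra hc
  exact hz1 ⟨⟨norm_pos_iff.mpr hz0, hlt⟩, hc⟩

end Pool.Agent.Q171.SUC
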